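import Pool.Agent.Run7.h997.Chain
import Pool.Agent.H670R2.GramPoly
import Pool.Agent.H671R2.PolyAuto

/-!
# The algorithm on lists
-/

namespace Pool.Agent.Run7.h997

open Pool.Agent.NPC Pool.Agent.H670R2

/-- the largest number of vertices of a face -/
def topLen (L : List (List ℕ)) : ℕ := (L.map List.length).foldr max 0

/-- the faces of top dimension -/
def cols (L : List (List ℕ)) : List (List ℕ) := L.filter (fun σ => decide (σ.length = topLen L))

/-- the faces of codimension one -/
def rows (L : List (List ℕ)) : List (List ℕ) := L.filter (fun σ => decide (σ.length + 1 = topLen L))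

/-- a boundary coefficient -/
def bco (σ ρ : List ℕ) : ℤ :=
  (σ.map (fun v => if σ.filter (fun w => decide (w ≠ v)) = ρ then
    (if (σ.filter (fun w => decide (w < v))).length % 2 = 0 then (1 : ℤ) else -1) else 0)).sum

/-- a column of the boundary matrix -/
def vec (L : List (List ℕ)) (σ : List ℕ) : List ℤ := (rows L).map (fun ρ => bco σ ρ)

/-- the faces chosen by a mask -/
def chosen (L : List (List ℕ)) (μ : List Bool) : List (List ℕ) :=
  (((cols L).zip μ).filter (fun p => p.2)).map Prod.fst

/-- independence test -/
def okM (L : List (List ℕ)) (μ : List Bool) : Bool :=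
  decide (gdet ((chosen L μ).map (vec L)) ≠ 0)

/-- remove position `e`, add position `f` -/
def setB (μ : List Bool) (e f : ℕ) : List Bool :=
  μ.zipIdx.map (fun p => if p.2 = e then false else if p.2 = f then true else p.1)

/-- add position `e` -/
def add1 (μ : List Bool) (e : ℕ) : List Bool :=
  μ.zipIdx.map (fun p => if p.2 = e then true else p.1)

/-- a move of the walk -/
def mvB (L : List (List ℕ)) (μ : List Bool) (e f : ℕ) : List Bool :=
  if μ.getD e false = true ∧ μ.getD f true = false ∧ okM L (setB μ e f) = true then setB μ e f else μ

/-- one step of the greedy algorithm -/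
def gstep (L : List (List ℕ)) (μ : List Bool) (i : ℕ) : List Bool :=
  if okM L (add1 μ i) = true then add1 μ i else μ

/-- the starting basis -/
def greedy (L : List (List ℕ)) : List Bool :=
  (List.range (cols L).length).foldl (gstep L) (List.replicate (cols L).length false)

/-- half the number of binary digits of a move -/
def aOf (L : List (List ℕ)) : ℕ := (2 * (cols L).length).size

/-- the move with number `x` -/
def stepB (L : List (List ℕ)) (x : ℕ) (μ : List Bool) : List Bool :=
  mvB L μ (x % 2 ^ aOf L) (x / 2 ^ aOf L)

/-- length of the walk -/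
def tOf (L : List (List ℕ)) (s : ℕ) : ℕ := 4 ^ aOf L * (2 * (s + 1) + 2 * (cols L).length)

/-- state of the walk: the remaining random number and the current mask -/
def wstep (L : List (List ℕ)) (p : ℕ × List Bool) : ℕ × List Bool :=
  (p.1 / 4 ^ aOf L, stepB L (p.1 % 4 ^ aOf L) p.2)

/-- the end of the walk -/
def walkB (L : List (List ℕ)) (t ρ : ℕ) (μ : List Bool) : List Bool := ((wstep L)^[t] (ρ, μ)).2

/-- the mask of length `m` with number `j` -/
def mk (m j : ℕ) : List Bool := ((j.bits ++ List.replicate m false).zip (List.range m)).map Prod.fst

/-- all masks (when `P` is large enough) -/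
def masks (L : List (List ℕ)) (P : ℕ) : List (List Bool) :=
  ((List.range P).filter (fun j => decide (j < 2 ^ (cols L).length))).map (mk (cols L).length)

/-- one step of the computation of the numbers of walks -/
def nextT (L : List (List ℕ)) (P : ℕ) (T : List ℕ) : List ℕ :=
  (masks L P).map (fun μ =>
    ((List.range (4 ^ aOf L)).map (fun x => T.getD (valB (stepB L x μ)) 0)).sum)

/-- the table of the numbers of walks of length `t` ending in the starting basis -/
def table (L : List (List ℕ)) (P t : ℕ) : List ℕ :=
  (nextT L P)^[t] ((masks L P).map (fun μ => if μ = greedy L then 1 else 0))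

/-- size of the set given by a mask -/
def wt (μ : List Bool) : ℕ := (μ.filter (fun b => b)).length

/-- the masks of the bases -/
def basesL (L : List (List ℕ)) (P : ℕ) : List (List Bool) :=
  (masks L P).filter (fun μ => decide (okM L μ = true ∧ wt μ = wt (greedy L)))

/-- the common number of outcomes of each basis -/
def bigK (L : List (List ℕ)) (P s t : ℕ) : ℕ :=
  (2 ^ s - 1) * ((basesL L P).map (fun μ => (table L P t).getD (valB μ) 0)).foldr max 0

/-- the bases with the missing numbers of outcomes -/
def weights (L : List (List ℕ)) (P s t : ℕ) : List (List Bool × ℕ) :=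
  (basesL L P).map (fun μ => (μ, bigK L P s t - (2 ^ s - 1) * (table L P t).getD (valB μ) 0))

/-- one step of the selection -/
def selStep (p : Option (List Bool) × ℕ) (q : List Bool × ℕ) : Option (List Bool) × ℕ :=
  if p.1 = none then (if p.2 < q.2 then (some q.1, 0) else (none, p.2 - q.2)) else p

/-- selection with given weights -/
def sel (l : List (List Bool × ℕ)) (u : ℕ) : Option (List Bool) := (l.foldl selStep (none, u)).1

/-- the faces of the spanning tree given by a mask -/
def outL (L : List (List ℕ)) (μ : List Bool) : List (List ℕ) :=
  L.filter (fun σ => decide (σ.length < topLen L ∨ σ ∈ chosen L μ))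

/-- one trial, on masks -/
def trialB (L : List (List ℕ)) (P s R : ℕ) : Option (List Bool) :=
  if R % 2 ^ s ≠ 0 then some (walkB L (tOf L s) (R / 2 ^ s) (greedy L))
  else sel (weights L P s (tOf L s)) (R / 2 ^ s)

end Pool.Agent.Run7.h997
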