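import Pool.Agent.Run7.h997.Alg

/-!
# The algorithm runs in polynomial time
-/

namespace Pool.Agent.NPC.R997

open Pool.Agent.NPC.H670R2 Pool.Agent.H670R2 Pool.Agent.Run7.h997

section Helpers

variable {α β γ σ : Type} [TEnc α] [TEnc β] [TEnc γ] [TEnc σ]

theorem iterU {n : α → ℕ} {s : α → σ} {F : α → σ → σ} {b : α → β} (hn : UPoly n) (hs : Poly s)
    (hF : Poly (fun p : α × σ => F p.1 p.2)) (hb : Poly b) (C : ℕ)
    (hq : ∀ a, ∀ k ≤ n a, sz ((F a)^[k] (s a)) ≤ C * sz (b a)) :
    Poly (fun a => (F a)^[n a] (s a)) := by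
  obtain ⟨r, hr⟩ := hb.sz_le
  refine (Poly.iterLen (l := fun a => List.replicate (n a) ()) hn hs hF (Polynomial.C C * r)
    ?_).congr fun a => by simp
  intro a k hk
  rw [List.length_replicate] at hk
  refine (hq a k hk).trans ?_
  rw [Polynomial.eval_mul, Polynomial.eval_C]
  exact Nat.mul_le_mul_left _ (hr a)

theorem foldlU {l : α → List γ} {s : α → σ} {F : α → σ → γ → σ} {b : α → β} (hl : Poly l)
    (hs : Poly s) (hF : Poly (fun p : α × σ × γ => F p.1 p.2.1 p.2.2)) (hb : Poly b) (C : ℕ)
    (hq : ∀ a, ∀ k ≤ (l a).length, sz (((l a).take k).foldl (F a) (s a)) ≤ C * sz (b a)) :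
    Poly (fun a => (l a).foldl (F a) (s a)) := by
  obtain ⟨r, hr⟩ := hb.sz_le
  refine Poly.foldl hl hs hF (Polynomial.C C * r) ?_
  intro a k hk
  refine (hq a k hk).trans ?_
  rw [Polynomial.eval_mul, Polynomial.eval_C]
  exact Nat.mul_le_mul_left _ (hr a)

theorem uSize {n : α → ℕ} (hn : Poly n) : UPoly (fun a => (n a).size) :=
  (UPoly.length (Poly.natBits hn)).congr fun a => by simp only [Nat.size_eq_bits_len]

theorem maxL_le (l : List ℕ) : l.foldr max 0 ≤ l.sum := by
  induction l with
  | nil => simp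
  | cons a l ih => simp only [List.foldr_cons, List.sum_cons]; omega

theorem maxL_poly {l : α → List ℕ} (hl : Poly l) : Poly (fun a => (l a).foldr max 0) := by
  refine (foldlU (l := fun a => (l a).reverse) (s := fun _ => 0) (F := fun _ s x => max x s)
    (b := fun a => (l a).sum) (by fun_prop) (by fun_prop) (by fun_prop) (by fun_prop) 2
    ?_).congr fun a => ?_
  · intro a k _
    apply sz_nat_mono_le
    rw [List.take_reverse, List.foldl_reverse]
    refine (maxL_le _).trans ?_
    conv_rhs => rw [← List.take_append_drop ((l a).length - k) (l a), List.sum_append]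
    exact Nat.le_add_left _ _
  · rw [List.foldl_reverse]

end Helpers

section

variable {α : Type} [TEnc α]

theorem topLen_poly : Poly topLen := by
  unfold topLen
  exact maxL_poly (by fun_prop)

attribute [local fun_prop] topLen_poly Poly.isum poly_gdet

theorem cols_poly : Poly cols := by
  unfold cols
  fun_prop

theorem rows_poly : Poly rows := by
  unfold rows
  fun_prop

/-- a sign -/
def sgn (σ : List ℕ) (v : ℕ) : ℤ :=
  if (σ.filter (fun w => decide (w < v))).length % 2 = 0 then (1 : ℤ) else -1

theorem sgn_poly : Poly (fun p : List ℕ × ℕ => sgn p.1 p.2) := by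
  have h2 : Poly (fun p : List ℕ × ℕ =>
      decide ((p.1.filter (fun w => decide (w < p.2))).length % 2 = 0)) := by
    fun_prop
  exact Poly.ite h2 (Poly.const (1:ℤ)) (Poly.const (-1:ℤ))

/-- a term of the boundary coefficient -/
def cf (σ ρ : List ℕ) (v : ℕ) : ℤ :=
  if σ.filter (fun w => decide (w ≠ v)) = ρ then sgn σ v else 0

theorem cf_poly1 : Poly (fun q : (List ℕ × List ℕ) × ℕ => sgn q.1.1 q.2) :=
  sgn_poly.comp (f := fun q : (List ℕ × List ℕ) × ℕ => (q.1.1, q.2))
    (Poly.pair (Poly.fst (Poly.fst Poly.id)) (Poly.snd Poly.id))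

theorem cf_poly2 : Poly (fun q : (List ℕ × List ℕ) × ℕ =>
    q.1.1.filter (fun w => decide (w ≠ q.2))) := by
  fun_prop

theorem cf_poly3 : Poly (fun q : (List ℕ × List ℕ) × ℕ =>
    decide (q.1.1.filter (fun w => decide (w ≠ q.2)) = q.1.2)) :=
  Poly.decide_eq cf_poly2 (Poly.snd (Poly.fst Poly.id))

theorem cf_poly : Poly (fun q : (List ℕ × List ℕ) × ℕ => cf q.1.1 q.1.2 q.2) :=
  Poly.ite cf_poly3 cf_poly1 (Poly.const (0:ℤ))

theorem bco_poly : Poly (fun p : List ℕ × List ℕ => bco p.1 p.2) :=
  Poly.isum (Poly.map (F := fun (p : List ℕ × List ℕ) v => cf p.1 p.2 v) (Poly.fst Poly.id) cf_poly)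

theorem bco_poly' {f g : α → List ℕ} (hf : Poly f) (hg : Poly g) :
    Poly (fun a => bco (f a) (g a)) := bco_poly.comp (f := fun a => (f a, g a)) (Poly.pair hf hg)

attribute [local fun_prop] cols_poly rows_poly bco_poly'

theorem vec_poly {L : α → List (List ℕ)} {f : α → List ℕ} (hL : Poly L) (hf : Poly f) :
    Poly (fun a => vec (L a) (f a)) := by
  unfold vec
  fun_prop

theorem chosen_poly {L : α → List (List ℕ)} {μ : α → List Bool} (hL : Poly L) (hμ : Poly μ) :
    Poly (fun a => chosen (L a) (μ a)) := by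
  unfold chosen
  fun_prop

attribute [local fun_prop] vec_poly chosen_poly

theorem okM_poly {L : α → List (List ℕ)} {μ : α → List Bool} (hL : Poly L) (hμ : Poly μ) :
    Poly (fun a => okM (L a) (μ a)) := by
  unfold okM
  have h : Poly (fun a => gdet ((chosen (L a) (μ a)).map (vec (L a)))) :=
    poly_gdet (by fun_prop)
  fun_prop

theorem setB_poly {μ : α → List Bool} {e f : α → ℕ} (hμ : Poly μ) (he : Poly e) (hf : Poly f) :
    Poly (fun a => setB (μ a) (e a) (f a)) := by
  unfold setB
  fun_prop

theorem add1_poly {μ : α → List Bool} {e : α → ℕ} (hμ : Poly μ) (he : Poly e) :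
    Poly (fun a => add1 (μ a) (e a)) := by
  unfold add1
  fun_prop

attribute [local fun_prop] okM_poly setB_poly add1_poly

theorem mvB_poly {L : α → List (List ℕ)} {μ : α → List Bool} {e f : α → ℕ} (hL : Poly L)
    (hμ : Poly μ) (he : Poly e) (hf : Poly f) : Poly (fun a => mvB (L a) (μ a) (e a) (f a)) := by
  unfold mvB
  fun_prop

theorem gstep_poly {L : α → List (List ℕ)} {μ : α → List Bool} {e : α → ℕ} (hL : Poly L)
    (hμ : Poly μ) (he : Poly e) : Poly (fun a => gstep (L a) (μ a) (e a)) := by
  unfold gstep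
  fun_prop

theorem length_setB (μ : List Bool) (e f : ℕ) : (setB μ e f).length = μ.length := by
  simp [setB]

theorem length_add1 (μ : List Bool) (e : ℕ) : (add1 μ e).length = μ.length := by
  simp [add1]

theorem length_mvB (L : List (List ℕ)) (μ : List Bool) (e f : ℕ) :
    (mvB L μ e f).length = μ.length := by
  unfold mvB
  split_ifs
  · exact length_setB _ _ _
  · rfl

theorem length_gstep (L : List (List ℕ)) (μ : List Bool) (e : ℕ) :
    (gstep L μ e).length = μ.length := by
  unfold gstep
  split_ifs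
  · exact length_add1 _ _
  · rfl

theorem length_foldl_gstep (L : List (List ℕ)) (l : List ℕ) (μ : List Bool) :
    (l.foldl (gstep L) μ).length = μ.length := by
  induction l generalizing μ with
  | nil => rfl
  | cons a l ih => rw [List.foldl_cons, ih, length_gstep]

theorem sz_bools {μ : List Bool} {n : ℕ} (h : μ.length = n) :
    sz μ ≤ 4 * sz (List.replicate n ()) := by
  have h1 := sz_listBool_le μ
  have h2 := length_lt_sz (List.replicate n ())
  rw [List.length_replicate] at h2
  omega

theorem greedy_poly {L : α → List (List ℕ)} (hL : Poly L) : Poly (fun a => greedy (L a)) := by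
  have hn : UPoly (fun a => (cols (L a)).length) := UPoly.length (by fun_prop)
  have hs : Poly (fun a => List.replicate (cols (L a)).length false) :=
    (Poly.map (F := fun _ _ => false) hn (Poly.const _)).congr fun a => by simp
  unfold greedy
  refine foldlU (F := fun a μ i => gstep (L a) μ i)
    (b := fun a => List.replicate (cols (L a)).length ()) hn.range hs
    (gstep_poly (by fun_prop) (by fun_prop) (by fun_prop)) hn 4 ?_
  intro a k _
  apply sz_bools
  rw [length_foldl_gstep, List.length_replicate]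

theorem aOf_upoly {L : α → List (List ℕ)} (hL : Poly L) : UPoly (fun a => aOf (L a)) := by
  unfold aOf
  exact uSize (by fun_prop)

theorem pow2a_poly {L : α → List (List ℕ)} (hL : Poly L) : Poly (fun a => 2 ^ aOf (L a)) :=
  Poly.npow (Poly.const 2) (aOf_upoly hL)

theorem pow4a_poly {L : α → List (List ℕ)} (hL : Poly L) : Poly (fun a => 4 ^ aOf (L a)) :=
  Poly.npow (Poly.const 4) (aOf_upoly hL)

theorem pow_aOf_le (L : List (List ℕ)) : 2 ^ aOf L ≤ 4 * (cols L).length + 1 := by
  unfold aOf
  rcases Nat.eq_zero_or_pos (cols L).length with h | h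
  · rw [h]; simp
  · have h1 : (2 * (cols L).length).size ≠ 0 := by
      rw [Ne, Nat.size_eq_zero]; omega
    obtain ⟨k, hk⟩ : ∃ k, (2 * (cols L).length).size = k + 1 := ⟨_, (Nat.succ_pred h1).symm⟩
    have h2 : 2 ^ k ≤ 2 * (cols L).length := Nat.lt_size.1 (by omega)
    rw [hk, pow_succ]
    omega

theorem pow4a_upoly {L : α → List (List ℕ)} (hL : Poly L) : UPoly (fun a => 4 ^ aOf (L a)) := by
  have hn : UPoly (fun a => (cols (L a)).length) := UPoly.length (by fun_prop)
  refine UPoly.of_le (pow4a_poly hL) (((((UPoly.const 4).mul hn).add (UPoly.const 1)).mul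
    (((UPoly.const 4).mul hn).add (UPoly.const 1)))) fun a => ?_
  have h1 := pow_aOf_le (L a)
  have h2 : (4:ℕ) ^ aOf (L a) = 2 ^ aOf (L a) * 2 ^ aOf (L a) := by rw [← mul_pow]; norm_num
  rw [h2]
  exact Nat.mul_le_mul h1 h1

attribute [local fun_prop] mvB_poly gstep_poly greedy_poly pow2a_poly pow4a_poly

theorem stepB_poly {L : α → List (List ℕ)} {μ : α → List Bool} {x : α → ℕ} (hL : Poly L)
    (hμ : Poly μ) (hx : Poly x) : Poly (fun a => stepB (L a) (x a) (μ a)) :=
  mvB_poly hL hμ (Poly.mod hx (pow2a_poly hL)) (Poly.div hx (pow2a_poly hL))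

attribute [local fun_prop] stepB_poly

theorem tOf_upoly {L : α → List (List ℕ)} {s : α → ℕ} (hL : Poly L) (hs : UPoly s) :
    UPoly (fun a => tOf (L a) (s a)) := by
  have hn : UPoly (fun a => (cols (L a)).length) := UPoly.length (by fun_prop)
  unfold tOf
  exact (pow4a_upoly hL).mul (((UPoly.const 2).mul (hs.add (UPoly.const 1))).add
    ((UPoly.const 2).mul hn))

theorem wstep_poly {L : α → List (List ℕ)} {p : α → ℕ × List Bool} (hL : Poly L) (hp : Poly p) :
    Poly (fun a => wstep (L a) (p a)) :=
  Poly.pair (Poly.div (Poly.fst hp) (pow4a_poly hL))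
    (stepB_poly hL (Poly.snd hp) (Poly.mod (Poly.fst hp) (pow4a_poly hL)))

theorem length_wstep_iter (L : List (List ℕ)) (k : ℕ) (p : ℕ × List Bool) :
    ((wstep L)^[k] p).2.length = p.2.length ∧ ((wstep L)^[k] p).1 ≤ p.1 := by
  induction k with
  | zero => exact ⟨rfl, le_rfl⟩
  | succ k ih =>
    rw [Function.iterate_succ_apply']
    refine ⟨?_, ?_⟩
    · rw [← ih.1]
      exact length_mvB _ _ _ _
    · exact (Nat.div_le_self _ _).trans ih.2

theorem walkB_poly {L : α → List (List ℕ)} {t ρ : α → ℕ} {μ : α → List Bool} (hL : Poly L)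
    (ht : UPoly t) (hρ : Poly ρ) (hμ : Poly μ) :
    Poly (fun a => walkB (L a) (t a) (ρ a) (μ a)) := by
  unfold walkB
  refine Poly.snd (iterU (F := fun a p => wstep (L a) p) (b := fun a => (ρ a, μ a)) ht
    (Poly.pair hρ hμ) (wstep_poly (by fun_prop) (by fun_prop)) (Poly.pair hρ hμ) 6 ?_)
  intro a k _
  obtain ⟨h1, h2⟩ := length_wstep_iter (L a) k (ρ a, μ a)
  generalize (wstep (L a))^[k] (ρ a, μ a) = q at h1 h2
  obtain ⟨q1, q2⟩ := q
  simp only at h1 h2
  have h3 := sz_nat_mono_le h2
  have h4 := sz_listBool_le q2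
  have h5 := sz_listBool_ge (μ a)
  simp only [sz_pair]
  omega

theorem mk_poly {m j : α → ℕ} (hm : UPoly m) (hj : Poly j) : Poly (fun a => mk (m a) (j a)) := by
  have h1 : Poly (fun a => List.replicate (m a) false) :=
    (Poly.map (F := fun _ _ => false) hm (Poly.const _)).congr fun a => by simp
  have h2 : Poly (fun a => (j a).bits) := Poly.natBits hj
  have h3 : Poly (fun a => List.range (m a)) := hm.range
  unfold mk
  fun_prop

theorem masks_poly {L : α → List (List ℕ)} {P : α → ℕ} (hL : Poly L) (hP : UPoly P) :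
    Poly (fun a => masks (L a) (P a)) := by
  have hn : UPoly (fun a => (cols (L a)).length) := UPoly.length (by fun_prop)
  have h1 : Poly (fun a => 2 ^ (cols (L a)).length) := Poly.npow (Poly.const 2) hn
  have h2 : Poly (fun a => List.range (P a)) := hP.range
  have hn' : UPoly (fun p : α × ℕ => (cols (L p.1)).length) :=
    UPoly.length (l := fun p : α × ℕ => cols (L p.1)) (by fun_prop)
  have h3 : Poly (fun p : α × ℕ => mk (cols (L p.1)).length p.2) :=
    mk_poly (m := fun p : α × ℕ => (cols (L p.1)).length) (j := fun p => p.2) hn' (Poly.snd Poly.id)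
  have h4 : Poly (fun a => (List.range (P a)).filter
      (fun j => decide (j < 2 ^ (cols (L a)).length))) :=
    Poly.filter (p := fun a j => decide (j < 2 ^ (cols (L a)).length)) h2
      (Poly.decide_lt (Poly.snd Poly.id)
        (h1.comp (f := fun p : α × ℕ => p.1) (Poly.fst Poly.id)))
  exact Poly.map (F := fun a j => mk (cols (L a)).length j) h4 h3

theorem length_masks (L : List (List ℕ)) (P : ℕ) : (masks L P).length ≤ P := by
  unfold masks
  rw [List.length_map]
  refine (List.length_filter_le _ _).trans ?_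
  simp

theorem nextT_poly {L : α → List (List ℕ)} {P : α → ℕ} {T : α → List ℕ} (hL : Poly L)
    (hP : UPoly P) (hT : Poly T) : Poly (fun a => nextT (L a) (P a) (T a)) := by
  unfold nextT
  have h1 := masks_poly hL hP
  refine Poly.map (F := fun a μ => ((List.range (4 ^ aOf (L a))).map
    (fun x => (T a).getD (valB (stepB (L a) x μ)) 0)).sum) h1 ?_
  have h2 : Poly (fun p : α × List Bool => List.range (4 ^ aOf (L p.1))) :=
    (pow4a_upoly (L := fun p : α × List Bool => L p.1) (by fun_prop)).range
  refine Poly.sum (Poly.map (F := fun (p : α × List Bool) (x : ℕ) =>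
    (T p.1).getD (valB (stepB (L p.1) x p.2)) 0) h2 ?_)
  have h3 : Poly (fun q : (α × List Bool) × ℕ => valB (stepB (L q.1.1) q.2 q.1.2)) :=
    Poly.valBits (by fun_prop)
  fun_prop

theorem nextT_bound (L : List (List ℕ)) (P : ℕ) (T : List ℕ) (B : ℕ) (hT : ∀ x ∈ T, x ≤ B) :
    (nextT L P T).length = (masks L P).length ∧ ∀ x ∈ nextT L P T, x ≤ 4 ^ aOf L * B := by
  unfold nextT
  refine ⟨by simp, ?_⟩
  intro x hx
  obtain ⟨μ, _, rfl⟩ := List.mem_map.1 hx
  have h1 : ∀ i, T.getD i 0 ≤ B := by
    intro i
    rw [List.getD_eq_getElem?_getD]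
    cases h : T[i]? with
    | none => simp
    | some y => exact hT y (List.mem_of_getElem? h)
  refine (List.sum_le_card_nsmul _ B ?_).trans ?_
  · intro y hy
    obtain ⟨x, _, rfl⟩ := List.mem_map.1 hy
    exact h1 _
  · simp

theorem iter_nextT_bound (L : List (List ℕ)) (P k : ℕ) (T : List ℕ) (hl : T.length = (masks L P).length)
    (hT : ∀ x ∈ T, x ≤ 1) : ((nextT L P)^[k] T).length = (masks L P).length ∧
      ∀ x ∈ (nextT L P)^[k] T, x ≤ (4 ^ aOf L) ^ k := by
  induction k with
  | zero => exact ⟨hl, by simpa using hT⟩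
  | succ k ih =>
    rw [Function.iterate_succ_apply']
    obtain ⟨h1, h2⟩ := nextT_bound L P _ _ ih.2
    refine ⟨h1, fun x hx => (h2 x hx).trans (le_of_eq ?_)⟩
    rw [pow_succ, mul_comm]

theorem table_poly {L : α → List (List ℕ)} {P t : α → ℕ} (hL : Poly L) (hP : UPoly P)
    (ht : UPoly t) : Poly (fun a => table (L a) (P a) (t a)) := by
  have hm := masks_poly hL hP
  have hA : Poly (fun a => (4 ^ aOf (L a)) ^ t a) := Poly.npow (by fun_prop) ht
  unfold table
  refine iterU (F := fun a T => nextT (L a) (P a) T)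
    (b := fun a => (masks (L a) (P a)).map (fun _ => (4 ^ aOf (L a)) ^ t a)) ht ?_ ?_ ?_ 2 ?_
  · exact Poly.map (F := fun a μ => if μ = greedy (L a) then 1 else 0) hm (by fun_prop)
  · exact nextT_poly (L := fun p : α × List ℕ => L p.1) (P := fun p : α × List ℕ => P p.1)
      (T := fun p : α × List ℕ => p.2) (by fun_prop) (hP.comp (Poly.fst Poly.id)) (by fun_prop)
  · exact Poly.map (F := fun a _ => (4 ^ aOf (L a)) ^ t a) hm (hA.comp (Poly.fst Poly.id))
  · intro a k hk
    obtain ⟨h1, h2⟩ := iter_nextT_bound (L a) (P a) k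
      ((masks (L a) (P a)).map (fun μ => if μ = greedy (L a) then 1 else 0)) (by simp) (by
        intro x hx
        obtain ⟨μ, _, rfl⟩ := List.mem_map.1 hx
        split_ifs <;> omega)
    generalize (nextT (L a) (P a))^[k]
      ((masks (L a) (P a)).map (fun μ => if μ = greedy (L a) then 1 else 0)) = T at h1 h2
    have h3 : ∀ x ∈ T, x ≤ (4 ^ aOf (L a)) ^ t a := fun x hx => (h2 x hx).trans
      (Nat.pow_le_pow_right (by positivity) hk)
    generalize (4 ^ aOf (L a)) ^ t a = B at h3
    generalize masks (L a) (P a) = M at h1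
    have key : ∀ (T : List ℕ) (M : List (List Bool)), T.length = M.length → (∀ x ∈ T, x ≤ B) →
        sz T ≤ 2 * sz (M.map (fun _ => B)) := by
      intro T
      induction T with
      | nil => intro M _ _; have := sz_pos (M.map (fun _ => B)); rw [sz_list_nil]; omega
      | cons x T ih =>
        intro M hM hx
        cases M with
        | nil => simp at hM
        | cons y M =>
          have h4 := ih M (by simpa using hM) (fun z hz => hx z (List.mem_cons_of_mem _ hz))
          have h5 := sz_nat_mono_le (hx x List.mem_cons_self)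
          simp only [List.map_cons, sz_list_cons]
          omega
    exact key T M h1 h3

theorem wt_poly {μ : α → List Bool} (hμ : Poly μ) : Poly (fun a => wt (μ a)) := by
  unfold wt
  fun_prop

attribute [local fun_prop] wt_poly

theorem basesL_poly {L : α → List (List ℕ)} {P : α → ℕ} (hL : Poly L) (hP : UPoly P) :
    Poly (fun a => basesL (L a) (P a)) := by
  have hm := masks_poly hL hP
  unfold basesL
  exact Poly.filter (p := fun a μ => decide (okM (L a) μ = true ∧ wt μ = wt (greedy (L a)))) hm
    (by fun_prop)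

theorem pow2s_poly {s : α → ℕ} (hs : UPoly s) : Poly (fun a => 2 ^ s a) :=
  Poly.npow (Poly.const 2) hs

theorem bigK_poly {L : α → List (List ℕ)} {P s t : α → ℕ} (hL : Poly L) (hP : UPoly P)
    (hs : UPoly s) (ht : UPoly t) : Poly (fun a => bigK (L a) (P a) (s a) (t a)) := by
  have h1 := basesL_poly hL hP
  have h2 := table_poly hL hP ht
  have h3 := pow2s_poly hs
  have h4 : Poly (fun a => (basesL (L a) (P a)).map
      (fun μ => (table (L a) (P a) (t a)).getD (valB μ) 0)) := by
    refine Poly.map (F := fun a μ => (table (L a) (P a) (t a)).getD (valB μ) 0) h1 ?_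
    exact Poly.getD (h2.comp (Poly.fst Poly.id)) (Poly.valBits (Poly.snd Poly.id)) (Poly.const 0)
  exact Poly.mul (Poly.sub h3 (Poly.const 1)) (maxL_poly h4)

theorem weights_poly {L : α → List (List ℕ)} {P s t : α → ℕ} (hL : Poly L) (hP : UPoly P)
    (hs : UPoly s) (ht : UPoly t) : Poly (fun a => weights (L a) (P a) (s a) (t a)) := by
  have h1 := basesL_poly hL hP
  have h2 := table_poly hL hP ht
  have h3 := pow2s_poly hs
  have h4 := bigK_poly hL hP hs ht
  unfold weights
  refine Poly.map (F := fun a μ => (μ, bigK (L a) (P a) (s a) (t a) -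
    (2 ^ s a - 1) * (table (L a) (P a) (t a)).getD (valB μ) 0)) h1 ?_
  have h5 : Poly (fun p : α × List Bool => (table (L p.1) (P p.1) (t p.1)).getD (valB p.2) 0) :=
    Poly.getD (h2.comp (Poly.fst Poly.id)) (Poly.valBits (Poly.snd Poly.id)) (Poly.const 0)
  have h6 : Poly (fun p : α × List Bool => bigK (L p.1) (P p.1) (s p.1) (t p.1)) :=
    h4.comp (Poly.fst Poly.id)
  have h7 : Poly (fun p : α × List Bool => 2 ^ s p.1) := h3.comp (Poly.fst Poly.id)
  exact Poly.pair (Poly.snd Poly.id) (Poly.sub h6 (Poly.mul (Poly.sub h7 (Poly.const 1)) h5))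

theorem sel_poly {l : α → List (List Bool × ℕ)} {u : α → ℕ} (hl : Poly l) (hu : Poly u) :
    Poly (fun a => sel (l a) (u a)) := by
  unfold sel
  refine Poly.fst (foldlU (F := fun _ p q => selStep p q) (b := fun a => (l a, u a)) hl
    (Poly.pair (Poly.const none) hu) ?_ (Poly.pair hl hu) 2 ?_)
  · unfold selStep
    fun_prop
  · intro a k _
    have key : ∀ (l : List (List Bool × ℕ)) (p : Option (List Bool) × ℕ),
        (l.foldl selStep p).2 ≤ p.2 ∧
        (sz (l.foldl selStep p).1 ≤ sz p.1 + sz l) := by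
      intro l
      induction l with
      | nil => intro p; exact ⟨le_rfl, by simp⟩
      | cons q l ih =>
        intro p
        rw [List.foldl_cons]
        obtain ⟨h1, h2⟩ := ih (selStep p q)
        have h3 : (selStep p q).2 ≤ p.2 := by
          unfold selStep
          split_ifs <;> simp
        have h4 : sz (selStep p q).1 ≤ sz p.1 + sz q := by
          obtain ⟨q1, q2⟩ := q
          unfold selStep
          have := sz_pos p.1
          have := sz_pos q2
          split_ifs
          · simp only [sz_some, sz_pair]; omega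
          · simp only [sz_none, sz_pair]; omega
          · omega
        refine ⟨h1.trans h3, ?_⟩
        simp only [sz_list_cons]
        omega
    obtain ⟨h1, h2⟩ := key ((l a).take k) (none, u a)
    have h3 := Poly.sz_take_le (l a) k
    generalize ((l a).take k).foldl selStep (none, u a) = p at h1 h2
    obtain ⟨p1, p2⟩ := p
    simp only at h1 h2
    have h4 := sz_nat_mono_le h1
    have h5 := sz_pos (l a)
    simp only [sz_pair, sz_none] at h2 ⊢
    omega

theorem outL_poly {L : α → List (List ℕ)} {μ : α → List Bool} (hL : Poly L) (hμ : Poly μ) :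
    Poly (fun a => outL (L a) (μ a)) := by
  unfold outL
  fun_prop

end

end Pool.Agent.NPC.R997
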