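import Pool.Agent.Run7.h997.Gap

/-!
# The basis exchange walk: contraction and integer counts
-/

namespace Pool.Agent.Run7.h997

open Finset

/-! ### random words cut into blocks -/

theorem sum_splitG {M : Type} [AddCommMonoid M] (N L : ℕ) (h : ℕ → ℕ → M) :
    ∑ R ∈ range (N * L), h (R % N) (R / N) = ∑ a ∈ range N, ∑ b ∈ range L, h a b := by
  rw [sum_comm]
  rcases Nat.eq_zero_or_pos N with rfl | hN
  · simp
  induction L with
  | zero => simp
  | succ L ih =>
    rw [Nat.mul_succ, sum_range_add, ih, sum_range_succ]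
    congr 1
    apply sum_congr rfl
    intro a ha
    rw [mem_range] at ha
    rw [Nat.mul_add_mod, Nat.mod_eq_of_lt ha, Nat.mul_add_div hN, Nat.div_eq_of_lt ha, add_zero]

/-- the end of a walk of `t` steps, the moves being the digits of `ρ` in base `A` -/
def walk {β : Type} (step : ℕ → β → β) (A : ℕ) : ℕ → ℕ → β → β
  | 0, _, S => S
  | t + 1, ρ, S => walk step A t (ρ / A) (step (ρ % A) S)

/-- number of walks from `S` to `T` -/
def cnt {β : Type} [DecidableEq β] (step : ℕ → β → β) (A t : ℕ) (S T : β) : ℕ :=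
  #((range (A ^ t)).filter (fun ρ => walk step A t ρ S = T))

section

variable {β : Type} [DecidableEq β] (step : ℕ → β → β) (A : ℕ)

theorem cnt_zero (S T : β) : cnt step A 0 S T = if S = T then 1 else 0 := by
  unfold cnt
  simp only [pow_zero, range_one, walk]
  by_cases h : S = T
  · simp [h]
  · simp [h]

theorem cnt_succ (t : ℕ) (S T : β) :
    cnt step A (t + 1) S T = ∑ x ∈ range A, cnt step A t (step x S) T := by
  unfold cnt
  simp only [card_filter]
  rw [pow_succ, mul_comm, ← sum_splitG A (A ^ t) (fun x ρ => if walk step A t ρ (step x S) = T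
    then 1 else 0)]
  rfl

/-- total number of walks -/
theorem cnt_total {X : Finset β} (hX : ∀ S ∈ X, ∀ x, step x S ∈ X) (t : ℕ) {S : β} (hS : S ∈ X) :
    ∑ T ∈ X, cnt step A t S T = A ^ t := by
  induction t generalizing S with
  | zero => simp [cnt_zero, hS]
  | succ t ih =>
    simp only [cnt_succ]
    rw [sum_comm, sum_congr rfl (fun x _ => ih (hX S hS x))]
    simp [pow_succ, mul_comm]

/-- Symmetric one-step counts give symmetric counts. -/
theorem cnt_symm {X : Finset β} (hX : ∀ S ∈ X, ∀ x, step x S ∈ X)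
    (h1 : ∀ S ∈ X, ∀ T ∈ X, #((range A).filter (fun x => step x S = T)) =
      #((range A).filter (fun x => step x T = S))) (t : ℕ) :
    ∀ S ∈ X, ∀ T ∈ X, cnt step A t S T = cnt step A t T S := by
  set K : β → β → ℕ := fun S T => #((range A).filter (fun x => step x S = T)) with hK
  have hsum : ∀ S ∈ X, ∀ g : β → ℕ, ∑ x ∈ range A, g (step x S) = ∑ U ∈ X, K S U * g U := by
    intro S hS g
    rw [← sum_fiberwise_of_maps_to (s := range A) (t := X) (g := fun x => step x S)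
      (fun x _ => hX S hS x)]
    refine sum_congr rfl fun U _ => ?_
    rw [hK]
    simp only
    rw [card_eq_sum_ones, sum_mul]
    refine sum_congr rfl fun x hx => ?_
    rw [(mem_filter.1 hx).2, one_mul]
  have hL : ∀ t, ∀ S ∈ X, ∀ T, cnt step A (t + 1) S T = ∑ U ∈ X, K S U * cnt step A t U T := by
    intro t S hS T
    rw [cnt_succ, hsum S hS (fun U => cnt step A t U T)]
  have hR : ∀ t, ∀ S ∈ X, ∀ T ∈ X, cnt step A (t + 1) S T = ∑ U ∈ X, cnt step A t S U * K U T := by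
    intro t
    induction t with
    | zero =>
      intro S hS T hT
      rw [hL 0 S hS T]
      simp only [cnt_zero, mul_ite, mul_one, mul_zero, ite_mul, one_mul, zero_mul]
      rw [sum_ite_eq' X T, sum_ite_eq X S, if_pos hT, if_pos hS]
    | succ t ih =>
      intro S hS T hT
      rw [hL (t + 1) S hS T, sum_congr rfl (fun U hU => by rw [ih U hU T hT])]
      simp only [mul_sum]
      rw [sum_comm]
      refine sum_congr rfl fun U hU => ?_
      rw [hL t S hS U, sum_mul]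
      exact sum_congr rfl fun V _ => by ring
  induction t with
  | zero =>
    intro S _ T _
    rw [cnt_zero, cnt_zero]
    simp only [eq_comm]
  | succ t ih =>
    intro S hS T hT
    rw [hR t S hS T hT, hL t T hT S]
    refine sum_congr rfl fun U hU => ?_
    rw [ih S hS U hU]
    have : K U T = K T U := h1 U hU T hT
    rw [this]; ring

end

/-! ### the walk on the bases -/

section

variable {m : ℕ} {Ind : Finset (Fin m) → Prop} {r : ℕ}

/-- the move with number `x`, when numbers have `2 a` binary digits -/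
noncomputable def stp (Ind : Finset (Fin m) → Prop) (a x : ℕ) (S : Finset (Fin m)) :
    Finset (Fin m) :=
  if h : x % 2 ^ a < m ∧ x / 2 ^ a < m then mv Ind ⟨x % 2 ^ a, h.1⟩ ⟨x / 2 ^ a, h.2⟩ S else S

theorem mv_mem {S : Finset (Fin m)} (hS : S ∈ Bs Ind r) (e f : Fin m) : mv Ind e f S ∈ Bs Ind r := by
  unfold mv
  split_ifs with h
  · rw [mem_Bs] at hS ⊢
    refine ⟨h.2.2, ?_⟩
    rw [card_insert_of_notMem (fun h' => h.2.1 (mem_of_mem_erase h')), card_erase_of_mem h.1, hS.2]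
    have : 0 < #S := card_pos.2 ⟨e, h.1⟩
    omega
  · exact hS

theorem stp_mem {a : ℕ} {S : Finset (Fin m)} (hS : S ∈ Bs Ind r) (x : ℕ) :
    stp Ind a x S ∈ Bs Ind r := by
  unfold stp
  split_ifs
  · exact mv_mem hS _ _
  · exact hS

/-- swapping the roles of the two ends of a move -/
theorem sum_mv_symm {M : Type} [AddCommMonoid M] (G : Finset (Fin m) → Finset (Fin m) → M) :
    ∑ S ∈ Bs Ind r, ∑ e, ∑ f, G S (mv Ind e f S) = ∑ S ∈ Bs Ind r, ∑ e, ∑ f, G (mv Ind e f S) S := by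
  classical
  simp only [← sum_product']
  set Φ : (Finset (Fin m) × Fin m × Fin m) → (Finset (Fin m) × Fin m × Fin m) := fun p =>
    if p.2.1 ∈ p.1 ∧ p.2.2 ∉ p.1 ∧ Ind (insert p.2.2 (p.1.erase p.2.1)) then
      (insert p.2.2 (p.1.erase p.2.1), p.2.2, p.2.1) else p with hΦ
  have hΦΦ : ∀ p ∈ Bs Ind r ×ˢ (univ : Finset (Fin m × Fin m)), Φ (Φ p) = p := by
    rintro ⟨S, e, f⟩ hp
    simp only [mem_product, mem_univ, and_true] at hp
    rw [mem_Bs] at hp
    by_cases h : e ∈ S ∧ f ∉ S ∧ Ind (insert f (S.erase e))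
    · have e1 : Φ (S, e, f) = (insert f (S.erase e), f, e) := by simp only [hΦ, if_pos h]
      rw [e1]
      have hfe : f ∉ S.erase e := fun h' => h.2.1 (mem_of_mem_erase h')
      have hne : e ≠ f := fun h' => h.2.1 (h' ▸ h.1)
      have e2 : (insert f (S.erase e)).erase f = S.erase e := erase_insert hfe
      have e3 : e ∉ insert f (S.erase e) := by
        rw [mem_insert, not_or]; exact ⟨hne, notMem_erase _ _⟩
      have e4 : insert e (S.erase e) = S := insert_erase h.1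
      have h' : f ∈ insert f (S.erase e) ∧ e ∉ insert f (S.erase e) ∧
          Ind (insert e ((insert f (S.erase e)).erase f)) := by
        rw [e2, e4]
        exact ⟨mem_insert_self _ _, e3, hp.1⟩
      simp only [hΦ, if_pos h']
      rw [e2, e4]
    · have e1 : Φ (S, e, f) = (S, e, f) := by simp only [hΦ, if_neg h]
      rw [e1, e1]
  have hmem : ∀ p ∈ Bs Ind r ×ˢ (univ : Finset (Fin m × Fin m)),
      Φ p ∈ Bs Ind r ×ˢ (univ : Finset (Fin m × Fin m)) := by
    rintro ⟨S, e, f⟩ hp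
    simp only [mem_product, mem_univ, and_true] at hp ⊢
    by_cases h : e ∈ S ∧ f ∉ S ∧ Ind (insert f (S.erase e))
    · have e1 : Φ (S, e, f) = (insert f (S.erase e), f, e) := by simp only [hΦ, if_pos h]
      rw [e1]
      have := mv_mem hp e f
      unfold mv at this
      rw [if_pos h] at this
      exact this
    · have e1 : Φ (S, e, f) = (S, e, f) := by simp only [hΦ, if_neg h]
      rw [e1]; exact hp
  refine sum_bij' (fun p _ => Φ p) (fun p _ => Φ p) hmem hmem hΦΦ hΦΦ ?_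
  rintro ⟨S, e, f⟩ hp
  simp only [mem_product, mem_univ, and_true] at hp
  have h0 := hΦΦ (S, e, f) (by simp [hp])
  by_cases h : e ∈ S ∧ f ∉ S ∧ Ind (insert f (S.erase e))
  · have e1 : Φ (S, e, f) = (insert f (S.erase e), f, e) := by simp only [hΦ, if_pos h]
    rw [e1] at h0 ⊢
    simp only
    have hm1 : mv Ind e f S = insert f (S.erase e) := by unfold mv; rw [if_pos h]
    rw [hm1]
    congr 1
    rw [mem_Bs] at hp
    have hfe : f ∉ S.erase e := fun h' => h.2.1 (mem_of_mem_erase h')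
    have hne : e ≠ f := fun h' => h.2.1 (h' ▸ h.1)
    have e2 : (insert f (S.erase e)).erase f = S.erase e := erase_insert hfe
    have e3 : e ∉ insert f (S.erase e) := by
      rw [mem_insert, not_or]; exact ⟨hne, notMem_erase _ _⟩
    have e4 : insert e (S.erase e) = S := insert_erase h.1
    unfold mv
    rw [if_pos (by rw [e2, e4]; exact ⟨mem_insert_self _ _, e3, hp.1⟩), e2, e4]
  · have e1 : Φ (S, e, f) = (S, e, f) := by simp only [hΦ, if_neg h]
    have hm1 : mv Ind e f S = S := by unfold mv; rw [if_neg h]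
    rw [e1]
    simp only
    rw [hm1]

/-- sums over the move numbers -/
theorem sum_stp {a : ℕ} (hm : m ≤ 2 ^ a) (S : Finset (Fin m)) (h : Finset (Fin m) → ℝ)
    (h0 : h S = 0) :
    ∑ x ∈ range (4 ^ a), h (stp Ind a x S) = ∑ e, ∑ f, h (mv Ind e f S) := by
  have e4 : 4 ^ a = 2 ^ a * 2 ^ a := by rw [← mul_pow]; norm_num
  set g : ℕ → ℕ → ℝ := fun u v => if hh : u < m ∧ v < m then h (mv Ind ⟨u, hh.1⟩ ⟨v, hh.2⟩ S) else 0
    with hg
  have e1 : ∀ x, h (stp Ind a x S) = g (x % 2 ^ a) (x / 2 ^ a) := by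
    intro x
    simp only [hg, stp]
    split_ifs with hh
    · rfl
    · exact h0
  simp only [e1]
  rw [e4, sum_splitG (2 ^ a) (2 ^ a) g]
  have e2 : ∀ F : ℕ → ℝ, (∀ u, m ≤ u → F u = 0) → ∑ u ∈ range (2 ^ a), F u = ∑ u : Fin m, F u := by
    intro F hF
    rw [Fin.sum_univ_eq_sum_range (fun u => F u) m]
    symm
    apply sum_subset
    · intro x hx
      rw [mem_range] at hx ⊢
      omega
    · intro x _ hx
      rw [mem_range, not_lt] at hx
      exact hF x hx
  rw [e2 (fun u => ∑ v ∈ range (2 ^ a), g u v)]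
  · refine sum_congr rfl fun u _ => ?_
    rw [e2 (fun v => g u v)]
    · refine sum_congr rfl fun v _ => ?_
      simp [hg]
    · intro v hv
      simp only [hg]
      rw [dif_neg (by omega)]
  · intro u hu
    refine sum_eq_zero fun v _ => ?_
    simp only [hg]
    rw [dif_neg (by omega)]

/-- one-step counts are symmetric -/
theorem stp_symm {a : ℕ} (hm : m ≤ 2 ^ a) : ∀ S ∈ Bs Ind r, ∀ T ∈ Bs Ind r,
    #((range (4 ^ a)).filter (fun x => stp Ind a x S = T)) =
      #((range (4 ^ a)).filter (fun x => stp Ind a x T = S)) := by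
  classical
  intro S hS T hT
  by_cases hST : S = T
  · rw [hST]
  have h1 : ∀ S T : Finset (Fin m), S ≠ T →
      ((#((range (4 ^ a)).filter (fun x => stp Ind a x S = T)) : ℕ) : ℝ) =
        ∑ e, ∑ f, if mv Ind e f S = T then 1 else 0 := by
    intro S T hST
    rw [← sum_stp hm S (fun U => if U = T then (1:ℝ) else 0) (if_neg hST)]
    rw [sum_boole]
  have h2 := sum_mv_symm (Ind := Ind) (r := r) (fun U V => if U = S ∧ V = T then (1:ℝ) else 0)
  have h3 : ∑ U ∈ Bs Ind r, ∑ e, ∑ f, (if U = S ∧ mv Ind e f U = T then (1:ℝ) else 0) =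
      ∑ e, ∑ f, if mv Ind e f S = T then 1 else 0 := by
    rw [sum_eq_single S]
    · simp
    · intro U _ hU
      simp [hU]
    · intro h; exact absurd hS h
  have h4 : ∑ U ∈ Bs Ind r, ∑ e, ∑ f, (if mv Ind e f U = S ∧ U = T then (1:ℝ) else 0) =
      ∑ e, ∑ f, if mv Ind e f T = S then 1 else 0 := by
    rw [sum_eq_single T]
    · simp
    · intro U _ hU
      simp [hU]
    · intro h; exact absurd hT h
  rw [h3, h4, ← h1 S T hST, ← h1 T S (Ne.symm hST)] at h2
  exact_mod_cast h2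

/-- one step of the walk contracts the functions of mean zero -/
theorem Mtd.contract (hM : Mtd Ind r) {a : ℕ} (hm : 2 * m ^ 2 ≤ 4 ^ a) (hm' : m ≤ 2 ^ a)
    (f : Finset (Fin m) → ℝ) (hf : ∑ B ∈ Bs Ind r, f B = 0) :
    ∑ S ∈ Bs Ind r, ((∑ x ∈ range (4 ^ a), f (stp Ind a x S)) / 4 ^ a) ^ 2 ≤
      (1 - 1 / 4 ^ a) * ∑ S ∈ Bs Ind r, f S ^ 2 := by
  classical
  set g : Finset (Fin m) → ℝ := fun S => ∑ e, ∑ e', (f S - f (mv Ind e e' S)) with hg
  set E := ∑ S ∈ Bs Ind r, ∑ e, ∑ e', (f S - f (mv Ind e e' S)) ^ 2 with hE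
  set A : ℝ := 4 ^ a with hA
  have hApos : 0 < A := by positivity
  have h1 : ∀ S, (∑ x ∈ range (4 ^ a), f (stp Ind a x S)) / A = f S - g S / A := by
    intro S
    have h2 := sum_stp (Ind := Ind) hm' S (fun U => f S - f U) (sub_self _)
    rw [sum_sub_distrib, sum_const, card_range, nsmul_eq_mul] at h2
    push_cast at h2
    have h3 : ∑ x ∈ range (4 ^ a), f (stp Ind a x S) = A * f S - g S := by linarith
    rw [h3]
    field_simp
  simp only [h1]
  have hsq : ∀ S, (f S - g S / A) ^ 2 = f S ^ 2 - 2 / A * (f S * g S) + 1 / A ^ 2 * g S ^ 2 := by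
    intro S; field_simp; ring
  simp only [hsq, sum_add_distrib, sum_sub_distrib, ← mul_sum]
  have hgap := hM.gap f hf
  rw [← hE] at hgap
  have hfg : 2 * ∑ S ∈ Bs Ind r, f S * g S = E := by
    have h4 : ∑ S ∈ Bs Ind r, f S * g S =
        ∑ S ∈ Bs Ind r, ∑ e, ∑ e', f S * (f S - f (mv Ind e e' S)) := by
      simp only [hg, mul_sum]
    have h5 := sum_mv_symm (Ind := Ind) (r := r) (fun U V => f U * (f U - f V))
    have h6 : E = ∑ S ∈ Bs Ind r, ∑ e, ∑ e', f S * (f S - f (mv Ind e e' S)) +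
        ∑ S ∈ Bs Ind r, ∑ e, ∑ e', f (mv Ind e e' S) * (f (mv Ind e e' S) - f S) := by
      rw [hE]
      simp only [← sum_add_distrib]
      exact sum_congr rfl fun S _ => sum_congr rfl fun e _ => sum_congr rfl fun e' _ => by ring
    rw [h6, ← h5, h4]; ring
  have hg2 : ∑ S ∈ Bs Ind r, g S ^ 2 ≤ m ^ 2 * E := by
    rw [hE, mul_sum]
    refine sum_le_sum fun S _ => ?_
    simp only [hg]
    have h7 : ∀ F : Fin m → Fin m → ℝ, (∑ e, ∑ e', F e e') ^ 2 ≤ m ^ 2 * ∑ e, ∑ e', F e e' ^ 2 := by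
      intro F
      have h8 := sq_sum_le_card_mul_sum_sq (s := (univ : Finset (Fin m × Fin m)))
        (f := fun p => F p.1 p.2)
      rw [← sum_product' univ univ F, ← sum_product' univ univ (fun e e' => F e e' ^ 2)]
      simp only [univ_product_univ]
      refine h8.trans (le_of_eq ?_)
      simp [sq]
    exact h7 _
  have hm2 : 2 * (m:ℝ) ^ 2 ≤ A := by rw [hA]; exact_mod_cast hm
  have hE0 : 0 ≤ E := by
    rw [hE]
    exact sum_nonneg fun _ _ => sum_nonneg fun _ _ => sum_nonneg fun _ _ => sq_nonneg _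
  have h9 : 1 / A ^ 2 * ∑ S ∈ Bs Ind r, g S ^ 2 ≤ 1 / A ^ 2 * (A / 2 * E) := by
    apply mul_le_mul_of_nonneg_left _ (by positivity)
    refine hg2.trans (mul_le_mul_of_nonneg_right ?_ hE0)
    linarith
  have h10 : 1 / A ^ 2 * (A / 2 * E) = E / (2 * A) := by field_simp
  have h11 : 2 / A * ∑ S ∈ Bs Ind r, f S * g S = E / A := by
    rw [← hfg]; ring
  rw [h10] at h9
  rw [h11]
  have h12 : (1 - 1 / A) * ∑ S ∈ Bs Ind r, f S ^ 2 =
      ∑ S ∈ Bs Ind r, f S ^ 2 - (∑ S ∈ Bs Ind r, f S ^ 2) / A := by ring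
  rw [h12]
  have h13 : (∑ S ∈ Bs Ind r, f S ^ 2) / A ≤ E / (2 * A) := by
    rw [div_le_div_iff₀ hApos (by positivity)]
    nlinarith
  have h14 : E / A = E / (2 * A) + E / (2 * A) := by field_simp; ring
  linarith

/-- the deviation of the counts from uniform -/
noncomputable def dev (Ind : Finset (Fin m) → Prop) (r a t : ℕ) (S₀ S : Finset (Fin m)) : ℝ :=
  (cnt (stp Ind a) (4 ^ a) t S S₀ : ℝ) / (4 ^ a) ^ t - 1 / #(Bs Ind r)

theorem Mtd.dev_sum {a : ℕ} (hm : m ≤ 2 ^ a) {S₀ : Finset (Fin m)} (hS₀ : S₀ ∈ Bs Ind r) (t : ℕ) :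
    ∑ S ∈ Bs Ind r, dev Ind r a t S₀ S = 0 := by
  have h1 : ∑ S ∈ Bs Ind r, cnt (stp Ind a) (4 ^ a) t S S₀ = (4 ^ a) ^ t := by
    rw [← cnt_total (stp Ind a) (4 ^ a) (X := Bs Ind r) (fun S hS x => stp_mem hS x) t hS₀]
    refine sum_congr rfl fun S hS => ?_
    exact cnt_symm (stp Ind a) (4 ^ a) (fun S hS x => stp_mem hS x) (stp_symm hm) t S hS S₀ hS₀
  have hpos : 0 < #(Bs Ind r) := card_pos.2 ⟨S₀, hS₀⟩
  have hpos' : (0:ℝ) < #(Bs Ind r) := by exact_mod_cast hpos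
  unfold dev
  rw [sum_sub_distrib, ← sum_div, sum_const, nsmul_eq_mul, ← Nat.cast_sum, h1]
  push_cast
  field_simp
  ring

theorem Mtd.dev_sq (hM : Mtd Ind r) {a : ℕ} (hm : 2 * m ^ 2 ≤ 4 ^ a) (hm' : m ≤ 2 ^ a)
    {S₀ : Finset (Fin m)} (hS₀ : S₀ ∈ Bs Ind r) (t : ℕ) :
    ∑ S ∈ Bs Ind r, dev Ind r a t S₀ S ^ 2 ≤ (1 - 1 / 4 ^ a) ^ t := by
  have hA1 : (1:ℝ) ≤ 4 ^ a := one_le_pow₀ (by norm_num)
  induction t with
  | zero =>
    have hpos : 0 < #(Bs Ind r) := card_pos.2 ⟨S₀, hS₀⟩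
    have hpos' : (0:ℝ) < #(Bs Ind r) := by exact_mod_cast hpos
    have h1 : ∀ S, dev Ind r a 0 S₀ S ^ 2 = (if S = S₀ then (1 - 2 / (#(Bs Ind r) : ℝ)) else 0) +
        1 / (#(Bs Ind r) : ℝ) ^ 2 := by
      intro S
      unfold dev
      rw [cnt_zero]
      split_ifs with h <;> push_cast <;> field_simp <;> ring
    simp only [h1, sum_add_distrib, sum_const, nsmul_eq_mul]
    rw [sum_ite_eq' (Bs Ind r) S₀, if_pos hS₀, pow_zero]
    have h2 : (#(Bs Ind r) : ℝ) * (1 / (#(Bs Ind r) : ℝ) ^ 2) = 1 / (#(Bs Ind r) : ℝ) := by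
      field_simp
    rw [h2]
    have : (0:ℝ) < 1 / #(Bs Ind r) := by positivity
    have h3 : 2 / (#(Bs Ind r) : ℝ) = 2 * (1 / #(Bs Ind r)) := by ring
    rw [h3]
    linarith
  | succ t ih =>
    have h1 := hM.contract hm hm' (dev Ind r a t S₀) (Mtd.dev_sum hm' hS₀ t)
    have h2 : ∀ S, dev Ind r a (t + 1) S₀ S =
        (∑ x ∈ range (4 ^ a), dev Ind r a t S₀ (stp Ind a x S)) / 4 ^ a := by
      intro S
      unfold dev
      rw [sum_sub_distrib, ← sum_div, sum_const, card_range, nsmul_eq_mul, cnt_succ]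
      push_cast
      have : (4:ℝ) ^ a ≠ 0 := by positivity
      field_simp
      ring
    simp only [h2]
    refine h1.trans ?_
    rw [pow_succ, mul_comm ((1 - 1 / (4:ℝ) ^ a) ^ t)]
    apply mul_le_mul_of_nonneg_left ih
    have : 1 / (4:ℝ) ^ a ≤ 1 := by rw [div_le_one (by positivity)]; exact hA1
    linarith

theorem half_pow (A w : ℕ) (hA : 1 ≤ A) : (1 - 1 / (A:ℝ)) ^ (A * w) ≤ (1 / 2) ^ w := by
  rw [pow_mul]
  have hA' : (1:ℝ) ≤ A := by exact_mod_cast hA
  have h0 : 0 ≤ 1 - 1 / (A:ℝ) := by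
    have : 1 / (A:ℝ) ≤ 1 := by rw [div_le_one (by linarith)]; exact hA'
    linarith
  apply pow_le_pow_left₀ (pow_nonneg h0 _)
  have h1 := Real.one_sub_div_pow_le_exp_neg (n := A) (t := 1) hA'
  refine h1.trans ?_
  have h2 : (2:ℝ) ≤ Real.exp 1 := by
    have := Real.add_one_le_exp (1:ℝ); linarith
  rw [Real.exp_neg, ← one_div]
  exact one_div_le_one_div_of_le (by norm_num) h2

/-- **The counts are almost uniform.** -/
theorem Mtd.cnt_bound (hM : Mtd Ind r) {a s t : ℕ} (hm : 2 * m ^ 2 ≤ 4 ^ a) (hm' : m ≤ 2 ^ a)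
    (ht : t = 4 ^ a * (2 * (s + 1) + 2 * m)) {S₀ : Finset (Fin m)} (hS₀ : S₀ ∈ Bs Ind r)
    {S : Finset (Fin m)} (hS : S ∈ Bs Ind r) :
    #(Bs Ind r) * ((2 ^ s - 1) * cnt (stp Ind a) (4 ^ a) t S S₀) ≤ 2 ^ s * (4 ^ a) ^ t := by
  have h1 := hM.dev_sq hm hm' hS₀ t
  have h2 : dev Ind r a t S₀ S ^ 2 ≤ (1 / 2) ^ (2 * (s + 1) + 2 * m) := by
    have h3 : dev Ind r a t S₀ S ^ 2 ≤ ∑ S ∈ Bs Ind r, dev Ind r a t S₀ S ^ 2 :=
      single_le_sum (f := fun S => dev Ind r a t S₀ S ^ 2) (fun _ _ => sq_nonneg _) hS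
    refine (h3.trans h1).trans ?_
    have := half_pow (4 ^ a) (2 * (s + 1) + 2 * m) (Nat.one_le_pow _ _ (by norm_num))
    rw [ht]
    push_cast at this
    exact this
  have h3 : dev Ind r a t S₀ S ≤ (1 / 2) ^ ((s + 1) + m) := by
    apply le_of_sq_le_sq _ (by positivity)
    rw [← pow_mul]
    refine h2.trans (le_of_eq ?_)
    congr 1; ring
  have hpos : 0 < #(Bs Ind r) := card_pos.2 ⟨S₀, hS₀⟩
  have hpos' : (0:ℝ) < #(Bs Ind r) := by exact_mod_cast hpos
  have hN : (#(Bs Ind r) : ℝ) ≤ 2 ^ m := by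
    have : #(Bs Ind r) ≤ 2 ^ m := by
      refine (card_le_univ _).trans (le_of_eq ?_)
      simp
    exact_mod_cast this
  unfold dev at h3
  set c := cnt (stp Ind a) (4 ^ a) t S S₀ with hc
  set N := #(Bs Ind r) with hNd
  set D : ℝ := (4 ^ a) ^ t with hD
  have hDpos : 0 < D := by positivity
  have h4 : (N:ℝ) * c ≤ D * (1 + (1 / 2) ^ (s + 1)) := by
    have h5 : (c:ℝ) / D ≤ 1 / N + (1 / 2) ^ (s + 1 + m) := by linarith
    rw [div_le_iff₀ hDpos] at h5
    have h6 : (N:ℝ) * (1 / 2) ^ (s + 1 + m) ≤ (1 / 2) ^ (s + 1) := by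
      rw [pow_add _ (s + 1) m]
      have h7 : (N:ℝ) * (1 / 2) ^ m ≤ 1 := by
        rw [one_div, inv_pow, mul_inv_le_iff₀ (by positivity), one_mul]; exact hN
      have h8 : (0:ℝ) ≤ (1 / 2) ^ (s + 1) := by positivity
      calc (N:ℝ) * ((1 / 2) ^ (s + 1) * (1 / 2) ^ m) = (1 / 2) ^ (s + 1) * (N * (1 / 2) ^ m) := by ring
        _ ≤ (1 / 2) ^ (s + 1) * 1 := mul_le_mul_of_nonneg_left h7 h8
        _ = _ := mul_one _
    calc (N:ℝ) * c ≤ N * ((1 / N + (1 / 2) ^ (s + 1 + m)) * D) :=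
          mul_le_mul_of_nonneg_left h5 hpos'.le
      _ = D * (1 + N * (1 / 2) ^ (s + 1 + m)) := by field_simp
      _ ≤ D * (1 + (1 / 2) ^ (s + 1)) := by
          apply mul_le_mul_of_nonneg_left _ hDpos.le
          linarith
  have h5 : ((2:ℝ) ^ s - 1) * (1 + (1 / 2) ^ (s + 1)) ≤ 2 ^ s := by
    have e1 : (2:ℝ) ^ s * (1 / 2) ^ (s + 1) = 1 / 2 := by
      rw [pow_succ, ← mul_assoc, ← mul_pow]; norm_num
    have e2 : (0:ℝ) ≤ (1 / 2) ^ (s + 1) := by positivity
    nlinarith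
  have h6 : (0:ℝ) ≤ 2 ^ s - 1 := by
    have : (1:ℝ) ≤ 2 ^ s := one_le_pow₀ (by norm_num)
    linarith
  have h7 : (N:ℝ) * ((2 ^ s - 1) * c) ≤ 2 ^ s * D := by
    calc (N:ℝ) * ((2 ^ s - 1) * c) = (2 ^ s - 1) * (N * c) := by ring
      _ ≤ (2 ^ s - 1) * (D * (1 + (1 / 2) ^ (s + 1))) := mul_le_mul_of_nonneg_left h4 h6
      _ = D * ((2 ^ s - 1) * (1 + (1 / 2) ^ (s + 1))) := by ring
      _ ≤ D * 2 ^ s := mul_le_mul_of_nonneg_left h5 hDpos.le
      _ = _ := by ring
  have h8 : ((2 ^ s - 1 : ℕ) : ℝ) = 2 ^ s - 1 := by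
    rw [Nat.cast_sub Nat.one_le_two_pow]; push_cast; rfl
  have h9 : ((N * ((2 ^ s - 1) * c) : ℕ) : ℝ) ≤ ((2 ^ s * (4 ^ a) ^ t : ℕ) : ℝ) := by
    push_cast [h8]
    exact h7
  exact_mod_cast h9

end

end Pool.Agent.Run7.h997
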