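import Pool.Agent.Run7.h997.Alg

/-!
# Counting the outcomes of one trial
-/

namespace Pool.Agent.Run7.h997

open Finset Pool.Agent.NPC Pool.Agent.H670R2

/-! ### masks and sets -/

section Masks

variable {m : ℕ}

/-- the mask of a set -/
def toM (S : Finset (Fin m)) : List Bool := List.ofFn (fun i => decide (i ∈ S))

theorem length_toM (S : Finset (Fin m)) : (toM S).length = m := by simp [toM]

theorem getElem_toM (S : Finset (Fin m)) (i : ℕ) (hi : i < (toM S).length) :
    (toM S)[i] = decide ((⟨i, by rwa [length_toM] at hi⟩ : Fin m) ∈ S) := by simp [toM]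

theorem toM_inj {S T : Finset (Fin m)} (h : toM S = toM T) : S = T := by
  ext i
  have h1 := congrFun (List.ofFn_injective h) i
  simpa using h1

theorem toM_surj {μ : List Bool} (h : μ.length = m) : ∃ S : Finset (Fin m), toM S = μ := by
  subst h
  refine ⟨univ.filter (fun i => μ[i] = true), ?_⟩
  refine List.ext_getElem (by simp [toM]) fun i h1 h2 => ?_
  rw [getElem_toM]
  simp

theorem getD_toM_lt (S : Finset (Fin m)) (b : Bool) (e : Fin m) :
    (toM S).getD e b = decide (e ∈ S) := by
  rw [List.getD_eq_getElem _ _ (by rw [length_toM]; exact e.2), getElem_toM]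

theorem getD_toM_ge (S : Finset (Fin m)) (b : Bool) (e : ℕ) (he : m ≤ e) :
    (toM S).getD e b = b := by
  rw [List.getD_eq_getElem?_getD, List.getElem?_eq_none (by rw [length_toM]; exact he)]
  rfl

theorem setB_toM (S : Finset (Fin m)) (e f : Fin m) (hef : e ≠ f) :
    setB (toM S) e f = toM (insert f (S.erase e)) := by
  refine List.ext_getElem (by simp [setB, length_toM]) fun i h1 h2 => ?_
  have hi : i < m := by rwa [length_toM] at h2
  rw [getElem_toM]
  unfold setB
  simp only [List.getElem_map, List.getElem_zipIdx, getElem_toM, zero_add]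
  by_cases hie : i = e
  · have : (⟨i, hi⟩ : Fin m) = e := Fin.ext hie
    rw [if_pos hie, this]
    simp [hef]
  · have hne : (⟨i, hi⟩ : Fin m) ≠ e := fun h => hie (congrArg Fin.val h)
    rw [if_neg hie]
    by_cases hif : i = f
    · have : (⟨i, hi⟩ : Fin m) = f := Fin.ext hif
      rw [if_pos hif, this]
      simp
    · have hnf : (⟨i, hi⟩ : Fin m) ≠ f := fun h => hif (congrArg Fin.val h)
      rw [if_neg hif]
      simp [hne, hnf]

theorem add1_toM (S : Finset (Fin m)) (e : Fin m) : add1 (toM S) e = toM (insert e S) := by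
  refine List.ext_getElem (by simp [add1, length_toM]) fun i h1 h2 => ?_
  have hi : i < m := by rwa [length_toM] at h2
  rw [getElem_toM]
  unfold add1
  simp only [List.getElem_map, List.getElem_zipIdx, getElem_toM, zero_add]
  by_cases hie : i = e
  · have : (⟨i, hi⟩ : Fin m) = e := Fin.ext hie
    rw [if_pos hie, this]
    simp
  · have hne : (⟨i, hi⟩ : Fin m) ≠ e := fun h => hie (congrArg Fin.val h)
    rw [if_neg hie]
    simp [hne]

theorem toM_empty : toM (∅ : Finset (Fin m)) = List.replicate m false := by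
  refine List.ext_getElem (by simp [toM]) fun i h1 h2 => ?_
  rw [getElem_toM]
  simp

theorem wt_toM (S : Finset (Fin m)) : wt (toM S) = #S := by
  unfold wt toM
  induction m with
  | zero =>
    have : S = ∅ := Subsingleton.elim _ _
    simp [this]
  | succ m ih =>
    rw [List.ofFn_succ, List.filter_cons]
    have h1 := ih (univ.filter (fun i => i.succ ∈ S))
    have h2 : (List.ofFn fun i : Fin m => decide (i ∈ univ.filter (fun i => i.succ ∈ S))) =
        List.ofFn fun i : Fin m => decide (i.succ ∈ S) := by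
      congr 1; ext i; simp
    rw [h2] at h1
    have h3 : #S = (if (0 : Fin (m + 1)) ∈ S then 1 else 0) + #(univ.filter (fun i : Fin m => i.succ ∈ S)) := by
      have h4 : S = univ.filter (fun i => i ∈ S) := by simp
      conv_lhs => rw [h4]
      rw [Fin.card_filter_univ_succ]
      split_ifs <;> simp [add_comm]
    rw [h3, ← h1]
    by_cases h : (0 : Fin (m + 1)) ∈ S
    · simp [h, add_comm]
    · simp [h]

end Masks

/-! ### the masks by numbers -/

theorem zip_range_fst (l : List Bool) (m : ℕ) :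
    (l.zip (List.range m)).map Prod.fst = l.take m := by
  refine List.ext_getElem (by simp [min_comm]) fun i h1 h2 => ?_
  simp

theorem mk_eq (m j : ℕ) : mk m j = (j.bits ++ List.replicate m false).take m :=
  zip_range_fst _ _

theorem length_mk (m j : ℕ) : (mk m j).length = m := by
  rw [mk_eq]; simp

theorem valB_falses (n : ℕ) : valB (List.replicate n false) = 0 := by
  induction n with
  | zero => rfl
  | succ n ih => rw [List.replicate_succ, valB_cons, ih]; simp

theorem valB_mk {m j : ℕ} (h : j < 2 ^ m) : valB (mk m j) = j := by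
  have h1 : j.bits.length ≤ m := by
    rw [Nat.size_eq_bits_len]; exact Nat.size_le.2 h
  rw [mk_eq, List.take_append, List.take_of_length_le h1, List.take_replicate, valB_append,
    valB_falses, valB_bits]
  ring

theorem valB_inj : ∀ {l l' : List Bool}, l.length = l'.length → valB l = valB l' → l = l'
  | [], [], _, _ => rfl
  | [], _ :: _, h, _ => by simp at h
  | _ :: _, [], h, _ => by simp at h
  | a :: l, b :: l', h, hv => by
    rw [valB_cons, valB_cons] at hv
    have hl : l.length = l'.length := by simpa using h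
    cases a <;> cases b <;> simp only [Bool.false_eq_true, if_false, if_true] at hv
    · rw [valB_inj hl (by omega)]
    · omega
    · omega
    · rw [valB_inj hl (by omega)]

theorem mk_valB {μ : List Bool} {m : ℕ} (h : μ.length = m) : mk m (valB μ) = μ := by
  apply valB_inj
  · rw [length_mk, h]
  · rw [valB_mk]
    rw [← h]; exact valB_lt μ

theorem filter_range (P M : ℕ) (h : M ≤ P) :
    (List.range P).filter (fun j => decide (j < M)) = List.range M := by
  obtain ⟨d, rfl⟩ := Nat.exists_eq_add_of_le h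
  rw [List.range_add, List.filter_append]
  have h1 : (List.range M).filter (fun k => decide (k < M)) = List.range M := by
    rw [List.filter_eq_self]
    intro k hk
    simpa using hk
  have h2 : ((List.range d).map (fun x => M + x)).filter (fun k => decide (k < M)) = [] := by
    rw [List.filter_eq_nil_iff]
    intro k hk
    simp at hk ⊢
    omega
  rw [h1, h2, List.append_nil]

theorem masks_eq (L : List (List ℕ)) {P : ℕ} (hP : 2 ^ (cols L).length ≤ P) :
    masks L P = (List.range (2 ^ (cols L).length)).map (mk (cols L).length) := by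
  unfold masks
  rw [filter_range _ _ hP]

theorem getD_masks_map (L : List (List ℕ)) {P : ℕ} (hP : 2 ^ (cols L).length ≤ P)
    (F : List Bool → ℕ) {μ : List Bool} (hμ : μ.length = (cols L).length) :
    ((masks L P).map F).getD (valB μ) 0 = F μ := by
  have h1 : valB μ < 2 ^ (cols L).length := by rw [← hμ]; exact valB_lt μ
  rw [masks_eq L hP, List.getD_eq_getElem _ _ (by simpa using h1)]
  simp only [List.getElem_map, List.getElem_range]
  rw [mk_valB hμ]

theorem mem_masks (L : List (List ℕ)) {P : ℕ} (hP : 2 ^ (cols L).length ≤ P) {μ : List Bool} :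
    μ ∈ masks L P ↔ μ.length = (cols L).length := by
  rw [masks_eq L hP, List.mem_map]
  constructor
  · rintro ⟨j, _, rfl⟩
    exact length_mk _ _
  · intro h
    refine ⟨valB μ, ?_, mk_valB h⟩
    rw [List.mem_range, ← h]
    exact valB_lt μ

theorem masks_nodup (L : List (List ℕ)) {P : ℕ} (hP : 2 ^ (cols L).length ≤ P) :
    (masks L P).Nodup := by
  rw [masks_eq L hP]
  refine (List.nodup_range).map_on ?_
  intro i hi j hj h
  rw [List.mem_range] at hi hj
  rw [← valB_mk hi, ← valB_mk hj, h]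

/-! ### the walk -/

/-- the sets given by the masks that pass the test -/
def IndL (L : List (List ℕ)) (S : Finset (Fin (cols L).length)) : Prop := okM L (toM S) = true

section Walk

variable {L : List (List ℕ)} {r : ℕ}

theorem mvB_toM (S : Finset (Fin (cols L).length)) (e f : Fin (cols L).length) :
    mvB L (toM S) e f = toM (mv (IndL L) e f S) := by
  classical
  unfold mvB mv
  rw [getD_toM_lt, getD_toM_lt]
  by_cases h : e ∈ S ∧ f ∉ S
  · have hef : e ≠ f := fun h' => h.2 (h' ▸ h.1)
    rw [setB_toM S e f hef]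
    by_cases h2 : IndL L (insert f (S.erase e))
    · rw [if_pos ⟨by simpa using h.1, by simpa using h.2, h2⟩, if_pos ⟨h.1, h.2, h2⟩]
    · rw [if_neg (fun h' => h2 h'.2.2), if_neg (fun h' => h2 h'.2.2)]
  · have h3 : ¬ (e ∈ S ∧ f ∉ S ∧ IndL L (insert f (S.erase e))) := fun h' => h ⟨h'.1, h'.2.1⟩
    rw [if_neg h3, if_neg]
    rintro ⟨h1, h2, _⟩
    exact h ⟨by simpa using h1, by simpa using h2⟩

theorem mvB_toM_ge (S : Finset (Fin (cols L).length)) (e f : ℕ)
    (h : ¬ (e < (cols L).length ∧ f < (cols L).length)) : mvB L (toM S) e f = toM S := by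
  unfold mvB
  rw [if_neg]
  rintro ⟨h1, h2, _⟩
  apply h
  constructor
  · by_contra hc
    rw [getD_toM_ge S _ e (by omega)] at h1
    simp at h1
  · by_contra hc
    rw [getD_toM_ge S _ f (by omega)] at h2
    simp at h2

theorem stepB_toM (x : ℕ) (S : Finset (Fin (cols L).length)) :
    stepB L x (toM S) = toM (stp (IndL L) (aOf L) x S) := by
  unfold stepB stp
  split_ifs with h
  · exact mvB_toM S ⟨_, h.1⟩ ⟨_, h.2⟩
  · exact mvB_toM_ge S _ _ h

theorem walkB_toM (t ρ : ℕ) (S : Finset (Fin (cols L).length)) :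
    walkB L t ρ (toM S) = toM (walk (stp (IndL L) (aOf L)) (4 ^ aOf L) t ρ S) := by
  unfold walkB
  induction t generalizing ρ S with
  | zero => rfl
  | succ t ih =>
    rw [Function.iterate_succ_apply]
    have : wstep L (ρ, toM S) = (ρ / 4 ^ aOf L, toM (stp (IndL L) (aOf L) (ρ % 4 ^ aOf L) S)) := by
      unfold wstep
      rw [stepB_toM]
    rw [this, ih]
    rfl

theorem foldl_gstep (hM : Mtd (IndL L) r) : ∀ (l : List ℕ) (_ : ∀ i ∈ l, i < (cols L).length)
    (S : Finset (Fin (cols L).length)), IndL L S → ∃ R : Finset (Fin (cols L).length),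
      l.foldl (gstep L) (toM S) = toM R ∧ S ⊆ R ∧ IndL L R ∧
      ∀ i : Fin (cols L).length, (i : ℕ) ∈ l → i ∈ R ∨ ¬ IndL L (insert i R) := by
  intro l
  induction l with
  | nil => intro _ S hS; exact ⟨S, rfl, Subset.rfl, hS, by simp⟩
  | cons i l ih =>
    intro hl S hS
    have hi : i < (cols L).length := hl i List.mem_cons_self
    obtain ⟨S1, h1, h2, h3, h4⟩ : ∃ S1 : Finset (Fin (cols L).length), gstep L (toM S) i = toM S1 ∧
        S ⊆ S1 ∧ IndL L S1 ∧ ((⟨i, hi⟩ : Fin (cols L).length) ∈ S1 ∨ ¬ IndL L (insert ⟨i, hi⟩ S)) := by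
      unfold gstep
      have e := add1_toM S ⟨i, hi⟩
      simp only at e
      rw [e]
      by_cases h : okM L (toM (insert ⟨i, hi⟩ S)) = true
      · rw [if_pos h]
        exact ⟨_, rfl, subset_insert _ _, h, Or.inl (mem_insert_self _ _)⟩
      · rw [if_neg h]
        exact ⟨S, rfl, Subset.rfl, hS, Or.inr h⟩
    obtain ⟨R, h5, h6, h7, h8⟩ := ih (fun j hj => hl j (List.mem_cons_of_mem _ hj)) S1 h3
    refine ⟨R, by rw [List.foldl_cons, h1, h5], h2.trans h6, h7, ?_⟩
    intro j hj
    rcases List.mem_cons.1 hj with h | h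
    · have hji : j = ⟨i, hi⟩ := Fin.ext h
      subst hji
      rcases h4 with h | h
      · exact Or.inl (h6 h)
      · right
        intro h'
        exact h (hM.hered _ _ h' (insert_subset_insert _ (h2.trans h6)))
    · exact h8 j h

/-- the greedy algorithm finds a basis -/
theorem greedy_eq (hM : Mtd (IndL L) r) : ∃ S₀ ∈ Bs (IndL L) r, greedy L = toM S₀ := by
  obtain ⟨B, hB, hBr⟩ := hM.base
  have h0 : IndL L ∅ := hM.hered _ _ hB (empty_subset _)
  obtain ⟨R, h1, _, h3, h4⟩ := foldl_gstep hM (List.range (cols L).length)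
    (fun i hi => List.mem_range.1 hi) ∅ h0
  rw [toM_empty] at h1
  refine ⟨R, mem_Bs.2 ⟨h3, ?_⟩, h1⟩
  refine le_antisymm (hM.le R h3) ?_
  by_contra hc
  push Not at hc
  obtain ⟨x, _, hxR, hx⟩ := hM.aug R B h3 hB (by omega)
  rcases h4 x (List.mem_range.2 x.2) with h | h
  · exact hxR h
  · exact h hx

theorem sum_map_range (n : ℕ) (f : ℕ → ℕ) : ((List.range n).map f).sum = ∑ x ∈ range n, f x := by
  induction n with
  | zero => rfl
  | succ n ih =>
    rw [List.range_succ, List.map_append, List.sum_append, ih, Finset.sum_range_succ]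
    simp

theorem table_eq {P : ℕ} (hP : 2 ^ (cols L).length ≤ P) {S₀ : Finset (Fin (cols L).length)}
    (hS₀ : greedy L = toM S₀) (t : ℕ) : ∀ S : Finset (Fin (cols L).length),
    (table L P t).getD (valB (toM S)) 0 = cnt (stp (IndL L) (aOf L)) (4 ^ aOf L) t S S₀ := by
  induction t with
  | zero =>
    intro S
    unfold table
    simp only [Function.iterate_zero, id_eq]
    rw [getD_masks_map L hP (fun μ => if μ = greedy L then 1 else 0) (length_toM S), cnt_zero, hS₀]
    by_cases h : S = S₀
    · rw [if_pos (by rw [h]), if_pos h]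
    · rw [if_neg (fun h' => h (toM_inj h')), if_neg h]
  | succ t ih =>
    intro S
    unfold table
    rw [Function.iterate_succ_apply']
    have h1 : nextT L P ((nextT L P)^[t] ((masks L P).map (fun μ => if μ = greedy L then 1 else 0))) =
        nextT L P (table L P t) := rfl
    rw [h1]
    unfold nextT
    rw [getD_masks_map L hP (fun μ => ((List.range (4 ^ aOf L)).map
      (fun x => (table L P t).getD (valB (stepB L x μ)) 0)).sum) (length_toM S), cnt_succ]
    rw [sum_map_range]
    refine sum_congr rfl fun x _ => ?_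
    rw [stepB_toM, ih]

theorem mem_basesL {P : ℕ} (hP : 2 ^ (cols L).length ≤ P) (hM : Mtd (IndL L) r) {μ : List Bool} :
    μ ∈ basesL L P ↔ ∃ S ∈ Bs (IndL L) r, toM S = μ := by
  obtain ⟨S₀, hS₀, hg⟩ := greedy_eq hM
  unfold basesL
  rw [List.mem_filter, mem_masks L hP, decide_eq_true_iff, hg, wt_toM, (mem_Bs.1 hS₀).2]
  constructor
  · rintro ⟨h1, h2, h3⟩
    obtain ⟨S, rfl⟩ := toM_surj h1
    rw [wt_toM] at h3
    exact ⟨S, mem_Bs.2 ⟨h2, h3⟩, rfl⟩
  · rintro ⟨S, hS, rfl⟩
    rw [mem_Bs] at hS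
    exact ⟨length_toM S, hS.1, by rw [wt_toM]; exact hS.2⟩

theorem basesL_nodup {P : ℕ} (hP : 2 ^ (cols L).length ≤ P) : (basesL L P).Nodup :=
  (masks_nodup L hP).filter _

theorem basesL_perm {P : ℕ} (hP : 2 ^ (cols L).length ≤ P) (hM : Mtd (IndL L) r) :
    (basesL L P).Perm ((Bs (IndL L) r).toList.map toM) := by
  refine (List.perm_ext_iff_of_nodup (basesL_nodup hP) ?_).2 fun μ => ?_
  · exact (nodup_toList _).map (fun _ _ h => toM_inj h)
  · rw [mem_basesL hP hM, List.mem_map]
    simp only [mem_toList]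

theorem sum_basesL {P : ℕ} (hP : 2 ^ (cols L).length ≤ P) (hM : Mtd (IndL L) r)
    (h : List Bool → ℕ) : ((basesL L P).map h).sum = ∑ S ∈ Bs (IndL L) r, h (toM S) := by
  rw [((basesL_perm hP hM).map h).sum_eq, List.map_map, Finset.sum_map_toList]
  rfl

theorem le_foldr_max {l : List ℕ} {x : ℕ} (h : x ∈ l) : x ≤ l.foldr max 0 := by
  induction l with
  | nil => simp at h
  | cons a l ih =>
    rw [List.foldr_cons]
    rcases List.mem_cons.1 h with rfl | h
    · exact le_max_left _ _
    · exact (ih h).trans (le_max_right _ _)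

theorem foldr_max_mem (l : List ℕ) : l.foldr max 0 = 0 ∨ l.foldr max 0 ∈ l := by
  induction l with
  | nil => left; rfl
  | cons a l ih =>
    rw [List.foldr_cons]
    rcases max_choice a (l.foldr max 0) with h | h
    · rw [h]; right; exact List.mem_cons_self
    · rw [h]
      rcases ih with h' | h'
      · left; exact h'
      · right; exact List.mem_cons_of_mem _ h'

/-! ### selection -/

theorem foldl_selStep_some (l : List (List Bool × ℕ)) (μ : List Bool) (u : ℕ) :
    l.foldl selStep (some μ, u) = (some μ, u) := by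
  induction l with
  | nil => rfl
  | cons q l ih =>
    rw [List.foldl_cons]
    have : selStep (some μ, u) q = (some μ, u) := by simp [selStep]
    rw [this, ih]

theorem sel_cons (q : List Bool × ℕ) (l : List (List Bool × ℕ)) (u : ℕ) :
    sel (q :: l) u = if u < q.2 then some q.1 else sel l (u - q.2) := by
  unfold sel
  rw [List.foldl_cons]
  by_cases h : u < q.2
  · have : selStep (none, u) q = (some q.1, 0) := by simp [selStep, h]
    rw [this, if_pos h, foldl_selStep_some]
  · have : selStep (none, u) q = (none, u - q.2) := by simp [selStep, h]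
    rw [this, if_neg h]

theorem sel_nil (u : ℕ) : sel [] u = none := rfl

theorem sel_mem {l : List (List Bool × ℕ)} {u : ℕ} {μ : List Bool} (h : sel l u = some μ) :
    μ ∈ l.map Prod.fst := by
  induction l generalizing u with
  | nil => simp [sel_nil] at h
  | cons q l ih =>
    rw [sel_cons] at h
    split_ifs at h with h1
    · rw [Option.some.injEq] at h
      rw [← h]; simp
    · exact List.mem_cons_of_mem _ (ih h)

theorem sel_count (l : List (List Bool × ℕ)) (μ : List Bool) : ∀ D : ℕ, (l.map Prod.snd).sum ≤ D →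
    #((range D).filter (fun u => sel l u = some μ)) =
      (l.map (fun q => if q.1 = μ then q.2 else 0)).sum := by
  induction l with
  | nil => intro D _; simp [sel_nil]
  | cons q l ih =>
    intro D hD
    simp only [List.map_cons, List.sum_cons] at hD ⊢
    obtain ⟨E, rfl⟩ := Nat.exists_eq_add_of_le (show q.2 ≤ D by omega)
    rw [← ih E (by omega)]
    simp only [card_filter, sel_cons]
    rw [sum_range_add]
    congr 1
    · rw [sum_congr rfl (g := fun _ => if q.1 = μ then 1 else 0)]
      · rw [sum_const, card_range]; split_ifs <;> simp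
      · intro u hu
        rw [mem_range] at hu
        rw [if_pos hu]
        simp only [Option.some.injEq]
    · refine sum_congr rfl fun u _ => ?_
      have h : ¬ (q.2 + u < q.2) := by omega
      simp only [h, if_false, Nat.add_sub_cancel_left]

end Walk

/-! ### one trial -/

theorem two_m_lt (L : List (List ℕ)) : 2 * (cols L).length < 2 ^ aOf L := Nat.lt_size_self _

theorem aOf_le (L : List (List ℕ)) : (cols L).length ≤ 2 ^ aOf L := by
  have := two_m_lt L; omega

theorem aOf_sq (L : List (List ℕ)) : 2 * (cols L).length ^ 2 ≤ 4 ^ aOf L := by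
  have h1 := (two_m_lt L).le
  have h2 : (4:ℕ) ^ aOf L = 2 ^ aOf L * 2 ^ aOf L := by rw [← mul_pow]; norm_num
  rw [h2]
  nlinarith [Nat.mul_le_mul h1 h1]

section Trial

variable {L : List (List ℕ)} {r : ℕ}

/-- the number of outcomes of each basis -/
theorem bigK_props {P s : ℕ} (hP : 2 ^ (cols L).length ≤ P) (hM : Mtd (IndL L) r)
    {S₀ : Finset (Fin (cols L).length)} (hS₀ : S₀ ∈ Bs (IndL L) r) (hg : greedy L = toM S₀) :
    (∀ S ∈ Bs (IndL L) r, (2 ^ s - 1) * cnt (stp (IndL L) (aOf L)) (4 ^ aOf L) (tOf L s) S S₀ ≤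
      bigK L P s (tOf L s)) ∧
    #(Bs (IndL L) r) * bigK L P s (tOf L s) ≤ 2 ^ s * (4 ^ aOf L) ^ tOf L s ∧
    (2 ^ s - 1) * (4 ^ aOf L) ^ tOf L s ≤ #(Bs (IndL L) r) * bigK L P s (tOf L s) := by
  set t := tOf L s with ht
  set c : Finset (Fin (cols L).length) → ℕ := fun S => cnt (stp (IndL L) (aOf L)) (4 ^ aOf L) t S S₀
    with hc
  set l := (basesL L P).map (fun μ => (table L P t).getD (valB μ) 0) with hl
  have hmem : ∀ S ∈ Bs (IndL L) r, c S ∈ l := by
    intro S hS
    rw [hl, List.mem_map]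
    exact ⟨toM S, (mem_basesL hP hM).2 ⟨S, hS, rfl⟩, table_eq hP hg t S⟩
  have hmem' : ∀ x ∈ l, ∃ S ∈ Bs (IndL L) r, x = c S := by
    intro x hx
    rw [hl, List.mem_map] at hx
    obtain ⟨μ, hμ, rfl⟩ := hx
    obtain ⟨S, hS, rfl⟩ := (mem_basesL hP hM).1 hμ
    exact ⟨S, hS, table_eq hP hg t S⟩
  have hK : bigK L P s t = (2 ^ s - 1) * l.foldr max 0 := rfl
  have hmax : ∀ S ∈ Bs (IndL L) r, c S ≤ l.foldr max 0 := fun S hS => le_foldr_max (hmem S hS)
  have hsum : ∑ S ∈ Bs (IndL L) r, c S = (4 ^ aOf L) ^ t := by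
    rw [← cnt_total (stp (IndL L) (aOf L)) (4 ^ aOf L) (X := Bs (IndL L) r)
      (fun S hS x => stp_mem hS x) t hS₀]
    refine sum_congr rfl fun S hS => ?_
    exact cnt_symm _ _ (fun S hS x => stp_mem hS x) (stp_symm (aOf_le L)) t S hS S₀ hS₀
  refine ⟨fun S hS => ?_, ?_, ?_⟩
  · rw [hK]
    exact Nat.mul_le_mul_left _ (hmax S hS)
  · rw [hK]
    rcases foldr_max_mem l with h | h
    · rw [h]; simp
    · obtain ⟨S, hS, h⟩ := hmem' _ h
      rw [h]
      exact hM.cnt_bound (aOf_sq L) (aOf_le L) (by rw [ht]; rfl) hS₀ hS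
  · rw [hK, ← hsum]
    calc (2 ^ s - 1) * ∑ S ∈ Bs (IndL L) r, c S ≤
        (2 ^ s - 1) * ∑ S ∈ Bs (IndL L) r, l.foldr max 0 :=
          Nat.mul_le_mul_left _ (sum_le_sum hmax)
      _ = _ := by rw [sum_const, smul_eq_mul]; ring

theorem weights_sum {P s : ℕ} (hP : 2 ^ (cols L).length ≤ P) (hM : Mtd (IndL L) r)
    {S₀ : Finset (Fin (cols L).length)} (hS₀ : S₀ ∈ Bs (IndL L) r) (hg : greedy L = toM S₀) :
    ((weights L P s (tOf L s)).map Prod.snd).sum ≤ (4 ^ aOf L) ^ tOf L s := by
  obtain ⟨h1, h2, _⟩ := bigK_props (s := s) hP hM hS₀ hg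
  unfold weights
  rw [List.map_map]
  have e : (Prod.snd ∘ fun μ : List Bool => (μ, bigK L P s (tOf L s) -
      (2 ^ s - 1) * (table L P (tOf L s)).getD (valB μ) 0)) =
      fun μ => bigK L P s (tOf L s) - (2 ^ s - 1) * (table L P (tOf L s)).getD (valB μ) 0 := rfl
  rw [e, sum_basesL hP hM]
  simp only [table_eq hP hg]
  set K := bigK L P s (tOf L s)
  set c : Finset (Fin (cols L).length) → ℕ :=
    fun S => cnt (stp (IndL L) (aOf L)) (4 ^ aOf L) (tOf L s) S S₀ with hc
  have hsum : ∑ S ∈ Bs (IndL L) r, c S = (4 ^ aOf L) ^ tOf L s := by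
    rw [← cnt_total (stp (IndL L) (aOf L)) (4 ^ aOf L) (X := Bs (IndL L) r)
      (fun S hS x => stp_mem hS x) (tOf L s) hS₀]
    refine sum_congr rfl fun S hS => ?_
    exact cnt_symm _ _ (fun S hS x => stp_mem hS x) (stp_symm (aOf_le L)) _ S hS S₀ hS₀
  have h3 : ∑ S ∈ Bs (IndL L) r, (K - (2 ^ s - 1) * c S) + (2 ^ s - 1) * ∑ S ∈ Bs (IndL L) r, c S =
      #(Bs (IndL L) r) * K := by
    rw [mul_sum, ← sum_add_distrib, sum_congr rfl (g := fun _ => K)]
    · rw [sum_const, smul_eq_mul]
    · intro S hS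
      exact Nat.sub_add_cancel (h1 S hS)
  rw [hsum] at h3
  change ∑ S ∈ Bs (IndL L) r, (K - (2 ^ s - 1) * c S) ≤ _
  have h4 : 1 ≤ 2 ^ s := Nat.one_le_two_pow
  have h5 : (2 ^ s - 1) * (4 ^ aOf L) ^ tOf L s + (4 ^ aOf L) ^ tOf L s =
      2 ^ s * (4 ^ aOf L) ^ tOf L s := by
    obtain ⟨q, hq⟩ := Nat.exists_eq_add_of_le h4
    rw [hq, Nat.add_sub_cancel_left]; ring
  omega

/-- Each basis is the result of the same number of random strings. -/
theorem trial_count {P s : ℕ} (hP : 2 ^ (cols L).length ≤ P) (hM : Mtd (IndL L) r)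
    {S : Finset (Fin (cols L).length)} (hS : S ∈ Bs (IndL L) r) :
    #((range (2 ^ s * (4 ^ aOf L) ^ tOf L s)).filter (fun R => trialB L P s R = some (toM S))) =
      bigK L P s (tOf L s) := by
  obtain ⟨S₀, hS₀, hg⟩ := greedy_eq hM
  obtain ⟨h1, h2, _⟩ := bigK_props (s := s) hP hM hS₀ hg
  set t := tOf L s with ht
  set D := (4 ^ aOf L) ^ t with hD
  rw [card_filter]
  set F : ℕ → ℕ → ℕ := fun σ ρ => if (if σ ≠ 0 then some (walkB L t ρ (greedy L))
    else sel (weights L P s t) ρ) = some (toM S) then 1 else 0 with hF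
  have e1 : ∀ R, (if trialB L P s R = some (toM S) then 1 else 0) = F (R % 2 ^ s) (R / 2 ^ s) :=
    fun R => rfl
  simp only [e1]
  rw [sum_splitG (2 ^ s) D F]
  obtain ⟨q, hq⟩ := Nat.exists_eq_add_of_le (show 1 ≤ 2 ^ s from Nat.one_le_two_pow)
  rw [hq, add_comm 1 q, sum_range_succ']
  have e2 : ∀ σ, ∑ ρ ∈ range D, F (σ + 1) ρ = cnt (stp (IndL L) (aOf L)) (4 ^ aOf L) t S S₀ := by
    intro σ
    rw [← cnt_symm (stp (IndL L) (aOf L)) (4 ^ aOf L) (fun S hS x => stp_mem hS x)
      (stp_symm (aOf_le L)) t S₀ hS₀ S hS]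
    unfold cnt
    rw [card_filter]
    refine sum_congr rfl fun ρ _ => ?_
    simp only [hF]
    rw [if_pos (Nat.succ_ne_zero σ), hg, walkB_toM]
    simp only [Option.some.injEq]
    by_cases h : walk (stp (IndL L) (aOf L)) (4 ^ aOf L) t ρ S₀ = S
    · rw [if_pos (by rw [h]), if_pos h]
    · rw [if_neg (fun h' => h (toM_inj h')), if_neg h]
  have e3 : ∑ ρ ∈ range D, F 0 ρ = bigK L P s t -
      (2 ^ s - 1) * cnt (stp (IndL L) (aOf L)) (4 ^ aOf L) t S S₀ := by
    simp only [hF]
    simp only [ne_eq, not_true_eq_false, if_false]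
    rw [← card_filter, sel_count _ _ D (weights_sum hP hM hS₀ hg)]
    unfold weights
    rw [List.map_map]
    have e : ((fun q : List Bool × ℕ => if q.1 = toM S then q.2 else 0) ∘
        fun μ : List Bool => (μ, bigK L P s t - (2 ^ s - 1) * (table L P t).getD (valB μ) 0)) =
        fun μ => if μ = toM S then bigK L P s t - (2 ^ s - 1) * (table L P t).getD (valB μ) 0
          else 0 := rfl
    rw [e, sum_basesL hP hM, sum_eq_single S]
    · rw [if_pos rfl, table_eq hP hg]
    · intro T _ hT
      rw [if_neg (fun h => hT (toM_inj h))]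
    · intro h; exact absurd hS h
  rw [e3, sum_congr rfl (fun σ _ => e2 σ), sum_const, card_range, smul_eq_mul]
  have h3 := h1 S hS
  have h4 : 2 ^ s - 1 = q := by omega
  rw [h4] at h3 ⊢
  omega

/-- Nothing but bases is ever the result. -/
theorem trial_sound {P s R : ℕ} (hP : 2 ^ (cols L).length ≤ P) (hM : Mtd (IndL L) r)
    {μ : List Bool} (h : trialB L P s R = some μ) : ∃ S ∈ Bs (IndL L) r, toM S = μ := by
  obtain ⟨S₀, hS₀, hg⟩ := greedy_eq hM
  unfold trialB at h
  split_ifs at h with h1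
  · rw [Option.some.injEq, hg, walkB_toM] at h
    refine ⟨_, ?_, h⟩
    have key : ∀ (t ρ : ℕ) (S : Finset (Fin (cols L).length)), S ∈ Bs (IndL L) r →
        walk (stp (IndL L) (aOf L)) (4 ^ aOf L) t ρ S ∈ Bs (IndL L) r := by
      intro t
      induction t with
      | zero => intro ρ S hS; exact hS
      | succ t ih => intro ρ S hS; exact ih _ _ (stp_mem hS _)
    exact key _ _ _ hS₀
  · have h2 := sel_mem h
    unfold weights at h2
    rw [List.map_map, List.mem_map] at h2
    obtain ⟨μ', hμ', rfl⟩ := h2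
    exact (mem_basesL hP hM).1 hμ'

/-- Number of accepted random strings. -/
theorem trial_accept {P s : ℕ} (hP : 2 ^ (cols L).length ≤ P) (hM : Mtd (IndL L) r) :
    #((range (2 ^ s * (4 ^ aOf L) ^ tOf L s)).filter (fun R => (trialB L P s R).isSome = true)) =
      #(Bs (IndL L) r) * bigK L P s (tOf L s) := by
  have e : #(Bs (IndL L) r) * bigK L P s (tOf L s) =
      ∑ S ∈ Bs (IndL L) r, bigK L P s (tOf L s) := by rw [sum_const, smul_eq_mul]
  rw [e, ← sum_congr rfl (fun S hS => trial_count (s := s) hP hM hS), ← card_biUnion]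
  · congr 1
    ext R
    simp only [mem_filter, mem_biUnion]
    constructor
    · rintro ⟨h1, h2⟩
      obtain ⟨μ, hμ⟩ := Option.isSome_iff_exists.1 h2
      obtain ⟨S, hS, rfl⟩ := trial_sound hP hM hμ
      exact ⟨S, hS, h1, hμ⟩
    · rintro ⟨S, _, h1, h2⟩
      exact ⟨h1, by rw [h2]; rfl⟩
  · intro S _ T _ hST
    rw [Function.onFun, disjoint_left]
    intro R h1 h2
    rw [mem_filter] at h1 h2
    have h3 := h1.2.symm.trans h2.2
    rw [Option.some.injEq] at h3
    exact hST (toM_inj h3)

/-- At least half of the random strings are accepted. -/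
theorem trial_half {P s : ℕ} (hs : 1 ≤ s) (hP : 2 ^ (cols L).length ≤ P) (hM : Mtd (IndL L) r) :
    2 ^ s * (4 ^ aOf L) ^ tOf L s ≤ 2 * #((range (2 ^ s * (4 ^ aOf L) ^ tOf L s)).filter
      (fun R => (trialB L P s R).isSome = true)) := by
  obtain ⟨S₀, hS₀, hg⟩ := greedy_eq hM
  obtain ⟨_, _, h3⟩ := bigK_props (s := s) hP hM hS₀ hg
  rw [trial_accept hP hM]
  refine le_trans ?_ (Nat.mul_le_mul_left 2 h3)
  rw [← mul_assoc]
  apply Nat.mul_le_mul_right
  obtain ⟨k, rfl⟩ : ∃ k, s = k + 1 := ⟨s - 1, by omega⟩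
  have : 1 ≤ 2 ^ k := Nat.one_le_two_pow
  rw [pow_succ]
  omega

end Trial

end Pool.Agent.Run7.h997
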