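import Pool.Agent.H591R2.Defs
import Pool.Agent.NPC.Defs

/-!
# Definitions: simplicial spanning trees, and the output distribution of a coin-tossing machine
-/

namespace Pool.Agent.Run7.h997

open Finset Pool.Agent.H591R2 Pool.Agent.NPC

/-- `Δ` is (the set of nonempty faces of) a finite abstract simplicial complex whose vertices are
natural numbers. -/
structure IsComplex (Δ : Finset (Finset ℕ)) : Prop where
  /-- faces are nonempty -/
  nonempty : ∀ σ ∈ Δ, σ.Nonempty
  /-- nonempty subsets of faces are faces -/
  down : ∀ σ ∈ Δ, ∀ τ, τ ⊆ σ → τ.Nonempty → τ ∈ Δ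

/-- `Δ` has dimension `d`: the largest faces have `d + 1` vertices. -/
def HasDim (Δ : Finset (Finset ℕ)) (d : ℕ) : Prop := (∃ σ ∈ Δ, #σ = d + 1) ∧ ∀ σ ∈ Δ, #σ ≤ d + 1

/-- The faces of `Δ` with `k` vertices (the faces of dimension `k - 1`). -/
abbrev Face (Δ : Finset (Finset ℕ)) (k : ℕ) : Type := {σ : Finset ℕ // σ ∈ Δ ∧ #σ = k}

/-- The matrix of the boundary map `∂_d` over `ℚ`, the faces being oriented by the order of their
vertices: for `v ∈ σ`, the coefficient of the face `σ ∖ v` in `∂ σ` is `(-1) ^ i`, where `i` is the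
number of vertices of `σ` smaller than `v`. -/
def boundary (Δ : Finset (Finset ℕ)) (d : ℕ) : Matrix (Face Δ d) (Face Δ (d + 1)) ℚ :=
  Matrix.of fun ρ σ => ∑ v ∈ σ.1, if ρ.1 = σ.1.erase v then (-1) ^ #(σ.1.filter (· < v)) else 0

/-- The column of the boundary matrix `∂_d` at a face of dimension `d`. -/
def column (Δ : Finset (Finset ℕ)) (d : ℕ) (σ : Face Δ (d + 1)) : Face Δ d → ℚ :=
  fun ρ => boundary Δ d ρ σ

/-- `Υ` is a `d`-dimensional spanning tree of `Δ`. -/
structure IsSpanningTree (Δ : Finset (Finset ℕ)) (d : ℕ) (Υ : Finset (Finset ℕ)) : Prop where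
  /-- it is contained in `Δ` -/
  subset : Υ ⊆ Δ
  /-- it is a simplicial complex -/
  complex : IsComplex Υ
  /-- it contains all faces of dimension less than `d` -/
  skeleton : ∀ σ ∈ Δ, #σ ≤ d → σ ∈ Υ
  /-- the columns at its faces of dimension `d` are linearly independent -/
  indep : LinearIndependent ℚ
    (fun σ : {σ : Face Δ (d + 1) // σ.1 ∈ Υ} => column Δ d σ.1)
  /-- these columns span the column space -/
  span : Submodule.span ℚ (Set.range (fun σ : {σ : Face Δ (d + 1) // σ.1 ∈ Υ} => column Δ d σ.1)) =
    Submodule.span ℚ (Set.range (column Δ d))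

/-- `L` is a list of all faces of `Δ`, without repetitions and in any order; each face is given by
the increasing list of its vertices. -/
def Lists (L : List (List ℕ)) (Δ : Finset (Finset ℕ)) : Prop :=
  L.Nodup ∧ ∀ l : List ℕ, l ∈ L ↔ l.Pairwise (· < ·) ∧ l.toFinset ∈ Δ

/-- The list of the faces of the subcomplex `Υ`, in the order of the list `L`. -/
def sublistOf (L : List (List ℕ)) (Υ : Finset (Finset ℕ)) : List (List ℕ) :=
  L.filter (fun l => decide (l.toFinset ∈ Υ))

/-- The probability that the machine `M` on input `x` halts with output `y`: the sum over all `i` of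
the probability (over `i` fair coin tosses) that it halts after exactly `i` steps with
output `y`. -/
noncomputable def outProb (M : CoinMachine) (x y : List Bool) : ENNReal :=
  ∑' i : ℕ, ({w : List Bool | w.length = i ∧ M.HaltsWith x w y}.ncard : ENNReal) / 2 ^ i

end Pool.Agent.Run7.h997
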