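import Pool.Agent.Run7.h997.AlgPoly
import Pool.Agent.H591R2.RawOut

/-!
# Programs with an exponential-time branch
-/

namespace Pool.Agent.NPC.R997

open Pool.Agent.NPC.R591

section

variable {β V W : Type} [TEnc β] [TEnc V] [TEnc W]

/-- outcome of a trial as a raw string -/
def outRaw : β ⊕ List Bool → List Bool
  | Sum.inl b => true :: bits b
  | Sum.inr w => w

theorem bits_inl (b : β) : bits (Sum.inl b : β ⊕ V) = true :: false :: bits b := by
  simp [bits, T.enc]

theorem bits_inr (v : V) : bits (Sum.inr v : β ⊕ V) = true :: true :: false :: false :: bits v := by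
  simp [bits, T.enc]

/-- branching on a sum type: `inl` becomes the raw output, `inr` is handed to `c` -/
def branch (c : Cmd ℕ) : Cmd ℕ :=
  Cmd.seq (Cmd.pop 0) (Cmd.cases 0 Cmd.skip (Cmd.seq (Cmd.pop 0) (Cmd.push 0 true))
    (Cmd.seq (Cmd.pop 0) (Cmd.seq (Cmd.pop 0) (Cmd.seq (Cmd.pop 0) c))))

theorem branch_inl (c : Cmd ℕ) (b : β) :
    Runs (branch c) (inp (bits (Sum.inl b : β ⊕ V))) (inp (true :: bits b)) 4 := by
  rw [bits_inl, inp_eq_st, inp_eq_st]
  refine ((Runs.pop _ 0).seq (Runs.casesFalse (l := bits b) (by simp)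
    ((Runs.pop _ 0).seq (Runs.push _ 0 true)))).conv rfl ?_ le_rfl
  simp

theorem branch_inr {c : Cmd ℕ} {v : V} {s' : ℕ → List Bool} {n : ℕ}
    (h : Runs c (inp (bits v)) s' n) :
    Runs (branch c) (inp (bits (Sum.inr v : β ⊕ V))) s' (n + 5) := by
  rw [bits_inr, inp_eq_st]
  rw [inp_eq_st] at h
  refine ((Runs.pop _ 0).seq (Runs.casesTrue (l := false :: false :: bits v) (by simp)
    ((Runs.pop _ 0).seq ((Runs.pop _ 0).seq ((Runs.pop _ 0).seq ?_))))).conv rfl rfl
      (m := 1 + ((1 + (1 + (1 + n))) + 1)) (by omega)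
  simpa using h

theorem fin_raw : PC (bits : β ⊕ List Bool → List Bool) (fun x : List Bool => x) outRaw := by
  obtain ⟨c, p, h⟩ := rawOut
  refine ⟨branch c, p + Polynomial.C 5, fun a => ?_⟩
  cases a with
  | inl b =>
    refine (branch_inl c b).mono ?_
    simp only [Polynomial.eval_add, Polynomial.eval_C]
    omega
  | inr w =>
    refine (branch_inr (h w)).mono ?_
    simp only [Polynomial.eval_add, Polynomial.eval_C, bits_inr, List.length_cons]
    have := eval_mono p (show (bits w).length ≤ (bits w).length + 1 + 1 + 1 + 1 by omega)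
    omega

theorem sz_unary (n : ℕ) : sz (List.replicate n ()) = 2 * n + 1 := by
  induction n with
  | zero => rfl
  | succ n ih => rw [List.replicate_succ, sz_list_cons, ih, sz_unit]; omega

/-- doubling of the padding -/
def dbl (p : List Unit × W) : List Unit × W := (p.1 ++ p.1, p.2)

theorem dbl_iter (w : W) (k : ℕ) :
    (dbl (W := W))^[k] (([()] : List Unit), w) = (List.replicate (2 ^ k) (), w) := by
  induction k with
  | zero => rfl
  | succ k ih =>
    rw [Function.iterate_succ_apply', ih]
    unfold dbl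
    rw [List.replicate_append_replicate, pow_succ, mul_two]

/-- The exponential-time branch: first the padding is doubled many times, then a polynomial-time
function is computed. -/
theorem exp_runs {g : List Unit × W → β ⊕ List Bool} (hg : Poly g) :
    ∃ (c : Cmd ℕ) (Q : Polynomial ℕ), ∀ (cnt : List Unit) (w : W),
      Runs c (inp (bits (cnt, (([()] : List Unit), w))))
        (inp (outRaw (g (List.replicate (2 ^ sz cnt) (), w))))
        (Q.eval (2 ^ sz cnt * (4 + sz w))) := by
  have hd : Poly (dbl (W := W)) := by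
    unfold dbl
    exact Poly.pair (Poly.append (Poly.fst Poly.id) (Poly.fst Poly.id)) (Poly.snd Poly.id)
  obtain ⟨cD, pD, hD⟩ := hd
  obtain ⟨c3, p3, h3⟩ : PC (bits : List Unit × W → List Bool) (fun x : List Bool => x)
      (fun a => outRaw (g a)) := PC.comp (g := outRaw) (f := g) fin_raw hg
  refine ⟨Cmd.seq split (Cmd.seq (Cmd.loop 1 (Cmd.seq (Cmd.pop 1) (ev cD))) c3),
    (Polynomial.C 5 * Polynomial.X + Polynomial.C 3) + (((pD + Polynomial.C 2) * Polynomial.X +
      Polynomial.C 1) + p3), fun cnt w => ?_⟩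
  set K := sz cnt with hK
  set X := 2 ^ K * (4 + sz w) with hX
  have hsz : ∀ k ≤ K, sz ((dbl (W := W))^[k] (([()] : List Unit), w)) ≤ X := by
    intro k hk
    rw [dbl_iter, sz_pair, sz_unary, hX]
    have h1 : 2 ^ k ≤ 2 ^ K := Nat.pow_le_pow_right (by norm_num) hk
    have h2 : 1 ≤ 2 ^ k := Nat.one_le_two_pow
    have h3 : sz w ≤ 2 ^ K * sz w := Nat.le_mul_of_pos_left _ (by positivity)
    nlinarith
  have hKX : K ≤ X := by
    have h1 : K < 2 ^ K := Nat.lt_two_pow_self
    have h2 : 2 ^ K * 1 ≤ 2 ^ K * (4 + sz w) := Nat.mul_le_mul_left _ (by omega)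
    omega
  rw [inp_eq_st, inp_eq_st]
  have e1 : bits (cnt, (([()] : List Unit), w)) = (T.node (toT cnt) (toT (([()] : List Unit), w))).enc := rfl
  have h1 := split_runs (toT cnt) (toT (([()] : List Unit), w))
  have h2 := loop_runs (eb := (bits : List Unit × W → List Bool)) hD X (toT cnt).enc.reverse
    (([()] : List Unit), w) (by
      intro k hk
      exact hsz k (by simpa [hK, sz, T.size] using hk))
  have hlen : (toT cnt).enc.reverse.length = K := by simp [hK, sz, T.size]
  rw [hlen, dbl_iter] at h2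
  have h4 := h3 (List.replicate (2 ^ K) (), w)
  rw [inp_eq_st, inp_eq_st] at h4
  refine (h1.seq (h2.seq h4)).conv (by rw [e1]) rfl ?_
  have h5 : (bits (List.replicate (2 ^ K) (), w)).length ≤ X := by
    have := hsz K le_rfl
    rw [dbl_iter] at this
    exact this
  have h6 := eval_mono p3 h5
  have h7 : (pD.eval X + 2) * K ≤ (pD.eval X + 2) * X := Nat.mul_le_mul_left _ hKX
  have h8 : (toT cnt).size = K := rfl
  simp only [Polynomial.eval_add, Polynomial.eval_mul, Polynomial.eval_C, Polynomial.eval_X]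
  rw [h8]
  omega

/-- The whole body: a polynomial-time function, whose result is output or handed to `cE`. -/
theorem comb_runs (cE : Cmd ℕ) {g : List Bool → β ⊕ V} (hg : Poly g) :
    ∃ (c : Cmd ℕ) (p : Polynomial ℕ), ∀ z : List Bool,
      (∀ b, g z = Sum.inl b → Runs c (inp z) (inp (true :: bits b)) (p.eval z.length)) ∧
      (∀ v s' n, g z = Sum.inr v → Runs cE (inp (bits v)) s' n →
        Runs c (inp z) s' (p.eval z.length + n)) := by
  obtain ⟨c1, p1, h1⟩ : PC (fun x : List Bool => x) (bits : β ⊕ V → List Bool) g :=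
    PC.comp (g := g) (f := fun x => x) hg PC.rawIn
  refine ⟨Cmd.seq c1 (branch cE), p1 + Polynomial.C 5, fun z => ⟨fun b hb => ?_,
    fun v s' n hv hr => ?_⟩⟩
  · have h2 := h1 z
    rw [hb] at h2
    refine (h2.seq (branch_inl cE b)).mono ?_
    simp only [Polynomial.eval_add, Polynomial.eval_C]
    omega
  · have h2 := h1 z
    rw [hv] at h2
    refine (h2.seq (branch_inr hr)).mono ?_
    simp only [Polynomial.eval_add, Polynomial.eval_C]
    omega

theorem eval_mul_le (Q : Polynomial ℕ) (a b : ℕ) (ha : 1 ≤ a) :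
    Q.eval (a * b) ≤ a ^ Q.natDegree * Q.eval b := by
  rw [Polynomial.eval_eq_sum_range, Polynomial.eval_eq_sum_range, Finset.mul_sum]
  refine Finset.sum_le_sum fun i hi => ?_
  rw [Finset.mem_range] at hi
  rw [mul_pow]
  have h1 : a ^ i ≤ a ^ Q.natDegree := Nat.pow_le_pow_right ha (by omega)
  calc Q.coeff i * (a ^ i * b ^ i) = a ^ i * (Q.coeff i * b ^ i) := by ring
    _ ≤ a ^ Q.natDegree * (Q.coeff i * b ^ i) := Nat.mul_le_mul_right _ h1

end

end Pool.Agent.NPC.R997
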