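import Pool.Agent.Run7.h997.HR

/-!
# The spectral gap of the basis exchange graph
-/

namespace Pool.Agent.Run7.h997

open Finset

section

variable {α : Type} [Fintype α] [DecidableEq α] {Ind : Finset α → Prop} {r : ℕ}

/-- swapping the order of two added elements -/
theorem sum_swap (J : Finset α) (G : α → α → ℝ) :
    ∑ e ∈ Jᶜ, ∑ f ∈ (insert e J)ᶜ, G e f = ∑ e ∈ Jᶜ, ∑ f ∈ (insert e J)ᶜ, G f e := by
  apply sum_comm'
  intro e f
  simp only [mem_compl, mem_insert, not_or]
  constructor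
  · rintro ⟨h1, h2, h3⟩; exact ⟨⟨Ne.symm h2, h1⟩, h3⟩
  · rintro ⟨⟨h1, h2⟩, h3⟩; exact ⟨h2, Ne.symm h1, h3⟩

theorem sum_FJ (f : Finset α → ℝ) (J : Finset α) {k : ℕ} (hk : #J + k = r) :
    ∑ e ∈ Jᶜ, FJ Ind r f (insert e J) = k * FJ Ind r f J := by
  unfold FJ
  rw [dc (fun _ B => f B), mul_sum]
  refine sum_congr rfl fun B hB => ?_
  have h3 := card_sdiff_BJ hB
  have h4 : #(B \ J) = k := by omega
  rw [sum_const, nsmul_eq_mul, h4]

theorem W_eq_FJ (J : Finset α) : W Ind r J = FJ Ind r (fun _ => 1) J := by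
  rw [W_eq]; rfl

theorem sum_WJ (J : Finset α) {k : ℕ} (hk : #J + k = r) :
    ∑ e ∈ Jᶜ, W Ind r (insert e J) = k * W Ind r J := by
  simp only [W_eq_FJ]
  exact sum_FJ _ J hk

theorem qf_AJ' (J : Finset α) (φ : α → ℝ) :
    qf (AJ Ind r J) φ = ∑ e ∈ Jᶜ, ∑ f ∈ (insert e J)ᶜ, W Ind r (insert f (insert e J)) * φ e * φ f := by
  classical
  unfold qf
  rw [← sum_add_sum_compl J, sum_eq_zero (s := J), zero_add]
  · refine sum_congr rfl fun e he => ?_
    rw [mem_compl] at he
    rw [← sum_add_sum_compl (insert e J), sum_eq_zero (s := insert e J), zero_add]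
    · refine sum_congr rfl fun f hf => ?_
      rw [mem_compl, mem_insert, not_or] at hf
      rw [AJ_of_ne he hf.2 (Ne.symm hf.1)]
    · intro f hf
      rw [mem_insert] at hf
      rcases hf with rfl | hf
      · rw [AJ_self]; ring
      · rw [AJ_symm, AJ_left e hf]; ring
  · intro e he
    exact sum_eq_zero fun f _ => by rw [AJ_left f he]; ring

/-- the energy of level `i` -/
noncomputable def aE (Ind : Finset α → Prop) (r : ℕ) (f : Finset α → ℝ) (i : ℕ) : ℝ :=
  ∑ J ∈ powersetCard i univ, FJ Ind r f J ^ 2 / W Ind r J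

theorem BJ_of_not_ind (hM : Mtd Ind r) {J : Finset α} (hJ : ¬ Ind J) : BJ Ind r J = ∅ := by
  rw [eq_empty_iff_forall_notMem]
  intro B hB
  rw [mem_BJ] at hB
  exact hJ (hM.hered _ _ hB.1.1 hB.2)

theorem FJ_of_W_zero (f : Finset α → ℝ) {J : Finset α} (h : W Ind r J = 0) :
    FJ Ind r f J = 0 := by
  unfold W at h
  have : BJ Ind r J = ∅ := card_eq_zero.1 (by exact_mod_cast h)
  simp [FJ, this]

/-- Garland's step -/
theorem Mtd.garland (hM : Mtd Ind r) (f : Finset α → ℝ) {J : Finset α} {k : ℕ}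
    (hk : #J + (k + 2) = r) :
    0 ≤ (∑ e ∈ Jᶜ, ∑ g ∈ (insert e J)ᶜ, FJ Ind r f (insert g (insert e J)) ^ 2 /
        W Ind r (insert g (insert e J))) -
      2 * (k + 1) * (∑ e ∈ Jᶜ, FJ Ind r f (insert e J) ^ 2 / W Ind r (insert e J)) +
      (k + 2) * (k + 1) * (FJ Ind r f J ^ 2 / W Ind r J) := by
  classical
  by_cases hJ : Ind J
  swap
  · have h1 : ∀ X : Finset α, J ⊆ X → FJ Ind r f X = 0 := by
      intro X hX
      apply FJ_of_W_zero
      unfold W
      rw [BJ_of_not_ind hM (fun h => hJ (hM.hered _ _ h hX))]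
      simp
    have h2 : ∀ e g : α, FJ Ind r f (insert g (insert e J)) = 0 := fun e g =>
      h1 _ ((subset_insert _ _).trans (subset_insert _ _))
    have h3 : ∀ e : α, FJ Ind r f (insert e J) = 0 := fun e => h1 _ (subset_insert _ _)
    simp only [h2, h3, h1 J Subset.rfl]
    simp
  have hWpos := hM.W_pos hJ
  set F := FJ Ind r f with hF
  set w := W Ind r with hw
  set c := F J / w J with hc
  set φ : α → ℝ := fun e => F (insert e J) / w (insert e J) - c with hφ
  have hFw : ∀ X, w X * (F X / w X) = F X := by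
    intro X
    by_cases h : w X = 0
    · rw [h, zero_mul, hF, FJ_of_W_zero f h]
    · field_simp
  have hwφ : ∀ e, w (insert e J) * φ e = F (insert e J) - c * w (insert e J) := by
    intro e
    simp only [hφ, mul_sub, hFw]; ring
  have hcw : c * w J = F J := by rw [hc, mul_comm, hFw]
  have hcard : ∀ e ∈ Jᶜ, #(insert e J) + (k + 1) = r := by
    intro e he
    rw [card_insert_of_notMem (mem_compl.1 he)]; omega
  -- the first moment vanishes
  have hz : ∑ e ∈ Jᶜ, w (insert e J) * φ e = 0 := by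
    simp only [hwφ, sum_sub_distrib, ← mul_sum]
    rw [hF, hw, sum_FJ f J hk, sum_WJ J hk, ← hF, ← hw, ← hcw]; ring
  -- sums over the second element
  have hF2 : ∀ e ∈ Jᶜ, ∑ g ∈ (insert e J)ᶜ, F (insert g (insert e J)) =
      (k + 1) * F (insert e J) := by
    intro e he
    have := sum_FJ (Ind := Ind) f (insert e J) (hcard e he)
    push_cast at this
    exact this
  have hW2 : ∀ e ∈ Jᶜ, ∑ g ∈ (insert e J)ᶜ, w (insert g (insert e J)) =
      (k + 1) * w (insert e J) := by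
    intro e he
    have := sum_WJ (Ind := Ind) (insert e J) (hcard e he)
    push_cast at this
    exact this
  have hF1 : ∑ e ∈ Jᶜ, F (insert e J) = (k + 2) * F J := by
    have := sum_FJ (Ind := Ind) f J hk
    push_cast at this
    exact this
  have hW1 : ∑ e ∈ Jᶜ, w (insert e J) = (k + 2) * w J := by
    have := sum_WJ (Ind := Ind) J hk
    push_cast at this
    exact this
  -- the quadratic form is nonpositive
  have hqf : ∑ e ∈ Jᶜ, ∑ g ∈ (insert e J)ᶜ, w (insert g (insert e J)) * φ e * φ g ≤ 0 := by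
    have h1 := hM.hr k J hJ hk φ
    have h2 : ∑ e, ∑ g, AJ Ind r J e g * φ g = 0 := by
      rw [rows_AJ J (k := k + 1) (by omega)]
      have h3 : ∑ B ∈ BJ Ind r J, ∑ e ∈ B \ J, φ e = ∑ e ∈ Jᶜ, w (insert e J) * φ e := by
        rw [← dc (fun e _ => φ e)]
        refine sum_congr rfl fun e _ => ?_
        rw [sum_const, nsmul_eq_mul]; rfl
      rw [h3, hz, mul_zero]
    rw [h2, qf_AJ_one J (k := k + 1) (by omega), qf_AJ'] at h1
    push_cast at h1
    have h3 : (0:ℝ) < (k + 1 + 1) * (k + 1) * W Ind r J := by positivity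
    have h4 : (∑ e ∈ Jᶜ, ∑ g ∈ (insert e J)ᶜ, w (insert g (insert e J)) * φ e * φ g) *
      ((k + 1 + 1) * (k + 1) * W Ind r J) ≤ 0 := by
      refine h1.trans ?_; norm_num
    by_contra hcon
    push Not at hcon
    have := mul_pos hcon h3
    linarith
  set V := ∑ e ∈ Jᶜ, w (insert e J) * φ e ^ 2 with hV
  -- first sum
  have hA1 : ∑ e ∈ Jᶜ, F (insert e J) ^ 2 / w (insert e J) = V + (k + 2) * (F J ^ 2 / w J) := by
    have h1 : ∀ e, F (insert e J) ^ 2 / w (insert e J) =
        w (insert e J) * φ e ^ 2 + 2 * c * (w (insert e J) * φ e) + c ^ 2 * w (insert e J) := by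
      intro e
      have h2 : F (insert e J) = w (insert e J) * (φ e + c) := by
        simp only [hφ, sub_add_cancel, hFw]
      by_cases h : w (insert e J) = 0
      · rw [h]; simp
      · rw [h2]; field_simp; ring
    simp only [h1, sum_add_distrib, ← mul_sum]
    rw [hz, hW1, ← hV, ← hcw]
    field_simp
    ring
  -- second sum
  have hA2 : ∑ e ∈ Jᶜ, ∑ g ∈ (insert e J)ᶜ, F (insert g (insert e J)) ^ 2 /
        w (insert g (insert e J)) ≥
      ∑ e ∈ Jᶜ, ∑ g ∈ (insert e J)ᶜ, (2 * F (insert g (insert e J)) * (c + φ e + φ g) -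
        w (insert g (insert e J)) * (c + φ e + φ g) ^ 2) := by
    refine sum_le_sum fun e _ => sum_le_sum fun g _ => ?_
    set X := insert g (insert e J)
    by_cases h : w X = 0
    · rw [h, hF, FJ_of_W_zero f h]; simp
    · have hp : 0 < w X := lt_of_le_of_ne (W_nonneg _) (Ne.symm h)
      rw [le_div_iff₀ hp]
      nlinarith [sq_nonneg (F X - w X * (c + φ e + φ g))]
  have hA3 : ∑ e ∈ Jᶜ, ∑ g ∈ (insert e J)ᶜ, (2 * F (insert g (insert e J)) * (c + φ e + φ g) -
        w (insert g (insert e J)) * (c + φ e + φ g) ^ 2) =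
      2 * c * ((k + 1) * ((k + 2) * F J)) + 4 * ((k + 1) * ∑ e ∈ Jᶜ, F (insert e J) * φ e) -
      (c ^ 2 * ((k + 1) * ((k + 2) * w J)) + 4 * c * ((k + 1) * 0) + 2 * ((k + 1) * V) +
        2 * ∑ e ∈ Jᶜ, ∑ g ∈ (insert e J)ᶜ, w (insert g (insert e J)) * φ e * φ g) := by
    have s1 : ∑ e ∈ Jᶜ, ∑ g ∈ (insert e J)ᶜ, F (insert g (insert e J)) = (k + 1) * ((k + 2) * F J) := by
      rw [sum_congr rfl hF2, ← mul_sum, hF1]
    have s2 : ∑ e ∈ Jᶜ, ∑ g ∈ (insert e J)ᶜ, F (insert g (insert e J)) * φ e =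
        (k + 1) * ∑ e ∈ Jᶜ, F (insert e J) * φ e := by
      rw [mul_sum]
      refine sum_congr rfl fun e he => ?_
      rw [← sum_mul, hF2 e he]; ring
    have s3 : ∑ e ∈ Jᶜ, ∑ g ∈ (insert e J)ᶜ, F (insert g (insert e J)) * φ g =
        (k + 1) * ∑ e ∈ Jᶜ, F (insert e J) * φ e := by
      rw [← s2, sum_swap]
      refine sum_congr rfl fun e _ => sum_congr rfl fun g _ => ?_
      rw [insert_comm]
    have s4 : ∑ e ∈ Jᶜ, ∑ g ∈ (insert e J)ᶜ, w (insert g (insert e J)) = (k + 1) * ((k + 2) * w J) := by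
      rw [sum_congr rfl hW2, ← mul_sum, hW1]
    have s5 : ∑ e ∈ Jᶜ, ∑ g ∈ (insert e J)ᶜ, w (insert g (insert e J)) * φ e = (k + 1) * 0 := by
      rw [← hz, mul_sum]
      refine sum_congr rfl fun e he => ?_
      rw [← sum_mul, hW2 e he]; ring
    have s6 : ∑ e ∈ Jᶜ, ∑ g ∈ (insert e J)ᶜ, w (insert g (insert e J)) * φ g = (k + 1) * 0 := by
      rw [← s5, sum_swap]
      refine sum_congr rfl fun e _ => sum_congr rfl fun g _ => ?_
      rw [insert_comm]
    have s7 : ∑ e ∈ Jᶜ, ∑ g ∈ (insert e J)ᶜ, w (insert g (insert e J)) * φ e ^ 2 = (k + 1) * V := by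
      rw [hV, mul_sum]
      refine sum_congr rfl fun e he => ?_
      rw [← sum_mul, hW2 e he]; ring
    have s8 : ∑ e ∈ Jᶜ, ∑ g ∈ (insert e J)ᶜ, w (insert g (insert e J)) * φ g ^ 2 = (k + 1) * V := by
      rw [← s7, sum_swap]
      refine sum_congr rfl fun e _ => sum_congr rfl fun g _ => ?_
      rw [insert_comm]
    have s9 : ∀ e g : α, 2 * F (insert g (insert e J)) * (c + φ e + φ g) -
        w (insert g (insert e J)) * (c + φ e + φ g) ^ 2 =
        2 * c * F (insert g (insert e J)) + 2 * (F (insert g (insert e J)) * φ e) +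
        2 * (F (insert g (insert e J)) * φ g) - (c ^ 2 * w (insert g (insert e J)) +
          2 * c * (w (insert g (insert e J)) * φ e) + 2 * c * (w (insert g (insert e J)) * φ g) +
          w (insert g (insert e J)) * φ e ^ 2 + w (insert g (insert e J)) * φ g ^ 2 +
          2 * (w (insert g (insert e J)) * φ e * φ g)) := by
      intro e g; ring
    simp only [s9, sum_sub_distrib, sum_add_distrib, ← mul_sum]
    rw [s1, s2, s3, s4, s5, s6, s7, s8]
    ring
  have hFφ : ∑ e ∈ Jᶜ, F (insert e J) * φ e = V := by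
    have h1 : ∀ e, F (insert e J) * φ e = w (insert e J) * φ e ^ 2 + c * (w (insert e J) * φ e) := by
      intro e
      have h2 : F (insert e J) = w (insert e J) * (φ e + c) := by
        simp only [hφ, sub_add_cancel, hFw]
      rw [h2]; ring
    simp only [h1, sum_add_distrib, ← mul_sum]
    rw [hz, ← hV]; ring
  rw [hFφ] at hA3
  rw [hA1]
  have hcF : c * F J = F J ^ 2 / w J := by rw [hc]; ring
  have hccw : c ^ 2 * w J = F J ^ 2 / w J := by rw [← hcF, ← hcw]; ring
  have h5 : 2 * c * ((k + 1) * ((k + 2) * F J)) = 2 * (k + 1) * (k + 2) * (F J ^ 2 / w J) := by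
    rw [← hcF]; ring
  have h6 : c ^ 2 * ((k + 1) * ((k + 2) * w J)) = (k + 1) * (k + 2) * (F J ^ 2 / w J) := by
    rw [← hccw]; ring
  rw [h5, h6] at hA3
  linarith

/-- summing over sets one element larger -/
theorem sum_insert_card (h : Finset α → ℝ) (i : ℕ) :
    ∑ J ∈ powersetCard i (univ : Finset α), ∑ e ∈ Jᶜ, h (insert e J) =
      (i + 1) * ∑ J ∈ powersetCard (i + 1) (univ : Finset α), h J := by
  have h1 : (i + 1) * ∑ J ∈ powersetCard (i + 1) (univ : Finset α), h J =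
      ∑ J ∈ powersetCard (i + 1) (univ : Finset α), ∑ e ∈ J, h J := by
    rw [mul_sum]
    refine sum_congr rfl fun J hJ => ?_
    rw [sum_const, nsmul_eq_mul, (mem_powersetCard.1 hJ).2]; push_cast; ring
  rw [h1, sum_sigma', sum_sigma']
  refine sum_bij' (fun x _ => ⟨insert x.2 x.1, x.2⟩) (fun x _ => ⟨x.1.erase x.2, x.2⟩) ?_ ?_ ?_ ?_ ?_
  · rintro ⟨J, e⟩ hx
    simp only [mem_sigma, mem_powersetCard, subset_univ, true_and, mem_compl] at hx ⊢
    exact ⟨by rw [card_insert_of_notMem hx.2, hx.1], mem_insert_self _ _⟩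
  · rintro ⟨J, e⟩ hx
    simp only [mem_sigma, mem_powersetCard, subset_univ, true_and, mem_compl] at hx ⊢
    exact ⟨by rw [card_erase_of_mem hx.2, hx.1]; rfl, notMem_erase _ _⟩
  · rintro ⟨J, e⟩ hx
    simp only [mem_sigma, mem_powersetCard, subset_univ, true_and, mem_compl] at hx ⊢
    simp [erase_insert hx.2]
  · rintro ⟨J, e⟩ hx
    simp only [mem_sigma, mem_powersetCard, subset_univ, true_and, mem_compl] at hx ⊢
    simp [insert_erase hx.2]
  · rintro ⟨J, e⟩ _; rfl

/-- convexity of the normalised energies -/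
theorem Mtd.convex (hM : Mtd Ind r) (f : Finset α → ℝ) {i : ℕ} (hi : i + 2 ≤ r) :
    0 ≤ aE Ind r f (i + 2) / r.choose (i + 2) - 2 * (aE Ind r f (i + 1) / r.choose (i + 1)) +
      aE Ind r f i / r.choose i := by
  obtain ⟨k, rfl⟩ := Nat.exists_eq_add_of_le hi
  set R := i + 2 + k with hR
  have h0 : 0 ≤ ∑ J ∈ powersetCard i (univ : Finset α),
      ((∑ e ∈ Jᶜ, ∑ g ∈ (insert e J)ᶜ, FJ Ind R f (insert g (insert e J)) ^ 2 /
        W Ind R (insert g (insert e J))) -
      2 * (k + 1) * (∑ e ∈ Jᶜ, FJ Ind R f (insert e J) ^ 2 / W Ind R (insert e J)) +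
      (k + 2) * (k + 1) * (FJ Ind R f J ^ 2 / W Ind R J)) := by
    refine sum_nonneg fun J hJ => hM.garland f ?_
    rw [(mem_powersetCard.1 hJ).2]; omega
  rw [sum_add_distrib, sum_sub_distrib, ← mul_sum, ← mul_sum,
    sum_insert_card (fun X => FJ Ind R f X ^ 2 / W Ind R X),
    sum_insert_card (fun X => ∑ g ∈ Xᶜ, FJ Ind R f (insert g X) ^ 2 / W Ind R (insert g X)),
    sum_insert_card (fun X => FJ Ind R f X ^ 2 / W Ind R X)] at h0
  have e0 : ∑ J ∈ powersetCard i (univ : Finset α), FJ Ind R f J ^ 2 / W Ind R J = aE Ind R f i := rfl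
  have e1 : ∑ J ∈ powersetCard (i + 1) (univ : Finset α), FJ Ind R f J ^ 2 / W Ind R J =
    aE Ind R f (i + 1) := rfl
  have e2 : ∑ J ∈ powersetCard (i + 1 + 1) (univ : Finset α), FJ Ind R f J ^ 2 / W Ind R J =
    aE Ind R f (i + 2) := rfl
  rw [e0, e1, e2] at h0
  -- binomials
  have c1 : (R.choose (i + 1) : ℝ) * (i + 1) = R.choose i * (k + 2) := by
    have := Nat.choose_succ_right_eq R i
    have h : R - i = k + 2 := by omega
    rw [h] at this
    exact_mod_cast this
  have c2 : (R.choose (i + 2) : ℝ) * (i + 2) = R.choose (i + 1) * (k + 1) := by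
    have := Nat.choose_succ_right_eq R (i + 1)
    have h : R - (i + 1) = k + 1 := by omega
    rw [h] at this
    exact_mod_cast this
  have p0 : (0:ℝ) < R.choose i := by exact_mod_cast Nat.choose_pos (by omega)
  have p1 : (0:ℝ) < R.choose (i + 1) := by exact_mod_cast Nat.choose_pos (by omega)
  have p2 : (0:ℝ) < R.choose (i + 2) := by exact_mod_cast Nat.choose_pos (by omega)
  set x := aE Ind R f i
  set y := aE Ind R f (i + 1)
  set z := aE Ind R f (i + 2)
  set b0 : ℝ := ((R.choose i : ℕ) : ℝ)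
  set b1 : ℝ := ((R.choose (i + 1) : ℕ) : ℝ)
  set b2 : ℝ := ((R.choose (i + 2) : ℕ) : ℝ)
  have hb1 : b1 = b0 * (k + 2) / (i + 1) := by rw [← c1]; field_simp
  have hb2 : b2 = b0 * (k + 2) * (k + 1) / ((i + 1) * (i + 2)) := by
    have : b2 = b1 * (k + 1) / (i + 2) := by rw [← c2]; field_simp
    rw [this, hb1]; field_simp
  have : z / b2 - 2 * (y / b1) + x / b0 = ((i + 1) * ((i + 1 + 1) * z) -
      2 * (k + 1) * ((i + 1) * y) + (k + 2) * (k + 1) * x) / (b0 * (k + 2) * (k + 1)) := by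
    rw [hb1, hb2]
    field_simp
    ring
  rw [this]
  push_cast at h0
  exact div_nonneg h0 (by positivity)

theorem convex_end (E : ℕ → ℝ) (r : ℕ) (h0 : E 0 = 0)
    (h : ∀ i, i + 2 ≤ r → 0 ≤ E (i + 2) - 2 * E (i + 1) + E i) :
    ∀ i, i + 1 ≤ r → (i + 1) * E i ≤ i * E (i + 1) := by
  intro i
  induction i with
  | zero => intro _; simp [h0]
  | succ i ih =>
    intro hi
    have h1 := ih (by omega)
    have h2 := h i (by omega)
    push_cast
    have : (0:ℝ) ≤ i := by positivity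
    nlinarith

theorem BJ_empty : BJ Ind r ∅ = Bs Ind r := by
  unfold BJ; ext B; simp

theorem BJ_full {J : Finset α} (hJ : #J = r) : BJ Ind r J = (Bs Ind r).filter (· = J) := by
  ext B
  rw [mem_BJ, mem_filter, mem_Bs]
  constructor
  · rintro ⟨h1, h2⟩
    exact ⟨h1, (eq_of_subset_of_card_le h2 (by omega)).symm⟩
  · rintro ⟨h1, h2⟩
    exact ⟨h1, by rw [h2]⟩

theorem aE_full (f : Finset α → ℝ) : aE Ind r f r = ∑ B ∈ Bs Ind r, f B ^ 2 := by
  unfold aE
  have h1 : Bs Ind r ⊆ powersetCard r (univ : Finset α) := by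
    intro B hB
    rw [mem_Bs] at hB
    simp [mem_powersetCard, hB.2]
  rw [← sum_subset h1]
  · refine sum_congr rfl fun B hB => ?_
    have h2 : BJ Ind r B = {B} := by
      rw [BJ_full (mem_Bs.1 hB).2]
      ext X
      rw [mem_filter, mem_singleton]
      exact ⟨fun h => h.2, fun h => ⟨h ▸ hB, h⟩⟩
    simp [FJ, W, h2]
  · intro B hB hB2
    have h2 : BJ Ind r B = ∅ := by
      rw [BJ_full (by simpa [mem_powersetCard] using hB)]
      rw [eq_empty_iff_forall_notMem]
      intro X hX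
      rw [mem_filter] at hX
      exact hB2 (hX.2 ▸ hX.1)
    simp [FJ, W, h2]

/-- the energy of the last level but one -/
theorem Mtd.energy (hM : Mtd Ind r) (f : Finset α → ℝ) (hf : ∑ B ∈ Bs Ind r, f B = 0) {i : ℕ}
    (hi : i + 1 = r) : aE Ind r f i ≤ i * ∑ B ∈ Bs Ind r, f B ^ 2 := by
  have h1 := convex_end (fun j => aE Ind r f j / r.choose j) r (by
      simp [aE, FJ, BJ_empty, hf]) (fun j hj => hM.convex f hj) i (by omega)
  rw [hi, aE_full, Nat.choose_self] at h1
  have h2 : r.choose i = i + 1 := by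
    rw [← hi, Nat.choose_succ_self_right]
  rw [h2] at h1
  push_cast at h1
  have : ((i:ℝ) + 1) * (aE Ind r f i / (i + 1)) = aE Ind r f i := by field_simp
  rw [this] at h1
  simpa using h1

/-- a move of the exchange walk -/
noncomputable def mv (Ind : Finset α → Prop) (e f : α) (S : Finset α) : Finset α :=
  open scoped Classical in
  if e ∈ S ∧ f ∉ S ∧ Ind (insert f (S.erase e)) then insert f (S.erase e) else S

/-- pairs of a large independent set and a basis above it -/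
theorem sum_erase_card {i : ℕ} (hi : i + 1 = r) (h : Finset α → Finset α → ℝ) :
    ∑ J ∈ powersetCard i (univ : Finset α), ∑ B ∈ BJ Ind r J, h J B =
      ∑ B ∈ Bs Ind r, ∑ e ∈ B, h (B.erase e) B := by
  rw [sum_sigma', sum_sigma']
  symm
  refine sum_bij (fun x _ => ⟨x.1.erase x.2, x.1⟩) ?_ ?_ ?_ ?_
  · rintro ⟨B, e⟩ hx
    simp only [mem_sigma, mem_powersetCard, subset_univ, true_and, mem_Bs, mem_BJ] at hx ⊢
    exact ⟨by rw [card_erase_of_mem hx.2, hx.1.2]; omega, hx.1, erase_subset _ _⟩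
  · rintro ⟨B, e⟩ hx ⟨B', e'⟩ hx' heq
    simp only [mem_sigma] at hx hx'
    simp only [Sigma.mk.injEq, heq_eq_eq] at heq
    obtain ⟨h1, h2⟩ := heq
    subst h2
    have h3 : e = e' := by
      by_contra hne
      have h4 : e ∈ B.erase e' := mem_erase.2 ⟨hne, hx.2⟩
      rw [← h1] at h4
      exact notMem_erase _ _ h4
    subst h3
    rfl
  · rintro ⟨J, B⟩ hx
    simp only [mem_sigma, mem_powersetCard, subset_univ, true_and, mem_BJ] at hx
    obtain ⟨h1, ⟨h2, h3⟩, h4⟩ := hx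
    have h5 : #(B \ J) = 1 := by rw [card_sdiff_of_subset h4]; omega
    obtain ⟨e, he⟩ := card_eq_one.1 h5
    have heB : e ∈ B := (mem_sdiff.1 (he ▸ mem_singleton_self e)).1
    refine ⟨⟨B, e⟩, ?_, ?_⟩
    · simp only [mem_sigma, mem_Bs]
      exact ⟨⟨h2, h3⟩, heB⟩
    · simp only [Sigma.mk.injEq, heq_eq_eq, and_true]
      ext x
      rw [mem_erase]
      constructor
      · rintro ⟨h6, h7⟩
        by_contra h8
        have : x ∈ B \ J := mem_sdiff.2 ⟨h7, h8⟩
        rw [he, mem_singleton] at this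
        exact h6 this
      · intro h6
        refine ⟨?_, h4 h6⟩
        rintro rfl
        have : x ∈ B \ J := he ▸ mem_singleton_self x
        exact (mem_sdiff.1 this).2 h6
  · rintro ⟨B, e⟩ _; rfl

/-- the bases above a set of rank one less -/
theorem Mtd.sum_BJ_insert {J : Finset α} (hJ : #J + 1 = r) (g : Finset α → ℝ) :
    ∑ B ∈ BJ Ind r J, g B = ∑ e ∈ Jᶜ, open scoped Classical in
      if Ind (insert e J) then g (insert e J) else 0 := by
  classical
  have h1 : ∑ B ∈ BJ Ind r J, g B = ∑ B ∈ BJ Ind r J, ∑ e ∈ B \ J, g B := by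
    refine sum_congr rfl fun B hB => ?_
    have h3 := card_sdiff_BJ hB
    have h4 : #(B \ J) = 1 := by omega
    rw [sum_const, h4, one_smul]
  rw [h1, ← dc (fun _ B => g B)]
  refine sum_congr rfl fun e he => ?_
  rw [mem_compl] at he
  have hc : #(insert e J) = r := by rw [card_insert_of_notMem he]; omega
  rw [BJ_full hc]
  by_cases hi : Ind (insert e J)
  · rw [if_pos hi]
    have : (Bs Ind r).filter (· = insert e J) = {insert e J} := by
      ext X
      rw [mem_filter, mem_singleton, mem_Bs]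
      exact ⟨fun h => h.2, fun h => ⟨⟨h ▸ hi, h ▸ hc⟩, h⟩⟩
    rw [this, sum_singleton]
  · rw [if_neg hi]
    refine sum_eq_zero fun X hX => ?_
    rw [mem_filter, mem_Bs] at hX
    exact absurd (hX.2 ▸ hX.1.1) hi

/-- **The gap of the basis exchange graph.** -/
theorem Mtd.gap (hM : Mtd Ind r) (f : Finset α → ℝ) (hf : ∑ B ∈ Bs Ind r, f B = 0) :
    2 * ∑ B ∈ Bs Ind r, f B ^ 2 ≤
      ∑ B ∈ Bs Ind r, ∑ e, ∑ g, (f B - f (mv Ind e g B)) ^ 2 := by
  classical
  rcases Nat.eq_zero_or_pos r with hr | hr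
  · -- rank zero
    have h1 : ∀ B ∈ Bs Ind r, B = ∅ := by
      intro B hB
      rw [mem_Bs, hr] at hB
      exact card_eq_zero.1 hB.2
    have h2 : ∑ B ∈ Bs Ind r, f B ^ 2 = 0 := by
      have h3 : ∑ B ∈ Bs Ind r, f B ^ 2 = f ∅ * ∑ B ∈ Bs Ind r, f B := by
        rw [mul_sum]
        refine sum_congr rfl fun B hB => ?_
        rw [h1 B hB]; ring
      rw [h3, hf, mul_zero]
    rw [h2, mul_zero]
    exact sum_nonneg fun _ _ => sum_nonneg fun _ _ => sum_nonneg fun _ _ => sq_nonneg _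
  obtain ⟨i, hi⟩ : ∃ i, i + 1 = r := ⟨r - 1, by omega⟩
  have he := hM.energy f hf hi
  set N2 := ∑ B ∈ Bs Ind r, f B ^ 2 with hN2
  -- sum of squares counted through the sets below
  have h1 : ∑ J ∈ powersetCard i (univ : Finset α), ∑ B ∈ BJ Ind r J, f B ^ 2 = (i + 1) * N2 := by
    rw [sum_erase_card hi (fun _ B => f B ^ 2), hN2, mul_sum]
    refine sum_congr rfl fun B hB => ?_
    rw [sum_const, nsmul_eq_mul, (mem_Bs.1 hB).2, ← hi]; push_cast; ring
  have h2 : ∀ J : Finset α, 2 * (∑ B ∈ BJ Ind r J, f B ^ 2 - FJ Ind r f J ^ 2 / W Ind r J) ≤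
      ∑ B ∈ BJ Ind r J, ∑ B' ∈ BJ Ind r J, (f B - f B') ^ 2 := by
    intro J
    have h3 : ∑ B ∈ BJ Ind r J, ∑ B' ∈ BJ Ind r J, (f B - f B') ^ 2 =
        2 * (W Ind r J * ∑ B ∈ BJ Ind r J, f B ^ 2) - 2 * FJ Ind r f J ^ 2 := by
      have h4 : ∀ B B', (f B - f B') ^ 2 = f B ^ 2 + f B' ^ 2 - 2 * (f B * f B') := by
        intro B B'; ring
      simp only [h4, sum_sub_distrib, sum_add_distrib, sum_const, nsmul_eq_mul, ← mul_sum, ← sum_mul]
      unfold FJ W
      ring
    rw [h3]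
    set w := W Ind r J with hw
    set F := FJ Ind r f J with hF
    set Q := ∑ B ∈ BJ Ind r J, f B ^ 2 with hQ
    by_cases h0 : BJ Ind r J = ∅
    · have hQ0 : Q = 0 := by rw [hQ, h0, sum_empty]
      have hF0 : F = 0 := by rw [hF, FJ, h0, sum_empty]
      rw [hQ0, hF0]; simp
    · have hw1 : 1 ≤ w := by
        rw [hw, W]
        have : 0 < #(BJ Ind r J) := card_pos.2 (nonempty_iff_ne_empty.2 h0)
        exact_mod_cast this
      have hcs : F ^ 2 ≤ w * Q := by
        rw [hF, hw, hQ]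
        exact sq_sum_le_card_mul_sum_sq
      have h5 : F ^ 2 / w ≤ Q := by rw [div_le_iff₀ (by linarith)]; linarith
      have h6 : F ^ 2 = w * (F ^ 2 / w) := by field_simp
      nlinarith
  have h3 : 2 * N2 ≤ ∑ J ∈ powersetCard i (univ : Finset α),
      ∑ B ∈ BJ Ind r J, ∑ B' ∈ BJ Ind r J, (f B - f B') ^ 2 := by
    refine le_trans ?_ (sum_le_sum fun J _ => h2 J)
    rw [← mul_sum, sum_sub_distrib, h1]
    have : ∑ J ∈ powersetCard i (univ : Finset α), FJ Ind r f J ^ 2 / W Ind r J = aE Ind r f i := rfl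
    rw [this]
    linarith
  refine h3.trans ?_
  rw [sum_erase_card hi (fun J B => ∑ B' ∈ BJ Ind r J, (f B - f B') ^ 2)]
  refine sum_le_sum fun B hB => ?_
  rw [mem_Bs] at hB
  have h4 : ∑ e ∈ B, ∑ g, (f B - f (mv Ind e g B)) ^ 2 ≤ ∑ e, ∑ g, (f B - f (mv Ind e g B)) ^ 2 :=
    sum_le_sum_of_subset_of_nonneg (subset_univ _)
      (fun _ _ _ => sum_nonneg fun _ _ => sq_nonneg _)
  refine le_trans (sum_le_sum fun e he => ?_) h4
  have hc : #(B.erase e) + 1 = r := by rw [card_erase_of_mem he, hB.2]; omega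
  rw [Mtd.sum_BJ_insert hc]
  have h5 : ∑ g ∈ (B.erase e)ᶜ, (f B - f (mv Ind e g B)) ^ 2 ≤ ∑ g, (f B - f (mv Ind e g B)) ^ 2 :=
    sum_le_sum_of_subset_of_nonneg (subset_univ _) (fun _ _ _ => sq_nonneg _)
  refine le_trans (sum_le_sum fun g hg => ?_) h5
  rw [mem_compl, mem_erase, not_and] at hg
  by_cases hge : g = e
  · rw [hge, insert_erase he]
    have : (if Ind B then (f B - f B) ^ 2 else 0) = 0 := by split_ifs <;> simp
    rw [this]
    exact sq_nonneg _
  · have hgB := hg hge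
    by_cases hI : Ind (insert g (B.erase e))
    · rw [if_pos hI]
      have : mv Ind e g B = insert g (B.erase e) := by
        unfold mv
        rw [if_pos ⟨he, hgB, hI⟩]
      rw [this]
    · rw [if_neg hI]
      exact sq_nonneg _

end

end Pool.Agent.Run7.h997
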