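import Pool.Agent.Run7.h997.Mtd

/-!
# The Hodge-Riemann inequality for the links of a matroid, and the gap of the exchange graph
-/

namespace Pool.Agent.Run7.h997

open Finset

section

variable {α : Type} [Fintype α] [DecidableEq α] {Ind : Finset α → Prop} {r : ℕ}

/-- an independent set that is not a basis can be enlarged -/
theorem Mtd.exists_insert (hM : Mtd Ind r) {J : Finset α} (hJ : Ind J) (h : #J < r) :
    ∃ x, x ∉ J ∧ Ind (insert x J) := by
  obtain ⟨B, hB, hr⟩ := hM.base
  obtain ⟨x, _, hx, hi⟩ := hM.aug J B hJ hB (by omega)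
  exact ⟨x, hx, hi⟩

/-- connectedness of the links -/
theorem Mtd.conn (hM : Mtd Ind r) {J : Finset α} {k : ℕ} (hk : #J + (k + 2) = r) {e f : α}
    (he : e ∉ J) (hei : Ind (insert e J)) (hf : f ∉ J) (hfi : Ind (insert f J)) :
    e = f ∨ 0 < AJ Ind r J e f ∨ ∃ g, 0 < AJ Ind r J e g ∧ 0 < AJ Ind r J g f := by
  by_cases hef : e = f
  · exact Or.inl hef
  right
  by_cases h : Ind (insert f (insert e J))
  · left
    rw [AJ_of_ne he hf hef]
    exact hM.W_pos h
  right
  have hc1 : #(insert e J) = #J + 1 := card_insert_of_notMem he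
  have hc2 : #(insert f J) = #J + 1 := card_insert_of_notMem hf
  obtain ⟨g, hg, hgi⟩ := hM.exists_insert hei (by omega)
  have hc3 : #(insert g (insert e J)) = #J + 2 := by rw [card_insert_of_notMem hg]; omega
  obtain ⟨x, hx, hxf, hxi⟩ := hM.aug (insert f J) (insert g (insert e J)) hfi hgi (by omega)
  rw [mem_insert, mem_insert] at hx
  rw [mem_insert, not_or] at hxf hg
  rcases hx with rfl | rfl | hx
  · refine ⟨x, ?_, ?_⟩
    · rw [AJ_of_ne he hg.2 (Ne.symm hg.1)]
      exact hM.W_pos hgi
    · rw [AJ_of_ne hg.2 hf hxf.1]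
      apply hM.W_pos
      rwa [insert_comm]
  · exact absurd (by rwa [insert_comm]) h
  · exact absurd hx hxf.2

/-- parallel elements in a link of rank two -/
def par (Ind : Finset α → Prop) (J : Finset α) (e f : α) : Prop :=
  e = f ∨ ¬ Ind (insert f (insert e J))

theorem par_symm {J : Finset α} {e f : α} (h : par Ind J e f) : par Ind J f e := by
  rcases h with h | h
  · exact Or.inl h.symm
  · right; rwa [insert_comm]

theorem Mtd.par_trans (hM : Mtd Ind r) {J : Finset α} (hk : #J + 2 = r) {e f g : α}
    (he : e ∉ J) (hf : f ∉ J) (hfi : Ind (insert f J))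
    (h1 : par Ind J e f) (h2 : par Ind J f g) : par Ind J e g := by
  by_contra hcon
  unfold par at hcon
  push Not at hcon
  obtain ⟨heg, hi⟩ := hcon
  rcases h1 with rfl | h1
  · rcases h2 with rfl | h2
    · exact heg rfl
    · exact h2 hi
  rcases h2 with rfl | h2
  · exact h1 hi
  have hcf : #(insert f J) = #J + 1 := card_insert_of_notMem hf
  have hce : #(insert e J) = #J + 1 := card_insert_of_notMem he
  by_cases hg : g ∈ J
  · have hfe : #(insert f (insert e J)) ≤ #J + 2 := by
      refine (card_insert_le _ _).trans ?_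
      omega
    -- `g ∈ J`: then `insert g (insert f J) = insert f J` is independent
    exact h2 (by rw [insert_eq_of_mem (mem_insert_of_mem hg)]; exact hfi)
  have hcg : #(insert g (insert e J)) = #J + 2 := by
    rw [card_insert_of_notMem (by rw [mem_insert, not_or]; exact ⟨Ne.symm heg, hg⟩)]; omega
  obtain ⟨x, hx, hxf, hxi⟩ := hM.aug (insert f J) (insert g (insert e J)) hfi hi (by omega)
  rw [mem_insert, mem_insert] at hx
  rw [mem_insert, not_or] at hxf
  rcases hx with rfl | rfl | hx
  · exact h2 hxi
  · exact h1 (by rwa [insert_comm])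
  · exact hxf.2 hx

/-- the reversed Cauchy-Schwarz inequality for the link of `J` -/
def HRJ (Ind : Finset α → Prop) (r : ℕ) (J : Finset α) : Prop :=
  ∀ φ : α → ℝ, qf (AJ Ind r J) φ * qf (AJ Ind r J) (fun _ => 1) ≤
    (∑ e, ∑ f, AJ Ind r J e f * φ f) ^ 2

theorem qf_AJ_one_nonneg (J : Finset α) : 0 ≤ qf (AJ Ind r J) (fun _ => 1) := by
  unfold qf
  exact sum_nonneg fun e _ => sum_nonneg fun f _ => by
    have := AJ_nonneg (Ind := Ind) (r := r) J e f
    simpa using this

theorem Mtd.hr_two (hM : Mtd Ind r) {J : Finset α} (hJ : Ind J) (hk : #J + 2 = r) :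
    HRJ Ind r J := by
  classical
  set V := univ.filter (fun e => e ∉ J ∧ Ind (insert e J)) with hV
  have hmV : ∀ e, e ∈ V ↔ e ∉ J ∧ Ind (insert e J) := fun e => by simp [hV]
  -- the matrix
  have hA : ∀ e f, AJ Ind r J e f = (if e ∈ V then (1:ℝ) else 0) * (if f ∈ V then 1 else 0) -
      (if e ∈ V then 1 else 0) * (if f ∈ V then 1 else 0) * (if par Ind J e f then 1 else 0) := by
    intro e f
    by_cases he : e ∈ J
    · rw [AJ_left f he]
      have : e ∉ V := fun h => ((hmV e).1 h).1 he
      simp [this]
    by_cases hf : f ∈ J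
    · rw [AJ_symm, AJ_left e hf]
      have : f ∉ V := fun h => ((hmV f).1 h).1 hf
      simp [this]
    by_cases hef : e = f
    · subst hef
      rw [AJ_self]
      have : par Ind J e e := Or.inl rfl
      simp [this]
    rw [AJ_of_ne he hf hef]
    by_cases hi : Ind (insert f (insert e J))
    · have h1 : W Ind r (insert f (insert e J)) = 1 := by
        unfold W
        have hc : #(insert f (insert e J)) = r := by
          rw [card_insert_of_notMem (by rw [mem_insert, not_or]; exact ⟨Ne.symm hef, hf⟩),
            card_insert_of_notMem he]; omega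
        have : BJ Ind r (insert f (insert e J)) = {insert f (insert e J)} := by
          ext B
          rw [mem_BJ, mem_singleton]
          constructor
          · rintro ⟨⟨_, h2⟩, h3⟩
            exact (eq_of_subset_of_card_le h3 (by omega)).symm
          · rintro rfl
            exact ⟨⟨hi, hc⟩, Subset.rfl⟩
        rw [this]; simp
      rw [h1]
      have heV : e ∈ V := (hmV e).2 ⟨he, hM.hered _ _ hi (subset_insert _ _)⟩
      have hfV : f ∈ V := (hmV f).2 ⟨hf, hM.hered _ _ hi (insert_subset_insert _ (subset_insert _ _))⟩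
      have : ¬ par Ind J e f := by
        unfold par; push Not; exact ⟨hef, hi⟩
      simp [heV, hfV, this]
    · have h1 : W Ind r (insert f (insert e J)) = 0 := by
        have h2 := W_nonneg (Ind := Ind) (r := r) (insert f (insert e J))
        by_contra h3
        exact hi (hM.ind_of_W_pos (lt_of_le_of_ne h2 (Ne.symm h3)))
      rw [h1]
      have : par Ind J e f := Or.inr hi
      simp [this]
  -- classes
  set cl : α → Finset α := fun e => V.filter (fun f => par Ind J e f) with hcl
  have hpar : ∀ e ∈ V, ∀ f ∈ V, (par Ind J e f ↔ cl f = cl e) := by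
    intro e he f hf
    obtain ⟨he1, he2⟩ := (hmV e).1 he
    obtain ⟨hf1, hf2⟩ := (hmV f).1 hf
    constructor
    · intro h
      ext g
      simp only [hcl, mem_filter]
      constructor
      · rintro ⟨h1, h2⟩
        exact ⟨h1, hM.par_trans hk he1 hf1 hf2 h h2⟩
      · rintro ⟨h1, h2⟩
        exact ⟨h1, hM.par_trans hk hf1 he1 he2 (par_symm h) h2⟩
    · intro h
      have : f ∈ cl f := by
        simp only [hcl, mem_filter]
        exact ⟨hf, Or.inl rfl⟩
      rw [h] at this
      simp only [hcl, mem_filter] at this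
      exact this.2
  refine lorentz (AJ Ind r J) (AJ_symm J) (fun e => if e ∈ V then 1 else 0) ?_
    (qf_AJ_one_nonneg J) ?_
  · obtain ⟨x, hx, hxi⟩ := hM.exists_insert hJ (by omega)
    have hxV : x ∈ V := (hmV x).2 ⟨hx, hxi⟩
    refine sum_pos' (fun e _ => by split_ifs <;> norm_num) ⟨x, mem_univ x, by simp [hxV]⟩
  · intro ψ hψ
    have e1 : ∀ g : α → ℝ, ∑ e, (if e ∈ V then (1:ℝ) else 0) * g e = ∑ e ∈ V, g e := by
      intro g
      simp only [ite_mul, one_mul, zero_mul]
      rw [← sum_filter]
      congr 1
      ext; simp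
    rw [e1] at hψ
    have h1 : qf (AJ Ind r J) ψ = (∑ e ∈ V, ψ e) * (∑ e ∈ V, ψ e) -
        ∑ e ∈ V, ψ e * ∑ f ∈ V.filter (fun f => cl f = cl e), ψ f := by
      unfold qf
      simp only [hA]
      have h2 : ∀ e f, ((if e ∈ V then (1:ℝ) else 0) * (if f ∈ V then 1 else 0) -
          (if e ∈ V then 1 else 0) * (if f ∈ V then 1 else 0) * (if par Ind J e f then 1 else 0)) *
          ψ e * ψ f = (if e ∈ V then (1:ℝ) else 0) * (ψ e * ((if f ∈ V then (1:ℝ) else 0) * ψ f)) -
          (if e ∈ V then (1:ℝ) else 0) * (ψ e * ((if f ∈ V then (1:ℝ) else 0) *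
            (if par Ind J e f then ψ f else 0))) := by
        intro e f
        split_ifs <;> ring
      simp only [h2, sum_sub_distrib, ← mul_sum, e1]
      rw [← sum_mul]
      congr 1
      refine sum_congr rfl fun e he => ?_
      rw [← sum_filter]
      congr 1
      refine sum_congr ?_ fun _ _ => rfl
      ext f
      simp only [mem_filter]
      constructor
      · rintro ⟨h3, h4⟩
        exact ⟨h3, (hpar e he f h3).1 h4⟩
      · rintro ⟨h3, h4⟩
        exact ⟨h3, (hpar e he f h3).2 h4⟩
    rw [h1, hψ, mul_zero, zero_sub, neg_nonpos]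
    have h3 : ∑ e ∈ V, ψ e * ∑ f ∈ V.filter (fun f => cl f = cl e), ψ f =
        ∑ c ∈ V.image cl, (∑ f ∈ V.filter (fun f => cl f = c), ψ f) ^ 2 := by
      rw [← sum_fiberwise_of_maps_to (s := V) (t := V.image cl) (g := cl)
        (fun e he => mem_image_of_mem cl he)]
      refine sum_congr rfl fun c _ => ?_
      rw [sq, sum_mul]
      refine sum_congr rfl fun e he => ?_
      rw [(mem_filter.1 he).2]
    rw [h3]
    exact sum_nonneg fun c _ => sq_nonneg _

/-- **Hodge-Riemann inequality** (Anari, Liu, Oveis Gharan, Vinzant; Branden, Huh). -/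
theorem Mtd.hr (hM : Mtd Ind r) : ∀ (k : ℕ) (J : Finset α), Ind J → #J + (k + 2) = r →
    HRJ Ind r J := by
  classical
  intro k
  induction k with
  | zero => intro J hJ hk; exact hM.hr_two hJ hk
  | succ k ih =>
    intro J hJ hk
    set D : α → ℝ := fun e => if e ∈ J then 0 else (k + 2) * W Ind r (insert e J) with hD
    have hk' : #J + ((k + 1) + 2) = r := by omega
    have hD0 : ∀ e, 0 ≤ D e := by
      intro e
      by_cases he : e ∈ J
      · simp only [hD, if_pos he]; exact le_refl (0:ℝ)
      · simp only [hD, if_neg he]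
        exact mul_nonneg (by positivity) (W_nonneg _)
    -- cards of insertions
    have hcard : ∀ g, g ∉ J → #(insert g J) + (k + 2) = r := by
      intro g hg; rw [card_insert_of_notMem hg]; omega
    have hrow : ∀ e, ∑ f, AJ Ind r J e f = D e := by
      intro e
      by_cases he : e ∈ J
      · simp only [hD, if_pos he]
        exact sum_eq_zero fun f _ => AJ_left f he
      · simp only [hD, if_neg he]
        have h1 := row_AJ (Ind := Ind) (r := r) J (fun _ => (1:ℝ)) he
        simp only [mul_one] at h1
        rw [h1, W_eq, mul_sum]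
        refine sum_congr rfl fun B hB => ?_
        have h2 := card_sdiff_BJ hB
        have h3 := hcard e he
        have h4 : #(B \ insert e J) = k + 2 := by omega
        rw [sum_const, nsmul_eq_mul, h4]
        push_cast; ring
    have hstar : ∀ φ : α → ℝ, qf (AJ Ind r J) φ ≤
        ∑ e, (∑ f, AJ Ind r J e f * φ f) ^ 2 / D e := by
      intro φ
      have h1 := sum_qf_AJ (Ind := Ind) (r := r) J (k := k + 1) (by omega) φ
      have h2 : ∀ g ∈ Jᶜ, qf (AJ Ind r (insert g J)) φ ≤
          (k + 1) * ((∑ f, AJ Ind r J g f * φ f) ^ 2 / D g) := by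
        intro g hg
        rw [mem_compl] at hg
        by_cases hgi : Ind (insert g J)
        · have h3 := ih (insert g J) hgi (hcard g hg) φ
          have h4 := hcard g hg
          rw [qf_AJ_one (Ind := Ind) (insert g J) (k := k + 1) (by omega),
            rows_AJ (insert g J) (k := k + 1) (by omega), ← row_AJ J φ hg] at h3
          have h5 := hM.W_pos hgi
          set R := ∑ f, AJ Ind r J g f * φ f
          set P := qf (AJ Ind r (insert g J)) φ
          set w := W Ind r (insert g J)
          have hDg : D g = (k + 2) * w := by simp only [hD, if_neg hg]; rfl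
          rw [hDg]
          push_cast at h3
          have hk0 : (0:ℝ) ≤ k := by positivity
          have h6 : (k + 1) * (R ^ 2 / ((k + 2) * w)) = ((k + 1) * R) ^ 2 /
              ((k + 1 + 1) * (k + 1) * w) := by
            field_simp; ring
          rw [h6, le_div_iff₀ (by positivity)]
          linarith
        · have h5 : ∀ X : Finset α, insert g J ⊆ X → BJ Ind r X = ∅ := by
            intro X hX
            rw [eq_empty_iff_forall_notMem]
            intro B hB
            rw [mem_BJ] at hB
            exact hgi (hM.hered _ _ hB.1.1 (hX.trans hB.2))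
          have h6 : qf (AJ Ind r (insert g J)) φ = 0 := by
            rw [qf_AJ, h5 _ Subset.rfl, sum_empty]
          rw [h6]
          have := hD0 g
          positivity
      have h3 : ((k + 1 : ℕ) : ℝ) * qf (AJ Ind r J) φ ≤
          (k + 1) * ∑ g ∈ Jᶜ, (∑ f, AJ Ind r J g f * φ f) ^ 2 / D g := by
        rw [← h1, mul_sum]
        exact sum_le_sum h2
      have h4 : qf (AJ Ind r J) φ ≤ ∑ g ∈ Jᶜ, (∑ f, AJ Ind r J g f * φ f) ^ 2 / D g := by
        push_cast at h3
        exact le_of_mul_le_mul_left h3 (by positivity)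
      refine h4.trans (sum_le_sum_of_subset_of_nonneg (subset_univ _) fun e _ _ => ?_)
      have := hD0 e
      positivity
    have hDpos : ∀ e, 0 < D e → e ∉ J ∧ Ind (insert e J) := by
      intro e he
      simp only [hD] at he
      split_ifs at he with h
      · exact absurd he (lt_irrefl _)
      · refine ⟨h, hM.ind_of_W_pos ?_⟩
        have h2 : (0:ℝ) ≤ k + 2 := by positivity
        exact pos_of_mul_pos_right he h2
    refine lorentz (AJ Ind r J) (AJ_symm J) D ?_ (qf_AJ_one_nonneg J) ?_
    · obtain ⟨x, hx, hxi⟩ := hM.exists_insert hJ (by omega)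
      refine sum_pos' (fun e _ => hD0 e) ⟨x, mem_univ x, ?_⟩
      · simp only [hD, if_neg hx]
        have := hM.W_pos hxi
        positivity
    · intro ψ hψ
      refine trickle (AJ Ind r J) D (AJ_symm J) (AJ_nonneg J) hrow ?_ hstar ψ hψ
      intro e f he hf
      obtain ⟨h1, h2⟩ := hDpos e he
      obtain ⟨h3, h4⟩ := hDpos f hf
      exact hM.conn hk' h1 h2 h3 h4

end

end Pool.Agent.Run7.h997
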