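import Pool.Agent.Run7.h997.Count
import Pool.Agent.Run7.h997.Defs

/-!
# The matroid of the columns of the boundary matrix
-/

namespace Pool.Agent.Run7.h997

open Finset Pool.Agent.NPC Pool.Agent.H670R2

/-! ### Gram determinants and linear independence -/

section Gram

theorem gdet_ne_zero_iff (vs : List (List ℤ)) (n : ℕ) (hn : ∀ v ∈ vs, v.length = n) :
    gdet vs ≠ 0 ↔ LinearIndependent ℚ
      (fun (i : Fin vs.length) (k : Fin n) => (((vs.get i).getD k 0 : ℤ) : ℚ)) := by
  set V : Matrix (Fin vs.length) (Fin n) ℚ :=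
    Matrix.of fun i k => (((vs.get i).getD k 0 : ℤ) : ℚ) with hV
  have h1 : (gramM vs).map (Int.castRingHom ℚ) = V * V.transpose := by
    ext i j
    simp only [gramM, Matrix.map_apply, Matrix.of_apply, Matrix.mul_apply, hV,
      Matrix.transpose_apply]
    rw [dotL_eq_sum, hn _ (List.get_mem vs i), ← Fin.sum_univ_eq_sum_range
      (fun k => (vs.get i).getD k 0 * (vs.get j).getD k 0) n]
    simp
  have h2 : (gramM vs).det ≠ 0 ↔ (V * V.transpose).det ≠ 0 := by
    rw [← h1, ← RingHom.mapMatrix_apply, ← RingHom.map_det]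
    simp
  rw [gdet_eq, Int.natAbs_ne_zero, h2]
  have h3 : (fun (i : Fin vs.length) (k : Fin n) => (((vs.get i).getD k 0 : ℤ) : ℚ)) = V.row := rfl
  rw [h3, ← Matrix.vecMul_injective_iff]
  constructor
  · intro hdet
    have h4 : Function.Injective V.vecMulLinear := by
      rw [← LinearMap.ker_eq_bot, LinearMap.ker_eq_bot']
      intro x hx
      by_contra hx0
      apply hdet
      rw [← Matrix.exists_vecMul_eq_zero_iff]
      refine ⟨x, hx0, ?_⟩
      have hx' : Matrix.vecMul x V = 0 := hx
      rw [← Matrix.vecMul_vecMul, hx', Matrix.zero_vecMul]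
    exact h4
  · intro hinj hdet
    rw [← Matrix.exists_vecMul_eq_zero_iff] at hdet
    obtain ⟨x, hx0, hx⟩ := hdet
    rw [← Matrix.vecMul_vecMul] at hx
    have h5 : Matrix.vecMul x V ⬝ᵥ Matrix.vecMul x V = 0 := by
      have h6 : (Matrix.vecMul (Matrix.vecMul x V) V.transpose) ⬝ᵥ x = 0 := by
        rw [hx, zero_dotProduct]
      rw [Matrix.vecMul_transpose, dotProduct_comm, Matrix.dotProduct_mulVec] at h6
      exact h6
    have h7 : Matrix.vecMul x V = 0 := dotProduct_self_eq_zero.1 h5
    apply hx0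
    apply hinj
    change Matrix.vecMul x V = Matrix.vecMul 0 V
    rw [h7, Matrix.zero_vecMul]

end Gram

/-! ### matroids of vectors -/

section Vec

variable {m : ℕ} {V : Type} [AddCommGroup V] [Module ℚ V]

theorem finrank_on (v : Fin m → V) (S : Finset (Fin m)) (h : LinearIndepOn ℚ v (S : Set (Fin m))) :
    Module.finrank ℚ (Submodule.span ℚ (v '' (S : Set (Fin m)))) = #S := by
  have h1 := finrank_span_eq_card h.linearIndependent
  rw [Set.image_eq_range]
  rw [h1]
  simp

theorem mtd_vec (v : Fin m → V) : Mtd (fun S : Finset (Fin m) => LinearIndepOn ℚ v (S : Set (Fin m)))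
    (Module.finrank ℚ (Submodule.span ℚ (Set.range v))) := by
  classical
  have hfin : ∀ X : Set (Fin m), FiniteDimensional ℚ (Submodule.span ℚ (v '' X)) := fun X =>
    FiniteDimensional.span_of_finite ℚ ((Set.toFinite X).image v)
  have hfinr : FiniteDimensional ℚ (Submodule.span ℚ (Set.range v)) :=
    FiniteDimensional.span_of_finite ℚ (Set.finite_range v)
  refine ⟨fun I J hJ hIJ => hJ.mono (by exact_mod_cast hIJ), ?_, ?_, ?_⟩
  · intro I J hI hJ hlt
    by_contra hcon
    push Not at hcon
    have h1 : v '' (J : Set (Fin m)) ⊆ Submodule.span ℚ (v '' (I : Set (Fin m))) := by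
      rintro _ ⟨x, hx, rfl⟩
      by_cases hxI : x ∈ I
      · exact Submodule.subset_span ⟨x, hxI, rfl⟩
      · by_contra hns
        apply hcon x hx hxI
        rw [coe_insert, linearIndepOn_insert (by simpa using hxI)]
        exact ⟨hI, hns⟩
    have h2 := Submodule.finrank_mono (Submodule.span_le.2 h1)
    rw [finrank_on v J hJ, finrank_on v I hI] at h2
    omega
  · obtain ⟨b, _, _, h3, h4⟩ := exists_linearIndepOn_extension (K := ℚ) (v := v) (s := ∅)
      (t := Set.univ) (linearIndepOn_empty ℚ v) (Set.empty_subset _)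
    have hb : ((b.toFinite.toFinset : Finset (Fin m)) : Set (Fin m)) = b := Set.Finite.coe_toFinset _
    refine ⟨b.toFinite.toFinset, by rw [hb]; exact h4, ?_⟩
    have h5 := finrank_on v b.toFinite.toFinset (by rw [hb]; exact h4)
    rw [Set.image_univ] at h3
    have h6 : Submodule.span ℚ (v '' b) = Submodule.span ℚ (Set.range v) :=
      le_antisymm (Submodule.span_mono (Set.image_subset_range _ _)) (Submodule.span_le.2 h3)
    rw [← h5, hb, h6]
  · intro I hI
    rw [← finrank_on v I hI]
    exact Submodule.finrank_mono (Submodule.span_mono (Set.image_subset_range _ _))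

/-- bases are the independent spanning sets -/
theorem mem_Bs_vec (v : Fin m → V) (S : Finset (Fin m)) :
    S ∈ Bs (fun S : Finset (Fin m) => LinearIndepOn ℚ v (S : Set (Fin m)))
      (Module.finrank ℚ (Submodule.span ℚ (Set.range v))) ↔
    LinearIndepOn ℚ v (S : Set (Fin m)) ∧
      Submodule.span ℚ (v '' (S : Set (Fin m))) = Submodule.span ℚ (Set.range v) := by
  have hfinr : FiniteDimensional ℚ (Submodule.span ℚ (Set.range v)) :=
    FiniteDimensional.span_of_finite ℚ (Set.finite_range v)
  rw [mem_Bs]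
  refine and_congr_right fun h => ?_
  rw [← finrank_on v S h]
  constructor
  · intro h1
    exact Submodule.eq_of_le_of_finrank_eq (Submodule.span_mono (Set.image_subset_range _ _)) h1
  · intro h1
    rw [h1]

end Vec

/-! ### the lists of rows and columns -/

section Lst

variable {Δ : Finset (Finset ℕ)} {d : ℕ} {L : List (List ℕ)}

theorem nodup_of_sorted {l : List ℕ} (h : l.Pairwise (· < ·)) : l.Nodup :=
  h.imp (fun hab => Nat.ne_of_lt hab)

theorem card_of_sorted {l : List ℕ} (h : l.Pairwise (· < ·)) : #l.toFinset = l.length :=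
  List.toFinset_card_of_nodup (nodup_of_sorted h)

theorem sorted_ext {l l' : List ℕ} (h : l.Pairwise (· < ·)) (h' : l'.Pairwise (· < ·))
    (he : l.toFinset = l'.toFinset) : l = l' := by
  have hp : l.Perm l' := by
    rw [List.perm_ext_iff_of_nodup (nodup_of_sorted h) (nodup_of_sorted h')]
    intro a
    rw [← List.mem_toFinset, ← List.mem_toFinset, he]
  exact hp.eq_of_pairwise (fun a b _ _ h1 h2 => absurd h1 (by omega)) h h'

theorem exists_sorted (σ : Finset ℕ) : ∃ l : List ℕ, l.Pairwise (· < ·) ∧ l.toFinset = σ :=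
  ⟨σ.sort (· ≤ ·), by simpa using σ.sortedLT_sort.pairwise, Finset.sort_toFinset _ _⟩

theorem topLen_eq (hL : Lists L Δ) (hd : HasDim Δ d) : topLen L = d + 1 := by
  unfold topLen
  apply le_antisymm
  · rcases foldr_max_mem (L.map List.length) with h | h
    · omega
    · rw [List.mem_map] at h
      obtain ⟨l, hl, h⟩ := h
      rw [← h]
      obtain ⟨h1, h2⟩ := (hL.2 l).1 hl
      rw [← card_of_sorted h1]
      exact hd.2 _ h2
  · obtain ⟨σ, hσ, hc⟩ := hd.1
    obtain ⟨l, h1, h2⟩ := exists_sorted σ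
    rw [← hc, ← h2, card_of_sorted h1]
    apply le_foldr_max
    rw [List.mem_map]
    exact ⟨l, (hL.2 l).2 ⟨h1, by rw [h2]; exact hσ⟩, rfl⟩

theorem mem_cols (hL : Lists L Δ) (hd : HasDim Δ d) {l : List ℕ} :
    l ∈ cols L ↔ l.Pairwise (· < ·) ∧ l.toFinset ∈ Δ ∧ l.length = d + 1 := by
  unfold cols
  rw [List.mem_filter, hL.2, decide_eq_true_iff, topLen_eq hL hd, and_assoc]

theorem mem_rows (hL : Lists L Δ) (hd : HasDim Δ d) {l : List ℕ} :
    l ∈ rows L ↔ l.Pairwise (· < ·) ∧ l.toFinset ∈ Δ ∧ l.length = d := by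
  unfold rows
  rw [List.mem_filter, hL.2, decide_eq_true_iff, topLen_eq hL hd, and_assoc]
  simp

/-- the face of a position in the list of columns -/
def colF (hL : Lists L Δ) (hd : HasDim Δ d) (i : Fin (cols L).length) : Face Δ (d + 1) :=
  ⟨((cols L).get i).toFinset, by
    have h := (mem_cols hL hd).1 (List.get_mem (cols L) i)
    exact ⟨h.2.1, by rw [card_of_sorted h.1, h.2.2]⟩⟩

/-- the face of a position in the list of rows -/
def rowF (hL : Lists L Δ) (hd : HasDim Δ d) (i : Fin (rows L).length) : Face Δ d :=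
  ⟨((rows L).get i).toFinset, by
    have h := (mem_rows hL hd).1 (List.get_mem (rows L) i)
    exact ⟨h.2.1, by rw [card_of_sorted h.1, h.2.2]⟩⟩

theorem cols_nodup (hL : Lists L Δ) : (cols L).Nodup := hL.1.filter _

theorem rows_nodup (hL : Lists L Δ) : (rows L).Nodup := hL.1.filter _

theorem colF_bij (hL : Lists L Δ) (hd : HasDim Δ d) : Function.Bijective (colF hL hd) := by
  constructor
  · intro i j hij
    have h1 : ((cols L).get i).toFinset = ((cols L).get j).toFinset := congrArg Subtype.val hij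
    have h2 := sorted_ext ((mem_cols hL hd).1 (List.get_mem _ _)).1
      ((mem_cols hL hd).1 (List.get_mem _ _)).1 h1
    exact (cols_nodup hL).injective_get h2
  · rintro ⟨σ, hσ, hc⟩
    obtain ⟨l, h1, h2⟩ := exists_sorted σ
    have h3 : l ∈ cols L := (mem_cols hL hd).2 ⟨h1, by rw [h2]; exact hσ, by
      rw [← card_of_sorted h1, h2, hc]⟩
    obtain ⟨i, hi⟩ := List.get_of_mem h3
    refine ⟨i, Subtype.ext ?_⟩
    change ((cols L).get i).toFinset = σ
    rw [hi, h2]

theorem rowF_bij (hL : Lists L Δ) (hd : HasDim Δ d) : Function.Bijective (rowF hL hd) := by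
  constructor
  · intro i j hij
    have h1 : ((rows L).get i).toFinset = ((rows L).get j).toFinset := congrArg Subtype.val hij
    have h2 := sorted_ext ((mem_rows hL hd).1 (List.get_mem _ _)).1
      ((mem_rows hL hd).1 (List.get_mem _ _)).1 h1
    exact (rows_nodup hL).injective_get h2
  · rintro ⟨σ, hσ, hc⟩
    obtain ⟨l, h1, h2⟩ := exists_sorted σ
    have h3 : l ∈ rows L := (mem_rows hL hd).2 ⟨h1, by rw [h2]; exact hσ, by
      rw [← card_of_sorted h1, h2, hc]⟩
    obtain ⟨i, hi⟩ := List.get_of_mem h3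
    refine ⟨i, Subtype.ext ?_⟩
    change ((rows L).get i).toFinset = σ
    rw [hi, h2]

/-- the coefficients computed by the algorithm are the entries of the boundary matrix -/
theorem bco_eq {σ ρ : List ℕ} (hσ : σ.Pairwise (· < ·)) (hρ : ρ.Pairwise (· < ·)) :
    ((bco σ ρ : ℤ) : ℚ) = ∑ v ∈ σ.toFinset,
      if ρ.toFinset = σ.toFinset.erase v then (-1) ^ #(σ.toFinset.filter (· < v)) else 0 := by
  unfold bco
  rw [List.sum_toFinset _ (nodup_of_sorted hσ)]
  have h0 : ∀ l : List ℤ, ((l.sum : ℤ) : ℚ) = (l.map (fun x : ℤ => (x : ℚ))).sum := by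
    intro l
    induction l with
    | nil => simp
    | cons a l ih => simp [ih]
  rw [h0, List.map_map]
  congr 1
  refine List.map_congr_left fun v _ => ?_
  simp only [Function.comp_apply]
  have h1 : (σ.filter (fun w => decide (w ≠ v))).toFinset = σ.toFinset.erase v := by
    ext w
    simp only [List.mem_toFinset, List.mem_filter, mem_erase, decide_eq_true_iff]
    tauto
  have h2 : (σ.filter (fun w => decide (w < v))).length = #(σ.toFinset.filter (· < v)) := by
    have h3 : (σ.filter (fun w => decide (w < v))).toFinset = σ.toFinset.filter (· < v) := by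
      ext w
      simp
    rw [← h3, card_of_sorted (hσ.filter _)]
  have h4 : (σ.filter (fun w => decide (w ≠ v)) = ρ) ↔ ρ.toFinset = σ.toFinset.erase v := by
    rw [← h1]
    constructor
    · intro h; rw [h]
    · intro h; exact sorted_ext (hσ.filter _) hρ h.symm
  by_cases h : ρ.toFinset = σ.toFinset.erase v
  · rw [if_pos h, if_pos (h4.2 h), h2]
    rcases Nat.even_or_odd (#(σ.toFinset.filter (· < v))) with h5 | h5
    · rw [if_pos (Nat.even_iff.1 h5), h5.neg_one_pow]; simp
    · rw [if_neg (by rw [Nat.odd_iff.1 h5]; norm_num), h5.neg_one_pow]; simp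
  · rw [if_neg h, if_neg (fun h' => h (h4.1 h'))]; simp

theorem vec_getD (hL : Lists L Δ) (hd : HasDim Δ d) (i : Fin (cols L).length)
    (k : Fin (rows L).length) : (((vec L ((cols L).get i)).getD k 0 : ℤ) : ℚ) =
      column Δ d (colF hL hd i) (rowF hL hd k) := by
  have h1 : (vec L ((cols L).get i)).getD k 0 = bco ((cols L).get i) ((rows L).get k) := by
    unfold vec
    rw [List.getD_eq_getElem _ _ (by simp)]
    simp
  rw [h1, bco_eq ((mem_cols hL hd).1 (List.get_mem _ _)).1 ((mem_rows hL hd).1 (List.get_mem _ _)).1]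
  rfl

/-- the columns chosen by the mask of a set -/
theorem mem_chosen {S : Finset (Fin (cols L).length)} {σ : List ℕ} :
    σ ∈ chosen L (toM S) ↔ ∃ i ∈ S, (cols L).get i = σ := by
  unfold chosen
  rw [List.mem_map]
  constructor
  · rintro ⟨⟨σ', b⟩, hb, rfl⟩
    rw [List.mem_filter] at hb
    obtain ⟨hb, hb2⟩ := hb
    simp only at hb2
    subst hb2
    obtain ⟨i, hi, hi2⟩ := List.getElem_of_mem hb
    rw [List.getElem_zip] at hi2
    simp only [Prod.mk.injEq] at hi2
    rw [List.length_zip, length_toM, min_self] at hi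
    rw [getElem_toM] at hi2
    exact ⟨⟨i, hi⟩, by simpa using hi2.2, hi2.1⟩
  · rintro ⟨i, hi, rfl⟩
    refine ⟨((cols L).get i, true), ?_, rfl⟩
    rw [List.mem_filter]
    refine ⟨?_, rfl⟩
    have h1 : (i : ℕ) < ((cols L).zip (toM S)).length := by
      rw [List.length_zip, length_toM, min_self]; exact i.2
    have h2 := List.getElem_mem h1
    rw [List.getElem_zip, getElem_toM] at h2
    simpa [hi] using h2

theorem map_fst_zip_take {α β : Type} (l : List α) (l' : List β) :
    (l.zip l').map Prod.fst = l.take l'.length := by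
  refine List.ext_getElem (by simp [min_comm]) fun i h1 h2 => ?_
  simp

theorem chosen_nodup (hL : Lists L Δ) (μ : List Bool) : (chosen L μ).Nodup := by
  unfold chosen
  have h2 : (((cols L).zip μ).map Prod.fst).Nodup := by
    rw [map_fst_zip_take]
    exact (cols_nodup hL).sublist (List.take_sublist _ _)
  exact h2.sublist (List.filter_sublist.map _)

/-- the test is linear independence of the columns -/
theorem indL_iff (hL : Lists L Δ) (hd : HasDim Δ d) (S : Finset (Fin (cols L).length)) :
    IndL L S ↔ LinearIndepOn ℚ (fun i => column Δ d (colF hL hd i))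
      (S : Set (Fin (cols L).length)) := by
  set n := (rows L).length with hn
  set l := chosen L (toM S) with hl
  set f : List ℕ → Fin n → ℚ := fun σ k => (((vec L σ).getD k 0 : ℤ) : ℚ) with hf
  have h1 : IndL L S ↔ gdet (l.map (vec L)) ≠ 0 := by
    unfold IndL okM
    rw [decide_eq_true_iff]
  rw [h1, gdet_ne_zero_iff (l.map (vec L)) n (by
    intro v hv
    obtain ⟨σ, _, rfl⟩ := List.mem_map.1 hv
    simp [vec, hn])]
  have hlen : (l.map (vec L)).length = l.length := List.length_map _
  have h2 : LinearIndependent ℚ (fun (i : Fin (l.map (vec L)).length) (k : Fin n) =>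
      ((((l.map (vec L)).get i).getD k 0 : ℤ) : ℚ)) ↔
      LinearIndependent ℚ (f ∘ l.get) := by
    refine linearIndependent_equiv' (finCongr hlen) ?_
    funext i k
    simp only [Function.comp_apply, hf, List.get_eq_getElem, List.getElem_map]
    rfl
  rw [h2, ← linearIndepOn_range_iff (chosen_nodup hL _).injective_get]
  have h3 : Set.range l.get = (fun i => (cols L).get i) '' (S : Set (Fin (cols L).length)) := by
    ext σ
    rw [Set.mem_range, Set.mem_image]
    constructor
    · rintro ⟨i, rfl⟩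
      exact mem_chosen.1 (List.get_mem l i)
    · intro h
      exact List.get_of_mem (mem_chosen.2 h)
  rw [h3]
  have hinj : Function.Injective (fun i => (cols L).get i) := (cols_nodup hL).injective_get
  have h4 : LinearIndepOn ℚ f ((fun i => (cols L).get i) '' (S : Set (Fin (cols L).length))) ↔
      LinearIndepOn ℚ (f ∘ fun i => (cols L).get i) (S : Set (Fin (cols L).length)) :=
    ⟨fun h => h.comp_of_image hinj.injOn, fun h => h.image_of_comp _ _⟩
  rw [h4]
  have h5 : (f ∘ fun i => (cols L).get i) = (LinearMap.funLeft ℚ ℚ (rowF hL hd)) ∘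
      (fun i => column Δ d (colF hL hd i)) := by
    funext i k
    simp only [Function.comp_apply, hf, LinearMap.funLeft_apply]
    exact vec_getD hL hd i k
  rw [h5, LinearMap.linearIndepOn_iff_of_injOn]
  exact (LinearMap.funLeft_injective_of_surjective ℚ ℚ _ (rowF_bij hL hd).2).injOn

/-- the rank -/
noncomputable def rk (hL : Lists L Δ) (hd : HasDim Δ d) : ℕ :=
  Module.finrank ℚ (Submodule.span ℚ (Set.range (fun i => column Δ d (colF hL hd i))))

theorem indL_eq (hL : Lists L Δ) (hd : HasDim Δ d) : IndL L =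
    fun S : Finset (Fin (cols L).length) => LinearIndepOn ℚ (fun i => column Δ d (colF hL hd i))
      (S : Set (Fin (cols L).length)) :=
  funext fun S => propext (indL_iff hL hd S)

/-- the test defines a matroid -/
theorem mtd_L (hL : Lists L Δ) (hd : HasDim Δ d) : Mtd (IndL L) (rk hL hd) := by
  rw [indL_eq hL hd]
  exact mtd_vec _

theorem mem_Bs_L (hL : Lists L Δ) (hd : HasDim Δ d) (S : Finset (Fin (cols L).length)) :
    S ∈ Bs (IndL L) (rk hL hd) ↔
      LinearIndepOn ℚ (fun i => column Δ d (colF hL hd i)) (S : Set (Fin (cols L).length)) ∧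
      Submodule.span ℚ ((fun i => column Δ d (colF hL hd i)) '' (S : Set (Fin (cols L).length))) =
        Submodule.span ℚ (Set.range (fun i => column Δ d (colF hL hd i))) := by
  rw [indL_eq hL hd]
  exact mem_Bs_vec _ S

/-! ### spanning trees -/

/-- the subcomplex given by a set of columns -/
def treeOf (hL : Lists L Δ) (hd : HasDim Δ d) (S : Finset (Fin (cols L).length)) :
    Finset (Finset ℕ) :=
  Δ.filter (fun σ => #σ ≤ d ∨ ∃ i ∈ S, (colF hL hd i).1 = σ)

theorem treeOf_top (hL : Lists L Δ) (hd : HasDim Δ d) (S : Finset (Fin (cols L).length))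
    (i : Fin (cols L).length) : (colF hL hd i).1 ∈ treeOf hL hd S ↔ i ∈ S := by
  unfold treeOf
  rw [mem_filter]
  constructor
  · rintro ⟨_, h | ⟨j, hj, h⟩⟩
    · have := (colF hL hd i).2.2; omega
    · have := (colF_bij hL hd).1 (Subtype.ext h)
      rw [← this]; exact hj
  · intro h
    exact ⟨(colF hL hd i).2.1, Or.inr ⟨i, h, rfl⟩⟩

theorem treeOf_inj (hL : Lists L Δ) (hd : HasDim Δ d) {S T : Finset (Fin (cols L).length)}
    (h : treeOf hL hd S = treeOf hL hd T) : S = T := by
  ext i
  rw [← treeOf_top hL hd S, ← treeOf_top hL hd T, h]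

/-- linear algebra of a subcomplex in terms of positions -/
theorem lin_pos (hL : Lists L Δ) (hd : HasDim Δ d) (Υ : Finset (Finset ℕ))
    (S : Finset (Fin (cols L).length)) (hS : ∀ i, i ∈ S ↔ (colF hL hd i).1 ∈ Υ) :
    (LinearIndependent ℚ (fun σ : {σ : Face Δ (d + 1) // σ.1 ∈ Υ} => column Δ d σ.1) ↔
      LinearIndepOn ℚ (fun i => column Δ d (colF hL hd i)) (S : Set (Fin (cols L).length))) ∧
    Set.range (fun σ : {σ : Face Δ (d + 1) // σ.1 ∈ Υ} => column Δ d σ.1) =
      (fun i => column Δ d (colF hL hd i)) '' (S : Set (Fin (cols L).length)) := by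
  have himg : colF hL hd '' (S : Set (Fin (cols L).length)) = {σ : Face Δ (d + 1) | σ.1 ∈ Υ} := by
    ext σ
    constructor
    · rintro ⟨i, hi, rfl⟩
      exact (hS i).1 hi
    · intro h
      obtain ⟨i, rfl⟩ := (colF_bij hL hd).2 σ
      exact ⟨i, (hS i).2 h, rfl⟩
  constructor
  · have h1 : LinearIndependent ℚ (fun σ : {σ : Face Δ (d + 1) // σ.1 ∈ Υ} => column Δ d σ.1) ↔
        LinearIndepOn ℚ (column Δ d) {σ : Face Δ (d + 1) | σ.1 ∈ Υ} := Iff.rfl
    rw [h1, ← himg]
    exact ⟨fun h => h.comp_of_image (colF_bij hL hd).1.injOn, fun h => h.image_of_comp _ _⟩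
  · ext x
    rw [Set.mem_range, Set.mem_image]
    constructor
    · rintro ⟨⟨σ, hσ⟩, rfl⟩
      obtain ⟨i, rfl⟩ := (colF_bij hL hd).2 σ
      exact ⟨i, (hS i).2 hσ, rfl⟩
    · rintro ⟨i, hi, rfl⟩
      exact ⟨⟨colF hL hd i, (hS i).1 hi⟩, rfl⟩

theorem range_colF (hL : Lists L Δ) (hd : HasDim Δ d) :
    Set.range (fun i => column Δ d (colF hL hd i)) = Set.range (column Δ d) := by
  ext x
  constructor
  · rintro ⟨i, rfl⟩; exact ⟨_, rfl⟩
  · rintro ⟨σ, rfl⟩
    obtain ⟨i, rfl⟩ := (colF_bij hL hd).2 σ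
    exact ⟨i, rfl⟩

/-- spanning trees are the subcomplexes given by the bases -/
theorem isSpanningTree_iff (hΔ : IsComplex Δ) (hL : Lists L Δ) (hd : HasDim Δ d)
    (Υ : Finset (Finset ℕ)) : IsSpanningTree Δ d Υ ↔
      ∃ S ∈ Bs (IndL L) (rk hL hd), treeOf hL hd S = Υ := by
  classical
  constructor
  · intro h
    set S := univ.filter (fun i => (colF hL hd i).1 ∈ Υ) with hSd
    have hS : ∀ i, i ∈ S ↔ (colF hL hd i).1 ∈ Υ := fun i => by simp [hSd]
    obtain ⟨h1, h2⟩ := lin_pos hL hd Υ S hS
    refine ⟨S, (mem_Bs_L hL hd S).2 ⟨h1.1 h.indep, ?_⟩, ?_⟩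
    · rw [← h2, h.span, range_colF]
    · ext σ
      unfold treeOf
      rw [mem_filter]
      constructor
      · rintro ⟨h3, h4 | ⟨i, hi, rfl⟩⟩
        · exact h.skeleton σ h3 h4
        · exact (hS i).1 hi
      · intro h3
        refine ⟨h.subset h3, ?_⟩
        by_cases h4 : #σ ≤ d
        · exact Or.inl h4
        · right
          have h5 := hd.2 σ (h.subset h3)
          obtain ⟨i, hi⟩ := (colF_bij hL hd).2 ⟨σ, h.subset h3, by omega⟩
          exact ⟨i, (hS i).2 (by rw [hi]; exact h3), by rw [hi]⟩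
  · rintro ⟨S, hS, rfl⟩
    obtain ⟨h1, h2⟩ := lin_pos hL hd (treeOf hL hd S) S (fun i => (treeOf_top hL hd S i).symm)
    rw [mem_Bs_L] at hS
    refine ⟨filter_subset _ _, ⟨?_, ?_⟩, ?_, h1.2 hS.1, ?_⟩
    · intro σ hσ
      exact hΔ.nonempty σ (mem_filter.1 hσ).1
    · intro σ hσ τ hτ hne
      unfold treeOf at hσ ⊢
      rw [mem_filter] at hσ ⊢
      refine ⟨hΔ.down σ hσ.1 τ hτ hne, ?_⟩
      by_cases h3 : τ = σ
      · rw [h3]; exact hσ.2
      · left
        have h4 := card_lt_card (ssubset_of_subset_of_ne hτ h3)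
        have h5 := hd.2 σ hσ.1
        omega
    · intro σ hσ hc
      exact mem_filter.2 ⟨hσ, Or.inl hc⟩
    · rw [h2, hS.2, range_colF]

/-- the output list -/
theorem outL_eq (hL : Lists L Δ) (hd : HasDim Δ d) (S : Finset (Fin (cols L).length)) :
    outL L (toM S) = sublistOf L (treeOf hL hd S) := by
  unfold outL sublistOf
  refine List.filter_congr fun l hl => ?_
  rw [decide_eq_decide, topLen_eq hL hd, mem_chosen]
  obtain ⟨h1, h2⟩ := (hL.2 l).1 hl
  unfold treeOf
  rw [mem_filter, card_of_sorted h1]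
  constructor
  · rintro (h | ⟨i, hi, rfl⟩)
    · exact ⟨h2, Or.inl (by omega)⟩
    · exact ⟨h2, Or.inr ⟨i, hi, rfl⟩⟩
  · rintro ⟨_, h | ⟨i, hi, h⟩⟩
    · left; omega
    · right
      refine ⟨i, hi, ?_⟩
      exact sorted_ext ((mem_cols hL hd).1 (List.get_mem _ _)).1 h1 h

/-- the output list determines the spanning tree -/
theorem outL_inj (hL : Lists L Δ) (hd : HasDim Δ d) {S T : Finset (Fin (cols L).length)}
    (h : outL L (toM S) = outL L (toM T)) : S = T := by
  rw [outL_eq hL hd, outL_eq hL hd] at h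
  ext i
  rw [← treeOf_top hL hd S, ← treeOf_top hL hd T]
  have hi : (cols L).get i ∈ L := by
    have := List.get_mem (cols L) i
    unfold cols at this
    exact (List.mem_filter.1 this).1
  have key : ∀ U : Finset (Fin (cols L).length), (colF hL hd i).1 ∈ treeOf hL hd U ↔
      (cols L).get i ∈ sublistOf L (treeOf hL hd U) := by
    intro U
    unfold sublistOf
    rw [List.mem_filter, decide_eq_true_iff]
    exact ⟨fun h => ⟨hi, h⟩, fun h => h.2⟩
  rw [key, key, h]

/-- the number of spanning trees -/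
theorem ncard_trees (hΔ : IsComplex Δ) (hL : Lists L Δ) (hd : HasDim Δ d) :
    {Υ | IsSpanningTree Δ d Υ}.ncard = #(Bs (IndL L) (rk hL hd)) := by
  have h1 : {Υ | IsSpanningTree Δ d Υ} =
      (treeOf hL hd) '' (Bs (IndL L) (rk hL hd) : Set (Finset (Fin (cols L).length))) := by
    ext Υ
    rw [Set.mem_ofPred_eq, isSpanningTree_iff hΔ hL hd, Set.mem_image]
    rfl
  rw [h1, Set.ncard_image_of_injective _ (fun _ _ h => treeOf_inj hL hd h), Set.ncard_coe_finset]

end Lst

end Pool.Agent.Run7.h997
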