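import Pool.Agent.Run7.h997.OutP
import Pool.Agent.H591R2.CoinRun

/-!
# Las Vegas machines whose trials have different running times: time and output distribution
-/

namespace Pool.Agent.Run7.h997

open Turing Function Pool.Agent.NPC Pool.Agent.H591R2 Pool.Agent.H591R2.CoinMachine

section

variable {N₀ : ℕ} {cA cC : Cmd (Fin (N₀ + 2))} {x x' : List Bool} {k tA : ℕ} {τ : ℕ → ℕ}
  {G : ℕ → Option (List Bool)}

/-- the hypotheses on the two programs, for the input `x` -/
structure SpecV (cA cC : Cmd (Fin (N₀ + 2))) (x x' : List Bool) (k tA : ℕ) (τ : ℕ → ℕ)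
    (G : ℕ → Option (List Bool)) : Prop where
  runA : Run cA (inp x) (inp (head k x')) tA
  runC : ∀ r : List Bool, r.length = k → ∃ t ≤ τ (valB r), Run cC (inp (pairBits r x'))
    (inp (match G (valB r) with
      | some y => true :: y
      | none => false :: head k x')) t

theorem SpecV.toSpec (h : SpecV cA cC x x' k tA τ G) :
    Spec cA cC x x' k tA (∑ R ∈ Finset.range (2 ^ k), τ R) (fun r => G (valB r)) := by
  refine ⟨h.runA, fun r hr => ?_⟩
  obtain ⟨t, ht, hrun⟩ := h.runC r hr
  refine ⟨t, ht.trans ?_, hrun⟩
  apply Finset.single_le_sum (f := τ) (fun _ _ => Nat.zero_le _)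
  rw [Finset.mem_range, ← hr]
  exact valB_lt r

theorem eT_bodyV (h : SpecV cA cC x x' k tA τ G) (N : ℕ) {l : List Bool} (hl : l.length = k) :
    eT N (cfg cA cC 1 (false :: x') l) ≤ k + 3 + τ (valB l.reverse) +
      (if (G (valB l.reverse)).isSome then 0 else eT N (cfg cA cC 1 (head k x') [])) := by
  have h1 := eT_step N (fun b => step_one_false cA cC b x' l)
  have h2 := eT_two (cA := cA) (cC := cC) N l (false :: x')
  rw [pairBits_eq, hl] at h2
  obtain ⟨t, ht, hrun⟩ := h.runC l.reverse (by simpa using hl)
  rw [inp_eq, inp_eq] at hrun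
  obtain ⟨v', hseg⟩ := code_seg hrun (lvProg cA cC) (fun l => Sum.inr (Sum.inl l)) (ctl cA cC 3)
    (fun _ _ => rfl) none
  have h3 := eT_seg N t (seg_run cA cC hseg)
  have ht' : (t : ℝ) ≤ τ (valB l.reverse) := by exact_mod_cast ht
  cases hG : G (valB l.reverse) with
  | some y =>
    rw [hG] at h3
    simp only at h3
    have h4 := eT_step N (fun b => step_three_true cA cC b v' y)
    rw [eT_halt N (c := mkc cA cC none none (st2 y [])) rfl] at h4
    simp only [Option.isSome_some, if_true]
    linarith
  | none =>
    rw [hG] at h3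
    simp only at h3
    have h4 := eT_step N (fun b => step_three_false cA cC b v' (head k x'))
    simp only [Option.isSome_none, Bool.false_eq_true, if_false]
    linarith

/-- The expected running time. -/
theorem lv_timeV (h : SpecV cA cC x x' k tA τ G) {D Θ : ℕ}
    (hD : 2 ^ k ≤ D * ((Finset.range (2 ^ k)).filter (fun R => (G R).isSome = true)).card)
    (hΘ : ∑ R ∈ Finset.range (2 ^ k), τ R ≤ 2 ^ k * Θ) (N : ℕ) :
    eT N ((lvMachine cA cC).start x) ≤ tA + 1 + D * (2 * k + 3 + Θ) := by
  set S := eT N (cfg cA cC 1 (head k x') []) with hS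
  have hS0 : 0 ≤ S := eT_nonneg _ _
  -- preparation
  obtain ⟨v', hseg⟩ := code_seg h.runA (lvProg cA cC) Sum.inl (ctl cA cC 0) (fun _ _ => rfl) none
  have h1 := eT_seg N tA (seg_run cA cC hseg)
  rw [inp_eq (head k x')] at h1
  have h2 := eT_step N (fun b => step_zero cA cC b v' (head k x'))
  rw [← hS] at h2
  -- the loop
  have h3 := eT_toss (cA := cA) (cC := cC) (x' := x') N k []
  rw [← hS] at h3
  have h4 : avg k (fun l => eT N (cfg cA cC 1 (false :: x') l)) [] ≤
      (∑ R ∈ Finset.range (2 ^ k), (fun R => (k + 3 + τ R : ℝ) + (if (G R).isSome then 0 else S))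
        (valB ([] : List Bool).reverse + 2 ^ ([] : List Bool).length * R)) / 2 ^ k := by
    refine le_trans ?_ (avg_num k (fun R => (k + 3 + τ R : ℝ) +
      (if (G R).isSome then 0 else S)) []).le
    apply avg_mono
    intro l hl
    have hl' : l.length = k := by simpa using hl
    exact eT_bodyV h N hl'
  simp only [List.reverse_nil, valB_nil, List.length_nil, pow_zero, one_mul, zero_add] at h4
  rw [Finset.sum_add_distrib, Finset.sum_add_distrib, Finset.sum_const, Finset.card_range,
    nsmul_eq_mul] at h4
  have h6 : ∑ R ∈ Finset.range (2 ^ k), (if (G R).isSome then (0 : ℝ) else S) =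
      (2 ^ k - ((Finset.range (2 ^ k)).filter (fun R => (G R).isSome = true)).card) * S := by
    have e : ∀ R, (if (G R).isSome then (0 : ℝ) else S) = S - (if (G R).isSome = true then 1 else 0) * S := by
      intro R; split_ifs <;> ring
    simp only [e]
    rw [Finset.sum_sub_distrib, Finset.sum_const, Finset.card_range, nsmul_eq_mul,
      ← Finset.sum_mul, Finset.sum_boole]
    push_cast
    ring
  rw [h6] at h4
  set c := ((Finset.range (2 ^ k)).filter (fun R => (G R).isSome = true)).card with hc
  have hk : (0 : ℝ) < 2 ^ k := by positivity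
  have hD' : (2 : ℝ) ^ k ≤ D * c := by exact_mod_cast hD
  have hΘ' : ∑ R ∈ Finset.range (2 ^ k), (τ R : ℝ) ≤ 2 ^ k * Θ := by exact_mod_cast hΘ
  have h7 : S ≤ k + (((2 ^ k : ℕ) : ℝ) * (k + 3) + 2 ^ k * Θ + (2 ^ k - c) * S) / 2 ^ k := by
    refine (h3.trans (add_le_add_right h4 (k:ℝ))).trans ?_
    apply add_le_add_right
    apply div_le_div_of_nonneg_right _ hk.le
    linarith
  have h8 : c * S ≤ 2 ^ k * (2 * k + 3 + Θ) := by
    have h9 : (((2 ^ k : ℕ) : ℝ) * (k + 3) + 2 ^ k * Θ + (2 ^ k - c) * S) / 2 ^ k =
        (k + 3 + Θ) + S - c * S / 2 ^ k := by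
      push_cast
      field_simp
      ring
    rw [h9] at h7
    have h10 : c * S / 2 ^ k ≤ 2 * k + 3 + Θ := by linarith
    rw [div_le_iff₀ hk] at h10
    linarith
  have h11 : S ≤ D * (2 * k + 3 + Θ) := by
    have h12 : 2 ^ k * S ≤ 2 ^ k * (D * (2 * k + 3 + Θ)) := by
      calc 2 ^ k * S ≤ (D * c) * S := mul_le_mul_of_nonneg_right hD' hS0
        _ = D * (c * S) := by ring
        _ ≤ D * (2 ^ k * (2 * k + 3 + Θ)) := mul_le_mul_of_nonneg_left h8 (by positivity)
        _ = _ := by ring
    exact le_of_mul_le_mul_left h12 hk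
  rw [start_eq]
  linarith

/-! ### the output distribution -/

/-- the final configuration with output `y` -/
def fin (cA cC : Cmd (Fin (N₀ + 2))) (y : List Bool) : (lvMachine cA cC).Conf :=
  mkc cA cC none none (update (fun _ => []) 0 y)

theorem fin_l (y : List Bool) : (fin cA cC y).l = none := rfl

theorem fin_inj {y y' : List Bool} (h : fin cA cC y = fin cA cC y') : y = y' := by
  unfold fin mkc at h
  injection h with _ _ h3
  have := congrFun h3 0
  simpa using this

theorem pr_two (y : List Bool) : ∀ v u : List Bool, pr (fin cA cC y) (cfg cA cC 2 u v) =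
    pr (fin cA cC y) (mkc cA cC (some (Sum.inr (Sum.inl cC.entry))) none
      (st2 (v.reverse.flatMap (fun b => [true, b]) ++ u) [])) := by
  intro v
  induction v with
  | nil =>
    intro u
    have := pr_step (h := fin cA cC y) rfl (fun b => step_two_nil cA cC b u)
    simpa using this
  | cons a v ih =>
    intro u
    have h1 := pr_step (h := fin cA cC y) rfl (fun b => step_two_cons cA cC b a u v)
    have h2 := ih (true :: a :: u)
    have e : v.reverse.flatMap (fun b => [true, b]) ++ true :: a :: u =
        (a :: v).reverse.flatMap (fun b => [true, b]) ++ u := by simp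
    rw [e] at h2
    rw [h1, h2]

theorem pr_toss (y : List Bool) : ∀ (j : ℕ) (acc : List Bool),
    pr (fin cA cC y) (cfg cA cC 1 (head j x') acc) =
      avg j (fun l => pr (fin cA cC y) (cfg cA cC 1 (false :: x') l)) acc := by
  intro j
  induction j with
  | zero => intro acc; simp [head, avg]
  | succ j ih =>
    intro acc
    have h1 := pr_coin (h := fin cA cC y) rfl (fun b => step_one_true cA cC b (head j x') acc)
    have e : true :: head j x' = head (j + 1) x' := rfl
    rw [e] at h1
    rw [h1, ih (false :: acc), ih (true :: acc)]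
    rfl

open scoped Classical in
theorem pr_body (h : SpecV cA cC x x' k tA τ G) (y : List Bool) {l : List Bool}
    (hl : l.length = k) :
    pr (fin cA cC y) (cfg cA cC 1 (false :: x') l) =
      (if G (valB l.reverse) = some y then 1 else 0) +
      (if G (valB l.reverse) = none then 1 else 0) *
        pr (fin cA cC y) (cfg cA cC 1 (head k x') []) := by
  have h1 := pr_step (h := fin cA cC y) rfl (fun b => step_one_false cA cC b x' l)
  have h2 := pr_two (cA := cA) (cC := cC) y l (false :: x')
  rw [pairBits_eq] at h2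
  obtain ⟨t, ht, hrun⟩ := h.runC l.reverse (by simpa using hl)
  rw [inp_eq, inp_eq] at hrun
  obtain ⟨v', hseg⟩ := code_seg hrun (lvProg cA cC) (fun l => Sum.inr (Sum.inl l)) (ctl cA cC 3)
    (fun _ _ => rfl) none
  have h3 := pr_seg (h := fin cA cC y) rfl t (seg_run cA cC hseg)
  rw [h1, h2, h3]
  cases hG : G (valB l.reverse) with
  | some z =>
    simp only
    rw [pr_step (h := fin cA cC y) rfl (fun b => step_three_true cA cC b v' z)]
    have e : mkc cA cC none none (st2 z []) = fin cA cC z := by rw [st2_nil]; rfl
    rw [e, pr_halt (fin_l z)]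
    simp only [Option.some.injEq, reduceCtorEq, if_false, zero_mul, add_zero]
    by_cases hz : z = y
    · rw [if_pos hz, if_pos (by rw [hz])]
    · rw [if_neg hz, if_neg (fun h => hz (fin_inj h))]
  | none =>
    simp only
    rw [pr_step (h := fin cA cC y) rfl (fun b => step_three_false cA cC b v' (head k x'))]
    simp

theorem avg_congr (j : ℕ) {f g : List Bool → ℝ} (acc : List Bool)
    (h : ∀ l : List Bool, l.length = acc.length + j → f l = g l) : avg j f acc = avg j g acc :=
  le_antisymm (avg_mono j acc fun l hl => (h l hl).le) (avg_mono j acc fun l hl => (h l hl).ge)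

/-- The probability of each output: good outcomes divided by accepted outcomes. -/
theorem pr_start (h : SpecV cA cC x x' k tA τ G) (y : List Bool) :
    ((Finset.range (2 ^ k)).filter (fun R => (G R).isSome = true)).card *
      pr (fin cA cC y) ((lvMachine cA cC).start x) =
        ((Finset.range (2 ^ k)).filter (fun R => G R = some y)).card := by
  classical
  set S := pr (fin cA cC y) (cfg cA cC 1 (head k x') []) with hS
  obtain ⟨v', hseg⟩ := code_seg h.runA (lvProg cA cC) Sum.inl (ctl cA cC 0) (fun _ _ => rfl) none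
  have h1 := pr_seg (h := fin cA cC y) rfl tA (seg_run cA cC hseg)
  rw [inp_eq (head k x')] at h1
  have h2 := pr_step (h := fin cA cC y) rfl (fun b => step_zero cA cC b v' (head k x'))
  rw [start_eq, h1, h2, ← hS]
  have h3 := pr_toss (cA := cA) (cC := cC) (x' := x') y k []
  rw [← hS] at h3
  have h4 : avg k (fun l => pr (fin cA cC y) (cfg cA cC 1 (false :: x') l)) [] =
      (∑ R ∈ Finset.range (2 ^ k), (fun R => (if G R = some y then (1:ℝ) else 0) +
        (if G R = none then 1 else 0) * S)
        (valB ([] : List Bool).reverse + 2 ^ ([] : List Bool).length * R)) / 2 ^ k := by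
    rw [← avg_num k (fun R => (if G R = some y then (1:ℝ) else 0) +
        (if G R = none then 1 else 0) * S) []]
    apply avg_congr
    intro l hl
    have hl' : l.length = k := by simpa using hl
    exact pr_body h y hl'
  simp only [List.reverse_nil, valB_nil, List.length_nil, pow_zero, one_mul, zero_add] at h4
  rw [h4, Finset.sum_add_distrib, ← Finset.sum_mul, Finset.sum_boole, Finset.sum_boole] at h3
  have h5 : ((Finset.range (2 ^ k)).filter (fun R => (G R).isSome = true)).card +
      ((Finset.range (2 ^ k)).filter (fun R => G R = none)).card = 2 ^ k := by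
    have e : (Finset.range (2 ^ k)).filter (fun R => G R = none) =
        (Finset.range (2 ^ k)).filter (fun R => ¬ (G R).isSome = true) := by
      apply Finset.filter_congr
      intro R _
      simp
    rw [e, Finset.card_filter_add_card_filter_not, Finset.card_range]
  have h6 : (((Finset.range (2 ^ k)).filter (fun R => (G R).isSome = true)).card : ℝ) =
      2 ^ k - ((Finset.range (2 ^ k)).filter (fun R => G R = none)).card := by
    have : ((((Finset.range (2 ^ k)).filter (fun R => (G R).isSome = true)).card +
      ((Finset.range (2 ^ k)).filter (fun R => G R = none)).card : ℕ) : ℝ) = ((2 ^ k : ℕ) : ℝ) := by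
      rw [h5]
    push_cast at this
    linarith
  rw [h6]
  have hk : (0 : ℝ) < 2 ^ k := by positivity
  rw [eq_div_iff hk.ne'] at h3
  linarith

/-- The output probabilities in terms of configurations. -/
theorem outProb_eq (h : SpecV cA cC x x' k tA τ G) (y : List Bool) :
    outProb (lvMachine cA cC) x y =
      ENNReal.ofReal (pr (fin cA cC y) ((lvMachine cA cC).start x)) := by
  rw [← hp_eq (fin_l y)]
  unfold outProb hp nh
  refine tsum_congr fun i => ?_
  congr 3
  ext w
  simp only [Set.mem_ofPred_eq]
  refine and_congr_right fun _ => ?_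
  constructor
  · rintro ⟨v, hv⟩
    obtain ⟨r, z, _, _, hz⟩ := lv_ok h.toSpec (w.length + 1) w _ (Nat.lt_succ_self _) hv rfl
    rw [hv, hz]
    unfold mkc at hz
    injection hz with _ h2 h3
    have h4 : y = z := by
      have h5 := congrFun h3 (0 : Fin (N₀ + 2))
      have h6 : update (fun _ : Fin (N₀ + 2) => ([] : List Bool)) 0 y 0 = y := by simp
      have h7 : update (fun _ : Fin (N₀ + 2) => ([] : List Bool)) 0 z 0 = z := by simp
      rw [← h6, ← h7]
      exact h5
    rw [h4]; rfl
  · intro hw
    exact ⟨none, hw⟩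

/-- Only outputs of the trial function appear. -/
theorem halts_only (h : SpecV cA cC x x' k tA τ G) {w y : List Bool}
    (hw : (lvMachine cA cC).HaltsWith x w y) : ∃ R < 2 ^ k, G R = some y := by
  obtain ⟨v, hv⟩ := hw
  obtain ⟨r, z, hr, hG, hz⟩ := lv_ok h.toSpec (w.length + 1) w _ (Nat.lt_succ_self _) hv rfl
  refine ⟨valB r, by rw [← hr]; exact valB_lt r, ?_⟩
  have h4 : y = z := by
    unfold mkc at hz
    injection hz with _ h2 h3
    have h5 := congrFun h3 (0 : Fin (N₀ + 2))
    have h6 : update (fun _ : Fin (N₀ + 2) => ([] : List Bool)) 0 y 0 = y := by simp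
    have h7 : update (fun _ : Fin (N₀ + 2) => ([] : List Bool)) 0 z 0 = z := by simp
    rw [← h6, ← h7]
    exact h5
  rw [h4]
  exact hG

end

end Pool.Agent.Run7.h997
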