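import Pool.Agent.Run7.h997.Trial
import Pool.Agent.Run7.h997.Lin

/-!
# The exact sampler
-/

namespace Pool.Agent.NPC.R997

open Finset Pool.Agent.NPC.H670R2 Pool.Agent.H670R2 Pool.Agent.Run7.h997 Pool.Agent.NPC.R591
open Pool.Agent.H591R2 (head CoinMachine lvMachine)

/-- the padding is long enough -/
theorem pad_ok (L : List (List ℕ)) : 2 ^ (cols L).length ≤ 2 ^ (2 * (cols L).length + 1) :=
  Nat.pow_le_pow_right (by norm_num) (by omega)

/-- outcome of one trial, as a string -/
def outT (L : List (List ℕ)) (s R : ℕ) : Option (List Bool) :=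
  (trialB L (2 ^ (2 * (cols L).length + 1)) s R).map (fun μ => bits (outL L μ))

theorem two_pow_k (L : List (List ℕ)) (s : ℕ) :
    2 ^ kOf L s = 2 ^ s * (4 ^ aOf L) ^ tOf L s := by
  unfold kOf
  rw [pow_add, ← pow_mul 4, show (4:ℕ) = 2 ^ 2 by norm_num, ← pow_mul 2 2]
  congr 2; ring

theorem g1_run {cE cmC : Cmd ℕ} {Q pC : Polynomial ℕ} {c : ℕ}
    (hE : ∀ (cnt : List Unit) (w : List Unit × (ℕ × List Bool)),
      Runs cE (inp (bits (cnt, (([()] : List Unit), w))))
        (inp (outRaw (g2 (List.replicate (2 ^ sz cnt) (), w))))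
        (Q.eval (2 ^ sz cnt * (4 + sz w))))
    (hC : ∀ z : List Bool,
      (∀ b, g1 c z = Sum.inl b → Runs cmC (inp z) (inp (true :: bits b)) (pC.eval z.length)) ∧
      (∀ v s' n, g1 c z = Sum.inr v → Runs cE (inp (bits v)) s' n →
        Runs cmC (inp z) s' (pC.eval z.length + n)))
    (L : List (List ℕ)) (r : List Bool) :
    Runs cmC (inp (pairBits r (bits L)))
      (inp (match outT L (sOf c L) (valB r) with
        | some y => true :: y
        | none => false :: head (kOf L (sOf c L)) (bits L)))
      (pC.eval (pairBits r (bits L)).length +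
        if valB r % 2 ^ sOf c L = 0 then
          Q.eval (2 ^ (2 * (cols L).length + 1) * (4 + sz (List.replicate (sOf c L) (),
            (valB r / 2 ^ sOf c L, bits L)))) else 0) := by
  have hdec : decL (bits L) = L := by
    unfold decL; rw [unbits_bits]; rfl
  have hg : g1 c (pairBits r (bits L)) = g1d c L (valB r) (bits L) := by
    unfold g1
    rw [unpair_pairBits]
    simp only [hdec]
  by_cases h : valB r % 2 ^ sOf c L = 0
  · have h1 : g1 c (pairBits r (bits L)) = Sum.inr (g1b c L (valB r) (bits L)) := by
      rw [hg]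
      unfold g1d g1c
      simp [h]
    have h2 := hE (List.replicate (cols L).length ())
      (List.replicate (sOf c L) (), (valB r / 2 ^ sOf c L, bits L))
    rw [sz_unary] at h2
    have h3 := (hC (pairBits r (bits L))).2 _ _ _ h1 h2
    rw [if_pos h]
    refine h3.conv rfl ?_ le_rfl
    congr 1
    unfold outT trialB
    rw [if_neg (by simpa using h)]
    unfold g2 g2d fin2
    simp only [hdec, List.length_replicate]
    cases sel (weights L (2 ^ (2 * (cols L).length + 1)) (sOf c L) (tOf L (sOf c L)))
      (valB r / 2 ^ sOf c L) with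
    | none => rfl
    | some μ => rfl
  · have h1 : g1 c (pairBits r (bits L)) = Sum.inl (g1a c L (valB r)) := by
      rw [hg]
      unfold g1d g1c
      simp [h]
    have h3 := (hC (pairBits r (bits L))).1 _ h1
    rw [if_neg h]
    refine h3.conv rfl ?_ le_rfl
    congr 1
    unfold outT trialB
    rw [if_pos h]
    rfl

theorem sz_w {L : List (List ℕ)} {s k ρ : ℕ} (hs : s ≤ k) (hρ : ρ < 2 ^ k) :
    4 + sz (List.replicate s (), (ρ, bits L)) ≤ 9 + 6 * k + 4 * (bits L).length := by
  rw [sz_pair, sz_pair, sz_unary]
  have h1 := sz_nat_le ρ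
  have h2 := Nat.size_le.2 hρ
  have h3 := sz_listBool_le (bits L)
  omega

theorem sum_rare (s D A B : ℕ) : ∑ R ∈ range (2 ^ s * D), (A + if R % 2 ^ s = 0 then 2 ^ s * B else 0) =
    2 ^ s * D * (A + B) := by
  rw [sum_add_distrib, sum_const, card_range, smul_eq_mul]
  rw [sum_splitG (2 ^ s) D (fun σ _ => if σ = 0 then 2 ^ s * B else 0)]
  have h : ∀ σ, ∑ _b ∈ range D, (if σ = 0 then 2 ^ s * B else 0) =
      if σ = 0 then D * (2 ^ s * B) else 0 := by
    intro σ
    rw [sum_const, card_range, smul_eq_mul]
    split_ifs <;> simp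
  simp only [h]
  rw [sum_ite_eq' (range (2 ^ s)) 0, if_pos (by rw [mem_range]; positivity)]
  ring

theorem size_bits_le {L : List (List ℕ)} (hs : ∀ l ∈ L, l.Pairwise (· < ·))
    (h : ∀ l ∈ L, ∀ v ∈ l, v < L.length) :
    (bits L).length ≤ L.length * (L.length * (4 * L.length + 2) + 2) + 1 := by
  rw [bits_length]
  set n := L.length with hn
  refine (sz_le_length_mul L (n * (4 * n + 2) + 1) ?_).trans ?_
  · intro l hl
    have h1 : l.length ≤ n := by
      rw [← card_of_sorted (hs l hl)]
      have : l.toFinset ⊆ range n := by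
        intro v hv
        rw [mem_range]
        exact h l hl v (List.mem_toFinset.1 hv)
      simpa using card_le_card this
    refine (sz_le_length_mul l (4 * n + 1) ?_).trans ?_
    · intro v hv
      have h2 := sz_nat_le v
      have h3 : v.size ≤ v := Poly.size_le_self v
      have h4 := h l hl v hv
      omega
    · have h5 : l.length * (4 * n + 1 + 1) ≤ n * (4 * n + 2) := Nat.mul_le_mul h1 (by omega)
      omega
  · rw [← hn]

/-- **The exact sampler.** -/
theorem sampler : ∃ (M : CoinMachine) (p q : Polynomial ℕ),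
    ∀ (Δ : Finset (Finset ℕ)) (d : ℕ) (L : List (List ℕ)),
      IsComplex Δ → HasDim Δ d → Lists L Δ →
      (∀ Υ, IsSpanningTree Δ d Υ → outProb M (bits L) (bits (sublistOf L Υ)) =
        1 / ({Υ | IsSpanningTree Δ d Υ}.ncard : ENNReal)) ∧
      (∀ w y, M.HaltsWith (bits L) w y →
        ∃ Υ, IsSpanningTree Δ d Υ ∧ y = bits (sublistOf L Υ)) ∧
      M.expectedTime (bits L) ≤ (p.eval (bits L).length : ℕ) ∧
      ((∀ l ∈ L, ∀ v ∈ l, v < L.length) → M.expectedTime (bits L) ≤ (q.eval L.length : ℕ)) := by
  classical
  obtain ⟨cE, Q, hE⟩ := exp_runs g2_poly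
  set c := Q.natDegree + 1 with hc
  obtain ⟨cmC, pC, hC⟩ := comb_runs cE (g1_poly c)
  obtain ⟨cmA, pA, hA⟩ := raw (fA_poly c (Poly.id (α := List Bool)))
  obtain ⟨pk, hpk⟩ := (kOf_upoly (decL_poly (Poly.id (α := List Bool)))
    (sOf_upoly c (decL_poly (Poly.id (α := List Bool))))).sz_le
  set N₀ := max cmA.bd cmC.bd with hN₀
  set cA : Cmd (Fin (N₀ + 2)) := cmA.map (Fin.ofNat (N₀ + 1 + 1)) with hcA
  set cC : Cmd (Fin (N₀ + 2)) := cmC.map (Fin.ofNat (N₀ + 1 + 1)) with hcC
  have hinp : ∀ x : List Bool, (fun i : Fin (N₀ + 1 + 1) => (inp x : ℕ → List Bool) i) =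
      (inp x : Fin (N₀ + 2) → List Bool) := by
    intro x
    funext i
    by_cases hi : i = 0
    · subst hi; simp [inp]
    · have : (i : ℕ) ≠ 0 := fun h => hi (Fin.ext h)
      simp [inp, hi, this]
  set kp : Polynomial ℕ := pk.comp (Polynomial.C 4 * Polynomial.X + 1) with hkp
  set p : Polynomial ℕ := pA + 1 + Polynomial.C 2 * (Polynomial.C 2 * kp + 3 +
    (pC.comp (Polynomial.C 2 * kp + 1 + Polynomial.X) +
      Q.comp (9 + Polynomial.C 6 * kp + Polynomial.C 4 * Polynomial.X))) with hp
  have main : ∀ (Δ : Finset (Finset ℕ)) (d : ℕ) (L : List (List ℕ)),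
      IsComplex Δ → HasDim Δ d → Lists L Δ →
      (∀ Υ, IsSpanningTree Δ d Υ → outProb (lvMachine cA cC) (bits L) (bits (sublistOf L Υ)) =
        1 / ({Υ | IsSpanningTree Δ d Υ}.ncard : ENNReal)) ∧
      (∀ w y, (lvMachine cA cC).HaltsWith (bits L) w y →
        ∃ Υ, IsSpanningTree Δ d Υ ∧ y = bits (sublistOf L Υ)) ∧
      (lvMachine cA cC).expectedTime (bits L) ≤ (p.eval (bits L).length : ℕ) := by
    intro Δ d L hΔ hd hL
    set x := bits L with hx
    set s := sOf c L with hs
    set k := kOf L s with hk
    set m := (cols L).length with hm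
    have hM := mtd_L hL hd
    have hP := pad_ok L
    have hdec : decL x = L := by
      unfold decL; rw [hx, unbits_bits]; rfl
    have hs1 : 1 ≤ s := by
      rw [hs]; unfold sOf; rw [hc]
      nlinarith [Nat.zero_le Q.natDegree, Nat.zero_le (cols L).length]
    have hsk : s ≤ k := by rw [hk]; unfold kOf; omega
    set τ : ℕ → ℕ := fun R => pC.eval (2 * k + 1 + x.length) +
      if R % 2 ^ s = 0 then 2 ^ s * Q.eval (9 + 6 * k + 4 * x.length) else 0 with hτ
    obtain ⟨tA, htA, hrunA⟩ := hA x
    have hfA : fA c x = head k x := by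
      unfold fA
      rw [hdec]
    have hspec : SpecV cA cC x x k tA τ (outT L s) := by
      refine ⟨?_, ?_⟩
      · have h1 := hrunA.restrict (n := N₀ + 1) (by omega)
        rw [hinp, hinp] at h1
        have h2 : fA c x = head k x := hfA
        rw [← h2]
        exact h1
      · intro r hr
        obtain ⟨t, ht, hrunC⟩ := g1_run hE hC L r
        have h1 := hrunC.restrict (n := N₀ + 1) (by omega)
        rw [hinp, hinp] at h1
        refine ⟨t, ht.trans ?_, h1⟩
        have hlenp : (pairBits r x).length = 2 * k + 1 + x.length := by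
          unfold pairBits
          simp only [List.length_append, List.length_flatMap, List.length_cons]
          simp only [List.length_nil, List.map_const', List.sum_replicate, hr, smul_eq_mul]
          ring
        rw [hτ]
        simp only
        rw [hlenp]
        apply Nat.add_le_add_left
        by_cases h0 : valB r % 2 ^ s = 0
        · rw [if_pos h0, if_pos h0]
          have hρ : valB r / 2 ^ s < 2 ^ k := by
            refine (Nat.div_le_self _ _).trans_lt ?_
            rw [← hr]; exact valB_lt r
          have h2 := sz_w (L := L) hsk hρ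
          rw [← hx] at h2
          refine (eval_mul_le Q _ _ Nat.one_le_two_pow).trans ?_
          apply Nat.mul_le_mul
          · rw [← pow_mul]
            apply Nat.pow_le_pow_right (by norm_num)
            rw [hs]
            unfold sOf
            rw [mul_comm]
            exact Nat.mul_le_mul_right _ (by omega)
          · exact eval_mono Q h2
        · rw [if_neg h0, if_neg h0]
    have hsome : ∀ R, (outT L s R).isSome = (trialB L (2 ^ (2 * m + 1)) s R).isSome := by
      intro R
      unfold outT
      rw [Option.isSome_map]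
    have hacc : #((range (2 ^ k)).filter (fun R => (outT L s R).isSome = true)) =
        #(Bs (IndL L) (rk hL hd)) * bigK L (2 ^ (2 * m + 1)) s (tOf L s) := by
      rw [← trial_accept (s := s) hP hM, hk, two_pow_k]
      congr 1
      apply filter_congr
      intro R _
      rw [hsome]
    have hhalf : 2 ^ k ≤ 2 * #((range (2 ^ k)).filter (fun R => (outT L s R).isSome = true)) := by
      have h1 := trial_half hs1 hP hM
      rw [hk, two_pow_k]
      refine h1.trans (le_of_eq ?_)
      congr 2
      apply filter_congr
      intro R _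
      rw [hsome]
    refine ⟨?_, ?_, ?_⟩
    · -- probabilities
      intro Υ hΥ
      obtain ⟨S, hS, rfl⟩ := (isSpanningTree_iff hΔ hL hd Υ).1 hΥ
      rw [outProb_eq hspec, ← outL_eq hL hd, ncard_trees hΔ hL hd]
      have h1 := pr_start hspec (bits (outL L (toM S)))
      have h2 : #((range (2 ^ k)).filter (fun R => outT L s R = some (bits (outL L (toM S))))) =
          bigK L (2 ^ (2 * m + 1)) s (tOf L s) := by
        rw [← trial_count (s := s) hP hM hS, hk, two_pow_k]
        congr 1
        apply filter_congr
        intro R _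
        unfold outT
        constructor
        · intro h
          rw [Option.map_eq_some_iff] at h
          obtain ⟨μ, hμ, he⟩ := h
          obtain ⟨T, hT, rfl⟩ := trial_sound hP hM hμ
          rw [hμ, outL_inj hL hd (bits_injective he)]
        · intro h
          rw [h]; rfl
      rw [hacc, h2] at h1
      have hN : 0 < #(Bs (IndL L) (rk hL hd)) := card_pos.2 ⟨S, hS⟩
      have hK : 0 < bigK L (2 ^ (2 * m + 1)) s (tOf L s) := by
        rw [hacc] at hhalf
        by_contra hcon
        have : bigK L (2 ^ (2 * m + 1)) s (tOf L s) = 0 := by omega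
        rw [this] at hhalf
        have : 0 < 2 ^ k := by positivity
        omega
      have hN' : (0:ℝ) < #(Bs (IndL L) (rk hL hd)) := by exact_mod_cast hN
      have hK' : (0:ℝ) < bigK L (2 ^ (2 * m + 1)) s (tOf L s) := by exact_mod_cast hK
      have h3 : pr (fin cA cC (bits (outL L (toM S)))) ((lvMachine cA cC).start x) =
          1 / #(Bs (IndL L) (rk hL hd)) := by
        push_cast at h1
        field_simp
        have h4 : (bigK L (2 ^ (2 * m + 1)) s (tOf L s) : ℝ) *
            (pr (fin cA cC (bits (outL L (toM S)))) ((lvMachine cA cC).start x) *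
              #(Bs (IndL L) (rk hL hd))) = bigK L (2 ^ (2 * m + 1)) s (tOf L s) * 1 := by
          rw [mul_one]
          linarith
        have h5 := mul_left_cancel₀ hK'.ne' h4
        linarith
      rw [h3, ENNReal.ofReal_div_of_pos hN']
      simp
    · -- support
      intro w y hw
      obtain ⟨R, _, hR⟩ := halts_only hspec hw
      unfold outT at hR
      rw [Option.map_eq_some_iff] at hR
      obtain ⟨μ, hμ, rfl⟩ := hR
      obtain ⟨S, hS, rfl⟩ := trial_sound hP hM hμ
      exact ⟨treeOf hL hd S, (isSpanningTree_iff hΔ hL hd _).2 ⟨S, hS, rfl⟩, by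
        rw [outL_eq hL hd]⟩
    · -- time
      apply Pool.Agent.H591R2.CoinMachine.expectedTime_le
      intro N
      have h1 := lv_timeV hspec (D := 2) (Θ := pC.eval (2 * k + 1 + x.length) +
        Q.eval (9 + 6 * k + 4 * x.length)) hhalf (by
          rw [hk, two_pow_k, ← hk]
          exact (sum_rare s _ _ _).le) N
      refine h1.trans ?_
      have hk2 : k ≤ kp.eval x.length := by
        have h2 := hpk x
        beta_reduce at h2
        rw [hdec, sz_unary] at h2
        have h3 := sz_listBool_le x
        have h4 := eval_mono pk h3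
        rw [hkp, Polynomial.eval_comp]
        simp only [Polynomial.eval_add, Polynomial.eval_mul, Polynomial.eval_C, Polynomial.eval_X,
          Polynomial.eval_one]
        have h5 : 2 * k + 1 ≤ pk.eval (sz x) := h2
        omega
      have h2 : tA + 1 + 2 * (2 * k + 3 + (pC.eval (2 * k + 1 + x.length) +
          Q.eval (9 + 6 * k + 4 * x.length))) ≤ p.eval x.length := by
        rw [hp]
        simp only [Polynomial.eval_add, Polynomial.eval_mul, Polynomial.eval_C, Polynomial.eval_X,
          Polynomial.eval_one, Polynomial.eval_comp, Polynomial.eval_ofNat]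
        have e1 := eval_mono pC (show 2 * k + 1 + x.length ≤
          2 * kp.eval x.length + 1 + x.length by omega)
        have e2 := eval_mono Q (show 9 + 6 * k + 4 * x.length ≤
          9 + 6 * kp.eval x.length + 4 * x.length by omega)
        have e3 : tA ≤ pA.eval x.length := htA
        have e4 : Polynomial.eval x.length kp = Polynomial.eval (4 * x.length + 1) pk := by
          rw [hkp, Polynomial.eval_comp]
          simp
        omega
      exact_mod_cast h2
  refine ⟨lvMachine cA cC, p, p.comp (Polynomial.X * (Polynomial.X * (Polynomial.C 4 * Polynomial.X +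
    Polynomial.C 2) + Polynomial.C 2) + 1), fun Δ d L hΔ hd hL => ?_⟩
  obtain ⟨h1, h2, h3⟩ := main Δ d L hΔ hd hL
  refine ⟨h1, h2, h3, fun hlab => h3.trans ?_⟩
  rw [Polynomial.eval_comp]
  simp only [Polynomial.eval_add, Polynomial.eval_mul, Polynomial.eval_C, Polynomial.eval_X,
    Polynomial.eval_one]
  have h4 := size_bits_le (fun l hl => ((hL.2 l).1 hl).1) hlab
  have h5 := eval_mono p h4
  exact_mod_cast h5

end Pool.Agent.NPC.R997
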