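import Pool.Agent.Run7.h997.TD

/-!
# Matroids given by their independent sets: weights of links and the Hodge-Riemann inequality
-/

namespace Pool.Agent.Run7.h997

open Finset

section

variable {α : Type} [Fintype α] [DecidableEq α]

/-- `Ind` is the family of independent sets of a matroid of rank `r` on the finite set `α`. -/
structure Mtd (Ind : Finset α → Prop) (r : ℕ) : Prop where
  hered : ∀ I J, Ind J → I ⊆ J → Ind I
  aug : ∀ I J, Ind I → Ind J → #I < #J → ∃ x ∈ J, x ∉ I ∧ Ind (insert x I)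
  base : ∃ B, Ind B ∧ #B = r
  le : ∀ I, Ind I → #I ≤ r

open scoped Classical in
/-- the bases -/
noncomputable def Bs (Ind : Finset α → Prop) (r : ℕ) : Finset (Finset α) :=
  univ.filter (fun B => Ind B ∧ #B = r)

/-- the bases containing `J` -/
noncomputable def BJ (Ind : Finset α → Prop) (r : ℕ) (J : Finset α) : Finset (Finset α) :=
  (Bs Ind r).filter (J ⊆ ·)

variable {Ind : Finset α → Prop} {r : ℕ}

theorem mem_Bs {B : Finset α} : B ∈ Bs Ind r ↔ Ind B ∧ #B = r := by simp [Bs]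

theorem mem_BJ {B J : Finset α} : B ∈ BJ Ind r J ↔ (Ind B ∧ #B = r) ∧ J ⊆ B := by
  simp [BJ, mem_Bs]

theorem mem_BJ_insert {B J : Finset α} {e : α} :
    B ∈ BJ Ind r (insert e J) ↔ B ∈ BJ Ind r J ∧ e ∈ B := by
  rw [mem_BJ, mem_BJ, insert_subset_iff]; tauto

theorem card_sdiff_BJ {B J : Finset α} (h : B ∈ BJ Ind r J) : #(B \ J) + #J = r := by
  rw [mem_BJ] at h
  rw [card_sdiff_add_card_eq_card h.2, h.1.2]

/-- double counting -/
theorem dc (h : α → Finset α → ℝ) (J : Finset α) :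
    ∑ e ∈ Jᶜ, ∑ B ∈ BJ Ind r (insert e J), h e B = ∑ B ∈ BJ Ind r J, ∑ e ∈ B \ J, h e B := by
  apply sum_comm'
  intro e B
  rw [mem_BJ_insert, mem_compl, mem_sdiff]
  tauto

/-- sum over the bases containing `J` -/
noncomputable def FJ (Ind : Finset α → Prop) (r : ℕ) (f : Finset α → ℝ) (J : Finset α) : ℝ :=
  ∑ B ∈ BJ Ind r J, f B

/-- number of bases containing `J` -/
noncomputable def W (Ind : Finset α → Prop) (r : ℕ) (J : Finset α) : ℝ := #(BJ Ind r J)

theorem W_eq (J : Finset α) : W Ind r J = ∑ B ∈ BJ Ind r J, (1 : ℝ) := by simp [W]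

theorem W_nonneg (J : Finset α) : 0 ≤ W Ind r J := by unfold W; positivity

/-- independent sets extend to bases -/
theorem Mtd.exists_base (hM : Mtd Ind r) : ∀ (k : ℕ) (J : Finset α), Ind J → #J + k = r →
    ∃ B, B ∈ BJ Ind r J := by
  intro k
  induction k with
  | zero => intro J hJ h; exact ⟨J, mem_BJ.2 ⟨⟨hJ, by omega⟩, Subset.rfl⟩⟩
  | succ k ih =>
    intro J hJ h
    obtain ⟨B, hB, hr⟩ := hM.base
    obtain ⟨x, _, hxJ, hx⟩ := hM.aug J B hJ hB (by omega)
    obtain ⟨B', hB'⟩ := ih (insert x J) hx (by rw [card_insert_of_notMem hxJ]; omega)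
    exact ⟨B', (mem_BJ_insert.1 hB').1⟩

theorem Mtd.W_pos (hM : Mtd Ind r) {J : Finset α} (hJ : Ind J) : 0 < W Ind r J := by
  have h1 := hM.le J hJ
  obtain ⟨B, hB⟩ := hM.exists_base (r - #J) J hJ (by omega)
  unfold W
  have : 0 < #(BJ Ind r J) := card_pos.2 ⟨B, hB⟩
  exact_mod_cast this

theorem Mtd.ind_of_W_pos (hM : Mtd Ind r) {J : Finset α} (h : 0 < W Ind r J) : Ind J := by
  unfold W at h
  have : 0 < #(BJ Ind r J) := by exact_mod_cast h
  obtain ⟨B, hB⟩ := card_pos.1 this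
  rw [mem_BJ] at hB
  exact hM.hered J B hB.1.1 hB.2

open scoped Classical in
/-- the weighted adjacency matrix of the link of `J` -/
noncomputable def AJ (Ind : Finset α → Prop) (r : ℕ) (J : Finset α) (e f : α) : ℝ :=
  ∑ B ∈ BJ Ind r J, if e ∈ B \ J ∧ f ∈ B \ J ∧ e ≠ f then 1 else 0

theorem AJ_symm (J : Finset α) (e f : α) : AJ Ind r J e f = AJ Ind r J f e := by
  unfold AJ
  refine sum_congr rfl fun B _ => ?_
  congr 1
  exact propext ⟨fun h => ⟨h.2.1, h.1, h.2.2.symm⟩, fun h => ⟨h.2.1, h.1, h.2.2.symm⟩⟩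

theorem AJ_nonneg (J : Finset α) (e f : α) : 0 ≤ AJ Ind r J e f := by
  unfold AJ
  exact sum_nonneg fun B _ => by split_ifs <;> norm_num

theorem AJ_of_ne {J : Finset α} {e f : α} (he : e ∉ J) (hf : f ∉ J) (hef : e ≠ f) :
    AJ Ind r J e f = W Ind r (insert f (insert e J)) := by
  unfold AJ W
  rw [sum_boole]
  congr 2
  ext B
  rw [mem_filter, mem_BJ_insert, mem_BJ_insert, mem_sdiff, mem_sdiff]
  tauto

theorem AJ_self (J : Finset α) (e : α) : AJ Ind r J e e = 0 := by simp [AJ]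

theorem AJ_left {J : Finset α} {e : α} (f : α) (he : e ∈ J) : AJ Ind r J e f = 0 := by
  simp [AJ, he]

/-- the quadratic form of the link as a sum over bases -/
theorem qf_AJ (J : Finset α) (φ : α → ℝ) :
    qf (AJ Ind r J) φ = ∑ B ∈ BJ Ind r J, ((∑ e ∈ B \ J, φ e) ^ 2 - ∑ e ∈ B \ J, φ e ^ 2) := by
  classical
  unfold qf AJ
  simp only [sum_mul]
  have h1 : ∀ e : α, ∑ f, ∑ B ∈ BJ Ind r J, (if e ∈ B \ J ∧ f ∈ B \ J ∧ e ≠ f then (1:ℝ) else 0) *
      φ e * φ f = ∑ B ∈ BJ Ind r J, ∑ f, (if e ∈ B \ J ∧ f ∈ B \ J ∧ e ≠ f then (1:ℝ) else 0) *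
      φ e * φ f := fun e => sum_comm
  simp only [h1]
  rw [sum_comm]
  refine sum_congr rfl fun B _ => ?_
  have h2 : ∀ e f : α, (if e ∈ B \ J ∧ f ∈ B \ J ∧ e ≠ f then (1:ℝ) else 0) * φ e * φ f =
      (if e ∈ B \ J then (if f ∈ B \ J then φ e * φ f else 0) else 0) -
      (if e ∈ B \ J then (if f = e then φ e * φ f else 0) else 0) := by
    intro e f
    by_cases he : e ∈ B \ J
    · by_cases hf : f ∈ B \ J
      · by_cases hef : e = f
        · subst hef; simp [he]
        · simp [he, hf, hef, Ne.symm hef]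
      · have : f ≠ e := fun h => hf (h ▸ he)
        simp [he, hf, this]
    · simp [he]
  simp only [h2, sum_sub_distrib]
  congr 1
  · have e1 : univ.filter (fun f => f ∈ B \ J) = B \ J := by ext; simp
    have e2 : ∀ e : α, (∑ f, if e ∈ B \ J then (if f ∈ B \ J then φ e * φ f else 0) else 0) =
        if e ∈ B \ J then φ e * ∑ f ∈ B \ J, φ f else 0 := by
      intro e
      by_cases he : e ∈ B \ J
      · simp only [if_pos he]
        rw [← sum_filter, e1, mul_sum]
      · simp only [if_neg he, sum_const_zero]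
    simp only [e2]
    rw [← sum_filter, e1, ← sum_mul, sq]
  · have e1 : univ.filter (fun f => f ∈ B \ J) = B \ J := by ext; simp
    have e2 : ∀ e : α, (∑ f, if e ∈ B \ J then (if f = e then φ e * φ f else 0) else 0) =
        if e ∈ B \ J then φ e ^ 2 else 0 := by
      intro e
      by_cases he : e ∈ B \ J
      · simp only [if_pos he]
        rw [sum_ite_eq' univ e (fun f => φ e * φ f), if_pos (mem_univ e), sq]
      · simp only [if_neg he, sum_const_zero]
    simp only [e2]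
    rw [← sum_filter, e1]

/-- the rows of the link -/
theorem row_AJ (J : Finset α) (φ : α → ℝ) {e : α} (he : e ∉ J) :
    ∑ f, AJ Ind r J e f * φ f =
      ∑ B ∈ BJ Ind r (insert e J), ∑ f ∈ B \ insert e J, φ f := by
  classical
  unfold AJ
  simp only [sum_mul]
  rw [sum_comm]
  have h1 : ∀ B, (∑ f, (if e ∈ B \ J ∧ f ∈ B \ J ∧ e ≠ f then (1:ℝ) else 0) * φ f) =
      if e ∈ B then ∑ f ∈ B \ insert e J, φ f else 0 := by
    intro B
    by_cases heB : e ∈ B
    · rw [if_pos heB]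
      have : ∀ f, (if e ∈ B \ J ∧ f ∈ B \ J ∧ e ≠ f then (1:ℝ) else 0) * φ f =
          if f ∈ B \ insert e J then φ f else 0 := by
        intro f
        have h2 : (e ∈ B \ J ∧ f ∈ B \ J ∧ e ≠ f) ↔ f ∈ B \ insert e J := by
          simp only [mem_sdiff, mem_insert]
          constructor
          · rintro ⟨_, ⟨h1, h2⟩, h3⟩
            exact ⟨h1, fun h => h.elim (fun h => h3 h.symm) h2⟩
          · rintro ⟨h1, h2⟩
            exact ⟨⟨heB, he⟩, ⟨h1, fun h => h2 (Or.inr h)⟩, fun h => h2 (Or.inl h.symm)⟩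
        simp only [h2]
        split_ifs <;> simp
      simp only [this]
      rw [← sum_filter]
      congr 1
      ext; simp
    · rw [if_neg heB]
      refine sum_eq_zero fun f _ => ?_
      have : ¬ (e ∈ B \ J ∧ f ∈ B \ J ∧ e ≠ f) := fun h => heB (mem_sdiff.1 h.1).1
      rw [if_neg this, zero_mul]
  simp only [h1]
  rw [← sum_filter]
  congr 1
  ext B
  rw [mem_filter, mem_BJ_insert]

/-- sum of all rows -/
theorem rows_AJ (J : Finset α) {k : ℕ} (hk : #J + (k + 1) = r) (φ : α → ℝ) :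
    ∑ e, ∑ f, AJ Ind r J e f * φ f = k * ∑ B ∈ BJ Ind r J, ∑ e ∈ B \ J, φ e := by
  classical
  have h1 : ∑ e, ∑ f, AJ Ind r J e f * φ f = ∑ e ∈ Jᶜ, ∑ f, AJ Ind r J e f * φ f := by
    rw [← sum_add_sum_compl J]
    rw [sum_eq_zero (s := J), zero_add]
    intro e he
    exact sum_eq_zero fun f _ => by rw [AJ_left f he, zero_mul]
  rw [h1, sum_congr rfl (fun e he => row_AJ J φ (mem_compl.1 he)),
    dc (fun e B => ∑ f ∈ B \ insert e J, φ f), mul_sum]
  refine sum_congr rfl fun B hB => ?_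
  have h2 : ∀ e ∈ B \ J, ∑ f ∈ B \ insert e J, φ f = (∑ f ∈ B \ J, φ f) - φ e := by
    intro e he
    have : B \ insert e J = (B \ J).erase e := by
      ext f; simp only [mem_sdiff, mem_insert, mem_erase]; tauto
    rw [this, ← add_sum_erase (B \ J) φ he]; ring
  rw [sum_congr rfl h2, sum_sub_distrib, sum_const, nsmul_eq_mul]
  have h3 := card_sdiff_BJ hB
  have h4 : #(B \ J) = k + 1 := by omega
  rw [h4]; push_cast; ring

theorem qf_AJ_one (J : Finset α) {k : ℕ} (hk : #J + (k + 1) = r) :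
    qf (AJ Ind r J) (fun _ => 1) = (k + 1) * k * W Ind r J := by
  rw [qf_AJ, W_eq, mul_sum]
  refine sum_congr rfl fun B hB => ?_
  have h3 := card_sdiff_BJ hB
  have h4 : #(B \ J) = k + 1 := by omega
  simp only [sum_const, nsmul_eq_mul, one_pow, h4]
  push_cast; ring

/-- the forms of the links of larger sets add up -/
theorem sum_qf_AJ (J : Finset α) {k : ℕ} (hk : #J + (k + 2) = r) (φ : α → ℝ) :
    ∑ g ∈ Jᶜ, qf (AJ Ind r (insert g J)) φ = k * qf (AJ Ind r J) φ := by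
  simp only [qf_AJ]
  rw [dc (fun g B => (∑ e ∈ B \ insert g J, φ e) ^ 2 - ∑ e ∈ B \ insert g J, φ e ^ 2), mul_sum]
  refine sum_congr rfl fun B hB => ?_
  have h3 := card_sdiff_BJ hB
  have h4 : #(B \ J) = k + 2 := by omega
  have h2 : ∀ ψ : α → ℝ, ∀ e ∈ B \ J, ∑ f ∈ B \ insert e J, ψ f = (∑ f ∈ B \ J, ψ f) - ψ e := by
    intro ψ e he
    have : B \ insert e J = (B \ J).erase e := by
      ext f; simp only [mem_sdiff, mem_insert, mem_erase]; tauto
    rw [this, ← add_sum_erase (B \ J) ψ he]; ring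
  set S := ∑ e ∈ B \ J, φ e with hS
  set T := ∑ e ∈ B \ J, φ e ^ 2 with hT
  have h5 : ∀ g ∈ B \ J, (∑ e ∈ B \ insert g J, φ e) ^ 2 - ∑ e ∈ B \ insert g J, φ e ^ 2 =
      (S ^ 2 - T) - 2 * S * φ g + 2 * φ g ^ 2 := by
    intro g hg
    rw [h2 φ g hg, h2 (fun e => φ e ^ 2) g hg, ← hS, ← hT]; ring
  rw [sum_congr rfl h5, sum_add_distrib, sum_sub_distrib, sum_const, nsmul_eq_mul, ← mul_sum,
    ← mul_sum, ← hS, ← hT, h4]
  push_cast; ring

end

end Pool.Agent.Run7.h997
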