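import Pool.Agent.Run7.h997.Defs
import Pool.Agent.H591R2.Coin

/-!
# The output distribution of a coin-tossing machine
-/

namespace Pool.Agent.Run7.h997

open Turing Function Pool.Agent.H591R2 Pool.Agent.H591R2.CoinMachine

variable {M : CoinMachine}

/-- number of coin sequences of length `i` leading from `c` to `h` -/
noncomputable def nh (h c : M.Conf) (i : ℕ) : ℕ :=
  {w : List Bool | w.length = i ∧ M.run c w = some h}.ncard

theorem nh_zero (h c : M.Conf) : nh h c 0 = open scoped Classical in if c = h then 1 else 0 := by
  classical
  unfold nh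
  split_ifs with hc
  · have : {w : List Bool | w.length = 0 ∧ M.run c w = some h} = {[]} := by
      ext w
      simp only [Set.mem_ofPred_eq, Set.mem_singleton_iff, List.length_eq_zero_iff]
      constructor
      · exact fun h => h.1
      · rintro rfl
        exact ⟨rfl, by rw [run_nil, hc]⟩
    rw [this, Set.ncard_singleton]
  · have : {w : List Bool | w.length = 0 ∧ M.run c w = some h} = ∅ := by
      ext w
      simp only [Set.mem_ofPred_eq, Set.mem_empty_iff_false, iff_false, not_and,
        List.length_eq_zero_iff]
      rintro rfl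
      rw [run_nil, Option.some.injEq]
      exact hc
    rw [this, Set.ncard_empty]

theorem nh_succ (h c : M.Conf) (i : ℕ) : nh h c (i + 1) =
    (M.step false c).elim 0 (fun c' => nh h c' i) + (M.step true c).elim 0 (fun c' => nh h c' i) := by
  have key : ∀ b, (M.step b c).elim 0 (fun c' => nh h c' i) =
      {w : List Bool | w.length = i ∧ M.run c (b :: w) = some h}.ncard := by
    intro b
    cases hb : M.step b c with
    | none =>
      have : {w : List Bool | w.length = i ∧ M.run c (b :: w) = some h} = ∅ := by
        ext w
        simp only [Set.mem_ofPred_eq, Set.mem_empty_iff_false, iff_false, not_and]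
        intro _
        rw [run_cons, hb]
        simp
      rw [this]
      simp
    | some c' =>
      simp only [Option.elim_some]
      unfold nh
      congr 1
      ext w
      simp only [Set.mem_ofPred_eq]
      rw [run_cons, hb]
      rfl
  rw [key, key]
  unfold nh
  have e : {w : List Bool | w.length = i + 1 ∧ M.run c w = some h} =
      (fun w => false :: w) '' {w : List Bool | w.length = i ∧ M.run c (false :: w) = some h} ∪
      (fun w => true :: w) '' {w : List Bool | w.length = i ∧ M.run c (true :: w) = some h} := by
    ext w
    simp only [Set.mem_ofPred_eq, Set.mem_union, Set.mem_image]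
    constructor
    · rintro ⟨h1, h2⟩
      cases w with
      | nil => simp at h1
      | cons b w =>
        have h3 : w.length = i := by simpa using h1
        cases b
        · left; exact ⟨w, ⟨h3, h2⟩, rfl⟩
        · right; exact ⟨w, ⟨h3, h2⟩, rfl⟩
    · rintro (⟨w', ⟨h1, h2⟩, rfl⟩ | ⟨w', ⟨h1, h2⟩, rfl⟩)
      · exact ⟨by simp [h1], h2⟩
      · exact ⟨by simp [h1], h2⟩
  have hdis : Disjoint
      ((fun w => false :: w) '' {w : List Bool | w.length = i ∧ M.run c (false :: w) = some h})
      ((fun w => true :: w) '' {w : List Bool | w.length = i ∧ M.run c (true :: w) = some h}) := by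
    rw [Set.disjoint_left]
    rintro w ⟨w1, _, rfl⟩ ⟨w2, _, h⟩
    simp at h
  rw [e, Set.ncard_union_eq hdis ((finite_len i _).image _) ((finite_len i _).image _),
    Set.ncard_image_of_injective _ (fun a b h => by simpa using h),
    Set.ncard_image_of_injective _ (fun a b h => by simpa using h)]

/-- probability of halting in the configuration `h` -/
noncomputable def hp (h c : M.Conf) : ENNReal := ∑' i, (nh h c i : ENNReal) / 2 ^ i

theorem nh_halt {h c : M.Conf} (hc : c.l = none) (i : ℕ) : nh h c (i + 1) = 0 := by
  rw [nh_succ, step_none _ hc, step_none _ hc]; rfl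

theorem tsum_step (f : ℕ → ENNReal) : ∑' i, f i = f 0 + ∑' i, f (i + 1) :=
  tsum_eq_zero_add' ENNReal.summable

theorem hp_halt {h c : M.Conf} (hc : c.l = none) :
    hp h c = open scoped Classical in if c = h then 1 else 0 := by
  classical
  unfold hp
  rw [tsum_step, nh_zero]
  simp only [nh_halt hc]
  split_ifs <;> simp

theorem hp_coin {h c : M.Conf} (hh : h.l = none) {d : Bool → M.Conf}
    (hd : ∀ b, M.step b c = some (d b)) : hp h c = (hp h (d false) + hp h (d true)) / 2 := by
  classical
  have hne : c ≠ h := by
    intro hc
    have := hd false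
    rw [step_none _ (hc ▸ hh)] at this
    simp at this
  unfold hp
  rw [tsum_step, nh_zero, if_neg hne]
  simp only [Nat.cast_zero, ENNReal.zero_div, zero_add, nh_succ, hd, Option.elim_some]
  rw [← ENNReal.tsum_add, div_eq_mul_inv, ← ENNReal.tsum_mul_right]
  refine tsum_congr fun i => ?_
  rw [pow_succ, div_eq_mul_inv, div_eq_mul_inv, div_eq_mul_inv,
    ENNReal.mul_inv (Or.inr (by norm_num)) (Or.inr (by norm_num))]
  push_cast
  ring

theorem hp_trunc_le (h : M.Conf) (hh : h.l = none) (N : ℕ) : ∀ c : M.Conf,
    ∑ i ∈ Finset.range N, (nh h c i : ENNReal) / 2 ^ i ≤ 1 := by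
  classical
  induction N with
  | zero => intro c; simp
  | succ N ih =>
    intro c
    rw [Finset.sum_range_succ', nh_zero]
    by_cases hc : c.l = none
    · simp only [nh_halt hc]
      split_ifs <;> simp
    · have hne : c ≠ h := fun h' => hc (h' ▸ hh)
      rw [if_neg hne]
      obtain ⟨c0, h0⟩ := step_some (M := M) false hc
      obtain ⟨c1, h1⟩ := step_some (M := M) true hc
      simp only [nh_succ, h0, h1, Option.elim_some, Nat.cast_zero, ENNReal.zero_div, add_zero]
      have e : ∀ i, ((nh h c0 i + nh h c1 i : ℕ) : ENNReal) / 2 ^ (i + 1) =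
          ((nh h c0 i : ENNReal) / 2 ^ i + (nh h c1 i : ENNReal) / 2 ^ i) / 2 := by
        intro i
        rw [pow_succ, div_eq_mul_inv, div_eq_mul_inv, div_eq_mul_inv, div_eq_mul_inv,
          ENNReal.mul_inv (Or.inr (by norm_num)) (Or.inr (by norm_num))]
        push_cast
        ring
      simp only [e]
      simp only [div_eq_mul_inv _ (2:ENNReal), ← Finset.sum_mul, Finset.sum_add_distrib]
      rw [← div_eq_mul_inv]
      calc _ ≤ ((1:ENNReal) + 1) / 2 := ENNReal.div_le_div_right (add_le_add (ih c0) (ih c1)) 2
        _ = 1 := by rw [one_add_one_eq_two, ENNReal.div_self (by norm_num) (by norm_num)]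

theorem hp_le_one {h : M.Conf} (hh : h.l = none) (c : M.Conf) : hp h c ≤ 1 :=
  ENNReal.tsum_le_of_sum_range_le fun N => hp_trunc_le h hh N c

/-- the real-valued probability -/
noncomputable def pr (h c : M.Conf) : ℝ := (hp h c).toReal

theorem pr_halt {h c : M.Conf} (hc : c.l = none) :
    pr h c = open scoped Classical in if c = h then 1 else 0 := by
  classical
  unfold pr
  rw [hp_halt hc]
  split_ifs <;> simp

theorem pr_coin {h c : M.Conf} (hh : h.l = none) {d : Bool → M.Conf}
    (hd : ∀ b, M.step b c = some (d b)) : pr h c = (pr h (d false) + pr h (d true)) / 2 := by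
  unfold pr
  have h0 : hp h (d false) ≠ ⊤ := ((hp_le_one hh _).trans_lt ENNReal.one_lt_top).ne
  have h1 : hp h (d true) ≠ ⊤ := ((hp_le_one hh _).trans_lt ENNReal.one_lt_top).ne
  rw [hp_coin hh hd, ENNReal.toReal_div, ENNReal.toReal_add h0 h1]
  simp

theorem pr_step {h c d : M.Conf} (hh : h.l = none) (hd : ∀ b, M.step b c = some d) :
    pr h c = pr h d := by
  rw [pr_coin hh (d := fun _ => d) hd]; ring

theorem pr_seg {h : M.Conf} (hh : h.l = none) (t : ℕ) : ∀ {c d : M.Conf},
    (∀ w : List Bool, w.length = t → M.run c w = some d) → pr h c = pr h d := by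
  induction t with
  | zero =>
    intro c d hd
    have := hd [] rfl
    rw [run_nil, Option.some.injEq] at this
    rw [this]
  | succ t ih =>
    intro c d hd
    by_cases hc : c.l = none
    · have := hd (false :: List.replicate t false) (by simp)
      rw [run_cons, step_none _ hc] at this
      simp at this
    · obtain ⟨c0, h0⟩ := step_some (M := M) false hc
      obtain ⟨c1, h1⟩ := step_some (M := M) true hc
      have i0 : pr h c0 = pr h d := ih fun w hw => by
        have := hd (false :: w) (by simp [hw])
        rw [run_cons, h0] at this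
        exact this
      have i1 : pr h c1 = pr h d := ih fun w hw => by
        have := hd (true :: w) (by simp [hw])
        rw [run_cons, h1] at this
        exact this
      have := pr_coin hh (c := c) (d := fun b => if b then c1 else c0) (by
        intro b; cases b
        · simpa using h0
        · simpa using h1)
      simp only [Bool.false_eq_true, if_false, if_true] at this
      rw [this, i0, i1]; ring

theorem hp_eq {h : M.Conf} (hh : h.l = none) (c : M.Conf) : hp h c = ENNReal.ofReal (pr h c) :=
  (ENNReal.ofReal_toReal ((hp_le_one hh _).trans_lt ENNReal.one_lt_top).ne).symm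

theorem pr_nonneg (h c : M.Conf) : 0 ≤ pr h c := ENNReal.toReal_nonneg

end Pool.Agent.Run7.h997
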