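import Mathlib

/-!
# Linear algebra behind the trickling-down theorem
-/

namespace Pool.Agent.Run7.h997

open Finset

section

variable {ι : Type} [Fintype ι]

/-- the quadratic form of a matrix -/
def qf (A : ι → ι → ℝ) (φ : ι → ℝ) : ℝ := ∑ e, ∑ f, A e f * φ e * φ f

/-- From nonpositivity on a hyperplane to the reversed Cauchy-Schwarz inequality with `1`. -/
theorem lorentz (A : ι → ι → ℝ) (hA : ∀ e f, A e f = A f e) (l : ι → ℝ) (hl : 0 < ∑ e, l e)
    (hQ : 0 ≤ qf A (fun _ => 1))
    (h : ∀ ψ : ι → ℝ, ∑ e, l e * ψ e = 0 → qf A ψ ≤ 0) (φ : ι → ℝ) :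
    qf A φ * qf A (fun _ => 1) ≤ (∑ e, ∑ f, A e f * φ f) ^ 2 := by
  set x := (∑ e, l e * φ e) / ∑ e, l e with hx
  have h1 : ∑ e, l e * (φ e - x) = 0 := by
    simp only [mul_sub, sum_sub_distrib, ← sum_mul]
    rw [hx]; field_simp; ring
  have h2 := h (fun e => φ e - x) h1
  have h3 : qf A (fun e => φ e - x) = qf A φ - 2 * x * (∑ e, ∑ f, A e f * φ f) +
      x ^ 2 * qf A (fun _ => 1) := by
    have hs : ∑ e, ∑ f, A e f * φ e = ∑ e, ∑ f, A e f * φ f := by
      rw [sum_comm]
      exact sum_congr rfl fun e _ => sum_congr rfl fun f _ => by rw [hA]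
    have h4 : qf A (fun e => φ e - x) = qf A φ - x * (∑ e, ∑ f, A e f * φ f) -
        x * (∑ e, ∑ f, A e f * φ e) + x ^ 2 * qf A (fun _ => 1) := by
      unfold qf
      simp only [mul_sum, ← sum_sub_distrib, ← sum_add_distrib]
      exact sum_congr rfl fun e _ => sum_congr rfl fun f _ => by ring
    rw [h4, hs]; ring
  rw [h3] at h2
  set Q := qf A (fun _ => (1 : ℝ))
  set S := ∑ e, ∑ f, A e f * φ f
  set P := qf A φ
  nlinarith [mul_le_mul_of_nonneg_right h2 hQ, sq_nonneg (x * Q - S)]

/-- **Trickling down.**  A weighted graph whose quadratic form is dominated by the form of its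
square, and any two of whose vertices are adjacent or have a common neighbour, has no positive
eigenvalue besides the trivial one. -/
theorem trickle (A : ι → ι → ℝ) (D : ι → ℝ) (hA : ∀ e f, A e f = A f e) (hA0 : ∀ e f, 0 ≤ A e f)
    (hrow : ∀ e, ∑ f, A e f = D e)
    (hconn : ∀ e f, 0 < D e → 0 < D f → e = f ∨ 0 < A e f ∨ ∃ g, 0 < A e g ∧ 0 < A g f)
    (hstar : ∀ φ : ι → ℝ, qf A φ ≤ ∑ e, (∑ f, A e f * φ f) ^ 2 / D e)
    (φ : ι → ℝ) (hφ : ∑ e, D e * φ e = 0) : qf A φ ≤ 0 := by
  classical
  have hD0 : ∀ e, 0 ≤ D e := fun e => by rw [← hrow]; exact sum_nonneg fun f _ => hA0 e f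
  have hAle : ∀ e f, A e f ≤ D e := fun e f => by
    rw [← hrow]
    exact single_le_sum (f := fun f => A e f) (fun f _ => hA0 e f) (mem_univ f)
  have hA1 : ∀ e f, D e = 0 → A e f = 0 := fun e f h =>
    le_antisymm (h ▸ hAle e f) (hA0 e f)
  have hA2 : ∀ e f, D f = 0 → A e f = 0 := fun e f h => by rw [hA]; exact hA1 f e h
  set s : ι → ℝ := fun e => Real.sqrt (D e) with hs
  have hss : ∀ e, s e * s e = D e := fun e => Real.mul_self_sqrt (hD0 e)
  have hs0 : ∀ e, D e ≠ 0 → s e ≠ 0 := fun e h h' => h (by rw [← hss, h']; simp)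
  have hsz : ∀ e, D e = 0 → s e = 0 := fun e h => by simp [hs, h]
  set B : Matrix ι ι ℝ := Matrix.of fun e f => A e f / (s e * s f) with hB
  have hBA : ∀ e f, A e f = s e * s f * B e f := by
    intro e f
    by_cases he : D e = 0
    · rw [hA1 e f he, hsz e he]; simp
    · by_cases hf : D f = 0
      · rw [hA2 e f hf, hsz f hf]; simp
      · simp only [hB, Matrix.of_apply]
        have := hs0 e he
        have := hs0 f hf
        field_simp
  have hBh : B.IsHermitian := by
    ext e f
    simp only [hB, Matrix.conjTranspose_apply, Matrix.of_apply, star_trivial]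
    rw [hA, mul_comm (s f)]
  set V := hBh.eigenvectorBasis with hV
  set lam := hBh.eigenvalues with hlam
  have heig : ∀ j e, ∑ f, B e f * V j f = lam j * V j e := by
    intro j e
    have := congrFun (hBh.mulVec_eigenvectorBasis j) e
    simpa [Matrix.mulVec, dotProduct] using this
  -- properties of the eigenvectors
  have key : ∀ j, lam j ≤ 0 ∨ ∃ c : ℝ, ∀ e, V j e = c * s e := by
    intro j
    by_cases hl : lam j ≤ 0
    · exact Or.inl hl
    right
    push Not at hl
    -- coordinates with `D e = 0` vanish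
    have hz : ∀ e, D e = 0 → V j e = 0 := by
      intro e he
      have h1 := heig j e
      have h2 : ∀ f, B e f = 0 := by
        intro f
        simp only [hB, Matrix.of_apply, hA1 e f he, zero_div]
      simp only [h2, zero_mul, sum_const_zero] at h1
      rcases mul_eq_zero.1 h1.symm with h | h
      · exact absurd h hl.ne'
      · exact h
    set ψ : ι → ℝ := fun e => V j e / s e with hψ
    have hVψ : ∀ e, V j e = s e * ψ e := by
      intro e
      by_cases he : D e = 0
      · rw [hz e he, hsz e he]; simp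
      · simp only [hψ]
        have := hs0 e he
        field_simp
    have hAψ : ∀ e, ∑ f, A e f * ψ f = lam j * (D e * ψ e) := by
      intro e
      have h1 : ∑ f, A e f * ψ f = s e * ∑ f, B e f * V j f := by
        rw [mul_sum]
        refine sum_congr rfl fun f _ => ?_
        rw [hBA, hVψ f]; ring
      rw [h1, heig, hVψ e, ← hss]; ring
    -- `lam j = 1` or so
    have hnorm : 0 < ∑ e, D e * ψ e ^ 2 := by
      have h1 : ∑ e, D e * ψ e ^ 2 = ∑ e, V j e ^ 2 := by
        refine sum_congr rfl fun e _ => ?_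
        rw [hVψ e, ← hss]; ring
      have h2 : ‖V j‖ = 1 := V.orthonormal.1 j
      rw [h1]
      have h3 : ‖V j‖ ^ 2 = ∑ e, ‖V j e‖ ^ 2 := EuclideanSpace.norm_sq_eq _
      rw [h2] at h3
      have h4 : ∑ e, V j e ^ 2 = ∑ e, ‖V j e‖ ^ 2 := by
        refine sum_congr rfl fun e _ => ?_
        rw [Real.norm_eq_abs, sq_abs]
      rw [h4, ← h3]; norm_num
    have hge : 1 ≤ lam j := by
      have h1 := hstar ψ
      have h2 : qf A ψ = lam j * ∑ e, D e * ψ e ^ 2 := by
        unfold qf
        rw [mul_sum]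
        refine sum_congr rfl fun e _ => ?_
        have : ∑ f, A e f * ψ e * ψ f = ψ e * ∑ f, A e f * ψ f := by
          rw [mul_sum]; exact sum_congr rfl fun f _ => by ring
        rw [this, hAψ]; ring
      have h3 : ∑ e, (∑ f, A e f * ψ f) ^ 2 / D e = lam j ^ 2 * ∑ e, D e * ψ e ^ 2 := by
        rw [mul_sum]
        refine sum_congr rfl fun e _ => ?_
        rw [hAψ]
        by_cases he : D e = 0
        · simp [he]
        · field_simp
      rw [h2, h3] at h1
      have h4 : lam j * (∑ e, D e * ψ e ^ 2) * 1 ≤ lam j * (∑ e, D e * ψ e ^ 2) * lam j := by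
        linarith
      exact le_of_mul_le_mul_left h4 (mul_pos hl hnorm)
    -- a vertex where `|ψ|` is maximal
    have hne : ∃ e, D e ≠ 0 := by
      by_contra hcon
      push Not at hcon
      simp [hcon] at hnorm
    obtain ⟨e₀, he₀⟩ := hne
    -- maximise `σ * ψ` on the support, for both signs; first the absolute value gives `lam j ≤ 1`
    have hmain : ∀ σ : ℝ, (σ = 1 ∨ σ = -1) → ∃ e, D e ≠ 0 ∧ (∀ f, D f ≠ 0 → σ * ψ f ≤ σ * ψ e) := by
      intro σ _
      obtain ⟨e, he, hmax⟩ := (univ.filter (fun e => D e ≠ 0)).exists_max_image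
        (fun e => σ * ψ e) ⟨e₀, by simp [he₀]⟩
      simp only [mem_filter, mem_univ, true_and] at he hmax
      exact ⟨e, he, hmax⟩
    have hbound : ∀ σ : ℝ, (σ = 1 ∨ σ = -1) → ∀ e, D e ≠ 0 →
        (∀ f, D f ≠ 0 → σ * ψ f ≤ σ * ψ e) → lam j * (σ * ψ e) ≤ σ * ψ e := by
      intro σ _ e he hmax
      have h1 : lam j * (D e * (σ * ψ e)) = ∑ f, A e f * (σ * ψ f) := by
        have : ∑ f, A e f * (σ * ψ f) = σ * ∑ f, A e f * ψ f := by
          rw [mul_sum]; exact sum_congr rfl fun f _ => by ring
        rw [this, hAψ]; ring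
      have h2 : ∑ f, A e f * (σ * ψ f) ≤ ∑ f, A e f * (σ * ψ e) := by
        refine sum_le_sum fun f _ => ?_
        by_cases hf : D f = 0
        · rw [hA2 e f hf]; simp
        · exact mul_le_mul_of_nonneg_left (hmax f hf) (hA0 e f)
      rw [← sum_mul, hrow] at h2
      have h3 : 0 < D e := lt_of_le_of_ne (hD0 e) (Ne.symm he)
      have h4 : D e * (lam j * (σ * ψ e)) ≤ D e * (σ * ψ e) := by linarith
      exact le_of_mul_le_mul_left h4 h3
    -- signs of the extreme values
    obtain ⟨p, hp, hpmax⟩ := hmain 1 (Or.inl rfl)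
    obtain ⟨q, hq, hqmax⟩ := hmain (-1) (Or.inr rfl)
    have hp1 := hbound 1 (Or.inl rfl) p hp hpmax
    have hq1 := hbound (-1) (Or.inr rfl) q hq hqmax
    have hψp : ψ q ≤ ψ p := by simpa using hpmax q hq
    -- `lam j = 1`
    have hle : lam j = 1 := by
      refine le_antisymm ?_ hge
      by_contra hcon
      push Not at hcon
      have h1 : ψ p ≤ 0 := by nlinarith
      have h2 : 0 ≤ ψ q := by nlinarith
      have h3 : ∀ e, D e ≠ 0 → ψ e = 0 := by
        intro e he
        have h4 := hpmax e he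
        have h5 := hqmax e he
        linarith
      have : ∑ e, D e * ψ e ^ 2 = 0 := by
        refine sum_eq_zero fun e _ => ?_
        by_cases he : D e = 0
        · simp [he]
        · simp [h3 e he]
      linarith
    -- the maximum propagates
    have hprop : ∀ e, D e ≠ 0 → ψ e = ψ p → ∀ f, 0 < A e f → ψ f = ψ p := by
      intro e he hep f hf
      have h1 : ∑ f, A e f * (ψ p - ψ f) = 0 := by
        simp only [mul_sub, sum_sub_distrib, ← sum_mul]
        rw [hrow, hAψ, hle, hep]; ring
      have h2 : ∀ f ∈ univ, 0 ≤ A e f * (ψ p - ψ f) := by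
        intro f _
        by_cases hf : D f = 0
        · rw [hA2 e f hf]; simp
        · exact mul_nonneg (hA0 e f) (by have := hpmax f hf; linarith)
      have h3 := (sum_eq_zero_iff_of_nonneg h2).1 h1 f (mem_univ f)
      rcases mul_eq_zero.1 h3 with h4 | h4
      · exact absurd h4 hf.ne'
      · linarith
    have hpos : ∀ e f, 0 < A e f → D e ≠ 0 := fun e f h h' => by
      rw [hA1 e f h'] at h; exact lt_irrefl _ h
    have hpos' : ∀ e f, 0 < A e f → D f ≠ 0 := fun e f h => hpos f e (by rw [hA]; exact h)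
    refine ⟨ψ p, fun e => ?_⟩
    by_cases he : D e = 0
    · rw [hz e he, hsz e he]; simp
    · have : ψ e = ψ p := by
        rcases hconn p e (lt_of_le_of_ne (hD0 p) (Ne.symm hp))
          (lt_of_le_of_ne (hD0 e) (Ne.symm he)) with h | h | ⟨g, h1, h2⟩
        · rw [h]
        · exact hprop p hp rfl e h
        · exact hprop g (hpos' p g h1) (hprop p hp rfl g h1) e h2
      rw [hVψ e, this]; ring
  -- expansion in the eigenbasis
  set x : EuclideanSpace ℝ ι := WithLp.toLp 2 (fun e => s e * φ e) with hx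
  have hxe : ∀ e, x e = s e * φ e := fun e => rfl
  have hq : qf A φ = ∑ e, x e * ∑ f, B e f * x f := by
    unfold qf
    refine sum_congr rfl fun e _ => ?_
    rw [mul_sum]
    refine sum_congr rfl fun f _ => ?_
    rw [hBA, hxe, hxe]; ring
  set y : EuclideanSpace ℝ ι := WithLp.toLp 2 (fun e => ∑ f, B e f * x f) with hy
  have hinner : ∀ u v : EuclideanSpace ℝ ι, inner ℝ u v = ∑ e, u e * v e := by
    intro u v
    rw [PiLp.inner_apply]
    refine sum_congr rfl fun e _ => ?_
    simp [mul_comm]
  have hq2 : qf A φ = inner ℝ x y := by rw [hinner, hq]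
  have hexp : inner ℝ x y = ∑ j, inner ℝ x (V j) * inner ℝ (V j) y :=
    (V.sum_inner_mul_inner x y).symm
  have hVy : ∀ j, inner ℝ (V j) y = lam j * inner ℝ x (V j) := by
    intro j
    rw [hinner, hinner]
    have h1 : ∑ e, V j e * y e = ∑ f, x f * ∑ e, B f e * V j e := by
      have h2 : ∀ e, V j e * y e = ∑ f, V j e * (B e f * x f) := fun e => mul_sum _ _ _
      simp only [h2, mul_sum]
      rw [sum_comm]
      refine sum_congr rfl fun f _ => sum_congr rfl fun e _ => ?_
      have : B e f = B f e := by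
        have := congrFun (congrFun hBh e) f
        simpa using this.symm
      rw [this]; ring
    rw [h1, mul_sum]
    refine sum_congr rfl fun f _ => ?_
    rw [heig]; ring
  rw [hq2, hexp]
  refine sum_nonpos fun j _ => ?_
  rw [hVy]
  rcases key j with h | ⟨c, hc⟩
  · nlinarith [sq_nonneg (inner ℝ x (V j))]
  · have : inner ℝ x (V j) = 0 := by
      rw [hinner]
      have : ∑ e, x e * V j e = c * ∑ e, D e * φ e := by
        rw [mul_sum]
        refine sum_congr rfl fun e _ => ?_
        rw [hxe, hc, ← hss]; ring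
      rw [this, hφ, mul_zero]
    rw [this]; simp

end

end Pool.Agent.Run7.h997
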