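import Pool.Agent.Run7.h997.Expo
import Pool.Agent.Run7.h997.Mach

/-!
# The two programs of the sampler
-/

namespace Pool.Agent.NPC.R997

open Pool.Agent.NPC.H670R2 Pool.Agent.H670R2 Pool.Agent.Run7.h997 Pool.Agent.NPC.R591
open Pool.Agent.H591R2 (head)

/-- the list coded by an input string -/
def decL (x : List Bool) : List (List ℕ) := (unbits (List (List ℕ)) x).getD []

/-- the rarity of the exponential-time branch -/
def sOf (c : ℕ) (L : List (List ℕ)) : ℕ := c * (2 * (cols L).length + 1)

/-- number of coins of one trial -/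
def kOf (L : List (List ℕ)) (s : ℕ) : ℕ := s + 2 * aOf L * tOf L s

/-- the preparation -/
def fA (c : ℕ) (x : List Bool) : List Bool := head (kOf (decL x) (sOf c (decL x))) x

/-- the type of the requests -/
abbrev Req : Type := List Unit × (List Unit × (List Unit × (ℕ × List Bool)))

/-- is the cheap branch taken? -/
def g1c (c : ℕ) (L : List (List ℕ)) (R : ℕ) : Bool := decide (R % 2 ^ sOf c L ≠ 0)

/-- result of the cheap branch -/
def g1a (c : ℕ) (L : List (List ℕ)) (R : ℕ) : List (List ℕ) :=
  outL L (walkB L (tOf L (sOf c L)) (R / 2 ^ sOf c L) (greedy L))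

/-- request for the expensive branch -/
def g1b (c : ℕ) (L : List (List ℕ)) (R : ℕ) (x : List Bool) : Req :=
  (List.replicate (cols L).length (),
    (([()] : List Unit), (List.replicate (sOf c L) (), (R / 2 ^ sOf c L, x))))

/-- the polynomial-time branch, with the decoded input -/
def g1d (c : ℕ) (L : List (List ℕ)) (R : ℕ) (x : List Bool) : List (List ℕ) ⊕ Req :=
  bif g1c c L R then Sum.inl (g1a c L R) else Sum.inr (g1b c L R x)

/-- the polynomial-time branch -/
def g1 (c : ℕ) (z : List Bool) : List (List ℕ) ⊕ Req :=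
  g1d c (decL (unpair z).2) (valB (unpair z).1) (unpair z).2

/-- the string that restarts the loop -/
def again (L : List (List ℕ)) (s : ℕ) (x : List Bool) : List Bool := false :: head (kOf L s) x

/-- outcome of the selection -/
def fin2 (L : List (List ℕ)) (s : ℕ) (x : List Bool) (o : Option (List Bool)) :
    List (List ℕ) ⊕ List Bool :=
  o.elim (Sum.inr (again L s x)) (fun μ => Sum.inl (outL L μ))

/-- the exponential-time branch, with the decoded input -/
def g2d (L : List (List ℕ)) (P s ρ : ℕ) (x : List Bool) : List (List ℕ) ⊕ List Bool :=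
  fin2 L s x (sel (weights L P s (tOf L s)) ρ)

/-- the exponential-time branch, with padding -/
def g2 (p : List Unit × (List Unit × (ℕ × List Bool))) : List (List ℕ) ⊕ List Bool :=
  g2d (decL p.2.2.2) p.1.length p.2.1.length p.2.2.1 p.2.2.2

section

variable {α : Type} [TEnc α]

theorem decL_poly {x : α → List Bool} (hx : Poly x) : Poly (fun a => decL (x a)) := by
  have h1 : Poly (fun a => unbits (List (List ℕ)) (x a)) := poly_unbits.comp hx
  unfold decL
  exact Poly.optGetD h1 (Poly.const [])

theorem sOf_upoly (c : ℕ) {L : α → List (List ℕ)} (hL : Poly L) : UPoly (fun a => sOf c (L a)) := by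
  have hn : UPoly (fun a => (cols (L a)).length) := UPoly.length (cols_poly.comp hL)
  unfold sOf
  exact (UPoly.const c).mul (((UPoly.const 2).mul hn).add (UPoly.const 1))

theorem kOf_upoly {L : α → List (List ℕ)} {s : α → ℕ} (hL : Poly L) (hs : UPoly s) :
    UPoly (fun a => kOf (L a) (s a)) := by
  unfold kOf
  exact hs.add (((UPoly.const 2).mul (aOf_upoly hL)).mul (tOf_upoly hL hs))

theorem head_poly {k : α → ℕ} {x : α → List Bool} (hk : UPoly k) (hx : Poly x) :
    Poly (fun a => head (k a) (x a)) := by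
  unfold head
  have h1 : Poly (fun a => (List.replicate (k a) ()).map (fun _ => true)) :=
    Poly.map (F := fun _ _ => true) hk (Poly.const true)
  have h2 : Poly (fun a => List.replicate (k a) true) := h1.congr fun a => by simp
  exact Poly.append h2 (Poly.cons (Poly.const false) hx)

theorem fA_poly (c : ℕ) {x : α → List Bool} (hx : Poly x) : Poly (fun a => fA c (x a)) :=
  head_poly (kOf_upoly (decL_poly hx) (sOf_upoly c (decL_poly hx))) hx

theorem g1c_poly (c : ℕ) {L : α → List (List ℕ)} {R : α → ℕ} (hL : Poly L) (hR : Poly R) :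
    Poly (fun a => g1c c (L a) (R a)) := by
  have hp : Poly (fun a => 2 ^ sOf c (L a)) := pow2s_poly (sOf_upoly c hL)
  have h1 : Poly (fun a => decide (R a % 2 ^ sOf c (L a) = 0)) :=
    Poly.decide_eq (Poly.mod hR hp) (Poly.const 0)
  exact Poly.decide_not h1

theorem g1a_poly (c : ℕ) {L : α → List (List ℕ)} {R : α → ℕ} (hL : Poly L) (hR : Poly R) :
    Poly (fun a => g1a c (L a) (R a)) := by
  have hs : UPoly (fun a => sOf c (L a)) := sOf_upoly c hL
  have hp : Poly (fun a => 2 ^ sOf c (L a)) := pow2s_poly hs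
  have hρ : Poly (fun a => R a / 2 ^ sOf c (L a)) := Poly.div hR hp
  have hw : Poly (fun a => walkB (L a) (tOf (L a) (sOf c (L a))) (R a / 2 ^ sOf c (L a))
    (greedy (L a))) := walkB_poly hL (tOf_upoly hL hs) hρ (greedy_poly hL)
  exact outL_poly hL hw

theorem g1b_poly (c : ℕ) {L : α → List (List ℕ)} {R : α → ℕ} {x : α → List Bool} (hL : Poly L)
    (hR : Poly R) (hx : Poly x) : Poly (fun a => g1b c (L a) (R a) (x a)) := by
  have hs : UPoly (fun a => sOf c (L a)) := sOf_upoly c hL
  have hp : Poly (fun a => 2 ^ sOf c (L a)) := pow2s_poly hs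
  have hρ : Poly (fun a => R a / 2 ^ sOf c (L a)) := Poly.div hR hp
  have hn : UPoly (fun a => (cols (L a)).length) := UPoly.length (cols_poly.comp hL)
  exact Poly.pair hn (Poly.pair (Poly.const _) (Poly.pair hs (Poly.pair hρ hx)))

theorem g1d_poly (c : ℕ) {L : α → List (List ℕ)} {R : α → ℕ} {x : α → List Bool} (hL : Poly L)
    (hR : Poly R) (hx : Poly x) : Poly (fun a => g1d c (L a) (R a) (x a)) :=
  Poly.cond (g1c_poly c hL hR) (Poly.inl (g1a_poly c hL hR)) (Poly.inr (g1b_poly c hL hR hx))

theorem g1_poly (c : ℕ) : Poly (g1 c) := by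
  have hu : Poly (fun z : List Bool => unpair z) := poly_unpair
  have hr : Poly (fun z : List Bool => valB (unpair z).1) := Poly.valBits (Poly.fst hu)
  have hx : Poly (fun z : List Bool => (unpair z).2) := Poly.snd hu
  exact g1d_poly c (decL_poly hx) hr hx

theorem again_poly {L : α → List (List ℕ)} {s : α → ℕ} {x : α → List Bool} (hL : Poly L)
    (hs : UPoly s) (hx : Poly x) : Poly (fun a => again (L a) (s a) (x a)) :=
  Poly.cons (Poly.const false) (head_poly (kOf_upoly hL hs) hx)

theorem fin2_poly {L : α → List (List ℕ)} {s : α → ℕ} {x : α → List Bool}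
    {o : α → Option (List Bool)} (hL : Poly L) (hs : UPoly s) (hx : Poly x) (ho : Poly o) :
    Poly (fun a => fin2 (L a) (s a) (x a) (o a)) := by
  have h1 : Poly (fun a => (Sum.inr (again (L a) (s a) (x a)) : List (List ℕ) ⊕ List Bool)) :=
    Poly.inr (again_poly hL hs hx)
  have h2 : Poly (fun q : α × List Bool => outL (L q.1) q.2) :=
    outL_poly (L := fun q : α × List Bool => L q.1)
      (hL.comp (f := fun q : α × List Bool => q.1) (Poly.fst Poly.id)) (Poly.snd Poly.id)
  have h3 : Poly (fun q : α × List Bool =>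
      (Sum.inl (outL (L q.1) q.2) : List (List ℕ) ⊕ List Bool)) := Poly.inl h2
  exact Poly.optElim (g := fun a => (Sum.inr (again (L a) (s a) (x a)) : List (List ℕ) ⊕ List Bool))
    (h := fun a μ => (Sum.inl (outL (L a) μ) : List (List ℕ) ⊕ List Bool)) ho h1 h3

theorem g2d_poly {L : α → List (List ℕ)} {P s ρ : α → ℕ} {x : α → List Bool} (hL : Poly L)
    (hP : UPoly P) (hs : UPoly s) (hρ : Poly ρ) (hx : Poly x) :
    Poly (fun a => g2d (L a) (P a) (s a) (ρ a) (x a)) := by
  have h1 : Poly (fun a => weights (L a) (P a) (s a) (tOf (L a) (s a))) :=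
    weights_poly hL hP hs (tOf_upoly hL hs)
  exact fin2_poly hL hs hx (sel_poly h1 hρ)

theorem g2_poly : Poly g2 := by
  have hx : Poly (fun p : List Unit × (List Unit × (ℕ × List Bool)) => p.2.2.2) :=
    Poly.snd (Poly.snd (Poly.snd Poly.id))
  have hP : UPoly (fun p : List Unit × (List Unit × (ℕ × List Bool)) => p.1.length) :=
    UPoly.length (Poly.fst Poly.id)
  have hs : UPoly (fun p : List Unit × (List Unit × (ℕ × List Bool)) => p.2.1.length) :=
    UPoly.length (Poly.fst (Poly.snd Poly.id))
  have hρ : Poly (fun p : List Unit × (List Unit × (ℕ × List Bool)) => p.2.2.1) :=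
    Poly.fst (Poly.snd (Poly.snd Poly.id))
  exact g2d_poly (decL_poly hx) hP hs hρ hx

end

end Pool.Agent.NPC.R997
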